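import Mathlib
import Pool.Agent.Lib.MP_551055_al.Trim.Descent
import Pool.Agent.Lib.MP_551055_al.Trim.LS.Stmts
import Pool.Agent.Lib.MP_551055_al.Trim.T4.OrbT
import Pool.Agent.Lib.MP_551055_al.Trim.T4.SNil

/-!
# Lifts of nilpotent matrices

A nilpotent matrix over `A[G]` supported on a double coset `D g D` with unique decompositions
lifts to a nilpotent matrix over `A[H]`, supported on `D' t D'`, for every homomorphism
`f : H → G` mapping `D'` isomorphically to `D`, `t` to `g`, such that `t` conjugates `x ∈ D'` into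
`D'` whenever `g` conjugates `f x` into `D`.
-/

set_option autoImplicit false

namespace Pool.Agent.Lib.MP_551055_al
end Pool.Agent.Lib.MP_551055_al

namespace Pool.Agent.Lib.MP_551055_al.LS
end Pool.Agent.Lib.MP_551055_al.LS

namespace Pool.Agent.Lib.MP_551055_al.T4
end Pool.Agent.Lib.MP_551055_al.T4

namespace Pool.Agent.Lib.MP_551055_al.RI

open Pool.Agent.Lib.MP_551055_al

open Pool.Agent.Lib.MP_551055_al.LS

open Pool.Agent.Lib.MP_551055_al.T4

universe u v w

section

variable {G : Type u} [Group G] {H : Type v} [Group H]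

/-- The data of a lift. -/
structure LiftData (f : H →* G) (D : Subgroup G) (D' : Subgroup H) (g : G) (t : H) : Prop where
  map : ∀ x ∈ D', f x ∈ D
  surj : ∀ y ∈ D, ∃ x ∈ D', f x = y
  inj : ∀ x ∈ D', f x = 1 → x = 1
  ft : f t = g
  conj : ∀ x ∈ D', g⁻¹ * f x * g ∈ D → t⁻¹ * x * t ∈ D'

/-- The elements of `(D' t)^k D'`. -/
def Word (D' : Subgroup H) (t : H) : ℕ → H → Prop
  | 0, h => h ∈ D'
  | k + 1, h => ∃ a ∈ D', ∃ r, Word D' t k r ∧ h = a * t * r

theorem Word.mul_left {D' : Subgroup H} {t : H} : ∀ {k : ℕ} {h a : H}, Word D' t k h → a ∈ D' →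
    Word D' t k (a * h)
  | 0, _, _, hh, ha => D'.mul_mem ha hh
  | k + 1, h, a, ⟨b, hb, r, hr, e⟩, ha => ⟨a * b, D'.mul_mem ha hb, r, hr, by
      rw [e]; group⟩

theorem Word.mul {D' : Subgroup H} {t : H} {k : ℕ} {h r : H} (hh : Word D' t 1 h)
    (hr : Word D' t k r) : Word D' t (k + 1) (h * r) := by
  obtain ⟨a, ha, b, hb, e⟩ := hh
  exact ⟨a, ha, b * r, hr.mul_left hb, by rw [e]; group⟩

theorem itr_word (D : Subgroup G) (g : G) {f : H →* G} {D' : Subgroup H} {t : H}
    (hL : LiftData f D D' g t) : ∀ {k : ℕ} {h : H}, Word D' t k h →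
      itr (crel D g) k ((1 : G) : G ⧸ D) (f h : G ⧸ D)
  | 0, h, hh => by
    change ((1 : G) : G ⧸ D) = (f h : G ⧸ D)
    rw [QuotientGroup.eq, inv_one, one_mul]
    exact hL.map h hh
  | k + 1, h, ⟨a, ha, r, hr, e⟩ => by
    refine ⟨((f a * g : G) : G ⧸ D), crel_of_mem D g _ ⟨f a, hL.map a ha, 1, D.one_mem, ?_⟩, ?_⟩
    · rw [mul_one]
    · have h1 := itr_crel_smul D g (f a * g) k _ _ (itr_word D g hL hr)
      have h2 : (f a * g) • ((1 : G) : G ⧸ D) = ((f a * g : G) : G ⧸ D) :=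
        congrArg _ (mul_one (f a * g))
      have h3 : (f a * g) • ((f r : G) : G ⧸ D) = ((f h : G) : G ⧸ D) := by
        refine congrArg (QuotientGroup.mk (s := D)) ?_
        change f a * g * f r = f h
        rw [e, map_mul, map_mul, hL.ft]
      rwa [h2, h3] at h1

/-- The homomorphism is injective on the words of one length. -/
theorem word_inj {f : H →* G} {D : Subgroup G} {D' : Subgroup H} {g : G} {t : H}
    (hL : LiftData f D D' g t) (hur : UR (Γ := G) (crel D g)) : ∀ (k : ℕ) (h h' : H),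
      Word D' t k h → Word D' t k h' → f h = f h' → h = h'
  | 0, h, h', hh, hh', e => by
    have h1 : h * h'⁻¹ = 1 := by
      apply hL.inj _ (D'.mul_mem hh (D'.inv_mem hh'))
      rw [map_mul, map_inv, e, mul_inv_cancel]
    exact mul_inv_eq_one.1 h1
  | k + 1, h, h', ⟨a, ha, r, hr, e⟩, ⟨a', ha', r', hr', e'⟩, hf => by
    have key : ∀ (c : H) (s : H), c ∈ D' → Word D' t k s →
        itr (crel D g) k ((f c * g : G) : G ⧸ D) ((f c * g * f s : G) : G ⧸ D) := by
      intro c s _ hs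
      have h1 := itr_crel_smul D g (f c * g) k _ _ (itr_word D g hL hs)
      have h2 : (f c * g) • ((1 : G) : G ⧸ D) = ((f c * g : G) : G ⧸ D) :=
        congrArg _ (mul_one (f c * g))
      have h3 : (f c * g) • ((f s : G) : G ⧸ D) = ((f c * g * f s : G) : G ⧸ D) := rfl
      rwa [h2, h3] at h1
    have e1 : f h = f a * g * f r := by rw [e, map_mul, map_mul, hL.ft]
    have e2 : f h = f a' * g * f r' := by rw [hf, e', map_mul, map_mul, hL.ft]
    have hc : ∀ c ∈ D', crel D g ((1 : G) : G ⧸ D) ((f c * g : G) : G ⧸ D) := fun c hc =>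
      crel_of_mem D g _ ⟨f c, hL.map c hc, 1, D.one_mem, by rw [mul_one]⟩
    have h4 : ((f a * g : G) : G ⧸ D) = ((f a' * g : G) : G ⧸ D) := by
      refine hur.uniq k _ _ _ ((f h : G) : G ⧸ D) (hc a ha) (hc a' ha') ?_ ?_
      · rw [e1]; exact key a r ha hr
      · rw [e2]; exact key a' r' ha' hr'
    rw [eq_comm, QuotientGroup.eq] at h4
    have h5 : g⁻¹ * f (a'⁻¹ * a) * g ∈ D := by
      have h6 : g⁻¹ * f (a'⁻¹ * a) * g = (f a' * g)⁻¹ * (f a * g) := by
        rw [map_mul, map_inv]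
        group
      rw [h6]
      exact h4
    have h6 := hL.conj _ (D'.mul_mem (D'.inv_mem ha') ha) h5
    have h7 : Word D' t k (t⁻¹ * (a'⁻¹ * a) * t * r) := hr.mul_left h6
    have h8 : f (t⁻¹ * (a'⁻¹ * a) * t * r) = f r' := by
      have h9 : f a' * g * f (t⁻¹ * (a'⁻¹ * a) * t * r) = f a' * g * f r' := by
        rw [← e2, e1]
        simp only [map_mul, map_inv, hL.ft]
        group
      exact mul_left_cancel h9
    have h9 := word_inj hL hur k _ _ h7 hr' h8
    rw [e, e', ← h9]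
    group

end

section Matrices

variable {A : Type w} [CommRing A] {G : Type u} [Group G] {H : Type v} [Group H]

theorem coeffMul_ne' {x y : MonoidAlgebra A H} {g : H} (h : (x * y).coeff g ≠ 0) :
    ∃ a b, x.coeff a ≠ 0 ∧ y.coeff b ≠ 0 ∧ a * b = g := by
  classical
  have h1 := MonoidAlgebra.support_coeff_mul_subset x y (Finsupp.mem_support_iff.2 h)
  obtain ⟨a, ha, b, hb, hab⟩ := Finset.mem_mul.1 h1
  exact ⟨a, b, Finsupp.mem_support_iff.1 ha, Finsupp.mem_support_iff.1 hb, hab⟩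

omit [Group H] in
theorem coeffSum_ne' {ι : Type} {s : Finset ι} {f : ι → MonoidAlgebra A H} {g : H}
    (h : (∑ i ∈ s, f i).coeff g ≠ 0) : ∃ i ∈ s, (f i).coeff g ≠ 0 := by
  by_contra hne
  push Not at hne
  apply h
  rw [MonoidAlgebra.coeff_sum, Finsupp.finsetSum_apply]
  exact Finset.sum_eq_zero hne

theorem pow_word {ι : Type} [Fintype ι] [DecidableEq ι] (D' : Subgroup H) (t : H)
    (B : Matrix ι ι (MonoidAlgebra A H))
    (hB : ∀ i l γ, (B i l).coeff γ ≠ 0 → Word D' t 1 γ) (k : ℕ) (i l : ι) (γ : H)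
    (h : ((B ^ k) i l).coeff γ ≠ 0) : Word D' t k γ := by
  classical
  induction k generalizing i γ with
  | zero =>
    rw [pow_zero, Matrix.one_apply] at h
    have h1 : (1 : H) = γ := by
      by_contra hne
      apply h
      split_ifs with hil
      · rw [MonoidAlgebra.one_def, MonoidAlgebra.coeff_single, Finsupp.single_apply, if_neg hne]
      · rfl
    rw [← h1]
    exact D'.one_mem
  | succ k ih =>
    rw [pow_succ', Matrix.mul_apply] at h
    obtain ⟨m, _, hm⟩ := coeffSum_ne' h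
    obtain ⟨a, b, ha, hb, hab⟩ := coeffMul_ne' hm
    rw [← hab]
    exact (hB i m a ha).mul (ih m b hb)

theorem eq_zero_of_inc {f : H →* G} {P : H → Prop}
    (hinj : ∀ h h', P h → P h' → f h = f h' → h = h') (x : MonoidAlgebra A H)
    (hx : ∀ h, x.coeff h ≠ 0 → P h) (h0 : inc A f x = 0) : x = 0 := by
  apply MonoidAlgebra.ext
  ext h
  change x.coeff h = 0
  by_contra hne
  have h1 : (inc A f x).coeff (f h) = x.coeff h := by
    have h2 : (inc A f x).coeff = Finsupp.mapDomain f x.coeff := rfl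
    rw [h2]
    refine Finsupp.mapDomain_apply' {y | P y} x.coeff ?_ ?_ (hx h hne)
    · intro y hy
      exact hx y (Finsupp.mem_support_iff.1 hy)
    · intro y hy y' hy' e
      exact hinj y y' hy hy' e
  rw [h0] at h1
  exact hne h1.symm

/-- A nilpotent matrix supported on a double coset with unique decompositions lifts. -/
theorem liftNil {f : H →* G} {D : Subgroup G} {D' : Subgroup H} {g : G} {t : H}
    (hL : LiftData f D D' g t) (hur : UR (Γ := G) (crel D g)) {ι : Type} [Fintype ι]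
    [DecidableEq ι] (B : Matrix ι ι (MonoidAlgebra A G)) (k : ℕ) (hk : B ^ k = 0)
    (hB : ∀ i l γ, (B i l).coeff γ ≠ 0 → ∃ a ∈ D, ∃ b ∈ D, γ = a * g * b) :
    ∃ C : Matrix ι ι (MonoidAlgebra A H), C.map (inc A f) = B ∧ C ^ k = 0 ∧
      ∀ i l γ, (C i l).coeff γ ≠ 0 → ∃ a ∈ D', ∃ b ∈ D', γ = a * t * b := by
  classical
  have hex : ∀ γ : G, ∃ h : H, (∃ a ∈ D, ∃ b ∈ D, γ = a * g * b) → f h = γ ∧ Word D' t 1 h := by
    intro γ
    by_cases hγ : ∃ a ∈ D, ∃ b ∈ D, γ = a * g * b
    · obtain ⟨a, ha, b, hb, e⟩ := hγ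
      obtain ⟨a', ha', ea⟩ := hL.surj a ha
      obtain ⟨b', hb', eb⟩ := hL.surj b hb
      exact ⟨a' * t * b', fun _ => ⟨by rw [map_mul, map_mul, ea, eb, hL.ft, e],
        a', ha', b', hb', rfl⟩⟩
    · exact ⟨1, fun h => absurd h hγ⟩
  choose lam hlam using hex
  obtain ⟨C, hC⟩ : ∃ C : Matrix ι ι (MonoidAlgebra A H),
      C = fun i l => MonoidAlgebra.mapDomain lam (B i l) := ⟨_, rfl⟩
  have hCcoeff : ∀ i l, (C i l).coeff = Finsupp.mapDomain lam (B i l).coeff := by
    intro i l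
    rw [hC]
    rfl
  have hsupp : ∀ i l γ, (C i l).coeff γ ≠ 0 → Word D' t 1 γ := by
    intro i l γ h
    rw [hCcoeff] at h
    obtain ⟨δ, hδ, rfl⟩ := Finset.mem_image.1
      (Finsupp.mapDomain_support (Finsupp.mem_support_iff.2 h))
    exact (hlam δ (hB i l δ (Finsupp.mem_support_iff.1 hδ))).2
  have hmap : C.map (inc A f) = B := by
    ext1 i l
    apply MonoidAlgebra.ext
    have h1 : ((C.map (inc A f)) i l).coeff = Finsupp.mapDomain f (C i l).coeff := rfl
    rw [h1, hCcoeff, ← Finsupp.mapDomain_comp]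
    have h2 : Finsupp.mapDomain (⇑f ∘ lam) (B i l).coeff =
        Finsupp.mapDomain id (B i l).coeff := by
      apply Finsupp.mapDomain_congr
      intro δ hδ
      exact (hlam δ (hB i l δ (Finsupp.mem_support_iff.1 hδ))).1
    rw [h2, Finsupp.mapDomain_id]
  refine ⟨C, hmap, ?_, ?_⟩
  · ext1 i l
    refine eq_zero_of_inc (word_inj hL hur k) _ (fun h hh => pow_word D' t C hsupp k i l h hh) ?_
    have h1 : (C ^ k).map (inc A f) = (C.map (inc A f)) ^ k :=
      map_pow (RingHom.mapMatrix (inc A f)) C k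
    have h2 : ((C ^ k).map (inc A f)) i l = 0 := by
      rw [h1, hmap, hk]
      rfl
    exact h2
  · intro i l γ h
    obtain ⟨a, ha, b, hb, e⟩ := hsupp i l γ h
    exact ⟨a, ha, b, hb, e⟩

end Matrices

/-- The data of a lift, times a group. -/
theorem LiftData.prod {G : Type u} [Group G] {H : Type v} [Group H] {P : Type w} [Group P]
    {f : H →* G} {D : Subgroup G} {D' : Subgroup H} {g : G} {t : H}
    (hL : LiftData f D D' g t) (p : P) :
    LiftData (f.prodMap (MonoidHom.id P)) (D.prod ⊤) (D'.prod ⊤) (g, p) (t, p) where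
  map x hx := Subgroup.mem_prod.2 ⟨hL.map x.1 (Subgroup.mem_prod.1 hx).1, Subgroup.mem_top _⟩
  surj y hy := by
    obtain ⟨x, hx, e⟩ := hL.surj y.1 (Subgroup.mem_prod.1 hy).1
    exact ⟨(x, y.2), Subgroup.mem_prod.2 ⟨hx, Subgroup.mem_top _⟩, Prod.ext e rfl⟩
  inj x hx e := by
    have h1 : f x.1 = 1 := congrArg (fun y : G × P => y.1) e
    have h2 : x.2 = 1 := congrArg (fun y : G × P => y.2) e
    exact Prod.ext (hL.inj x.1 (Subgroup.mem_prod.1 hx).1 h1) h2
  ft := Prod.ext hL.ft rfl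
  conj x hx h := Subgroup.mem_prod.2 ⟨hL.conj x.1 (Subgroup.mem_prod.1 hx).1
    (Subgroup.mem_prod.1 h).1, Subgroup.mem_top _⟩

end Pool.Agent.Lib.MP_551055_al.RI
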