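import Mathlib
import Pool.Agent.Lib.MP_551055_al.Trim.LO.Base
import Pool.Agent.Lib.MP_551055_al.Trim.LS.PStmts
import Pool.Agent.Lib.MP_551055_al.Trim.LS.Stmts
import Pool.Agent.Lib.MP_551055_al.Trim.LS.Stmts3
import Pool.Agent.Lib.MP_551055_al.Trim.MT.Defs
import Pool.Agent.Lib.MP_551055_al.Trim.MT.Gen
import Pool.Agent.Lib.MP_551055_al.Trim.MT.RCU
import Pool.Agent.Lib.MP_551055_al.Trim.RI.LiftNil
import Pool.Agent.Lib.MP_551055_al.Trim.T4.FinalT
import Pool.Agent.Lib.MP_551055_al.Trim.VNDefs

/-!
# Relative inheritance: definitions and statements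

`G` acts on a tree, `D` is the stabiliser of a long segment, `g ∈ G`. The HNN extension `H` of `D`
with stable letter `t ↦ g` over `D ∩ g D g⁻¹` maps to `G`. Nilpotent matrices supported on `D g D`
lift to nilpotent matrices over `ℤ[H × ℤ^n]`, and `H` acts on its Bass-Serre tree with vertex
stabilisers conjugate to `D`, and on all the trees on which `G` acts.

We consider pairs `(G, F)`, `F` a set of subgroups of `G`. A lift of `(G, F)` is a homomorphism
`f : H → G` where `H` acts on finitely many trees such that for every subgroup `E` of `H` which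
fixes a vertex of each tree `f(E) ∈ F` and `f : E → f(E)` is harmless (three levels `Rl`).
-/

set_option autoImplicit false

namespace Pool.Agent.Lib.MP_551055_al
end Pool.Agent.Lib.MP_551055_al

namespace Pool.Agent.Lib.MP_551055_al.LS
end Pool.Agent.Lib.MP_551055_al.LS

namespace Pool.Agent.Lib.MP_551055_al.LO
end Pool.Agent.Lib.MP_551055_al.LO

namespace Pool.Agent.Lib.MP_551055_al.T4
end Pool.Agent.Lib.MP_551055_al.T4

namespace Pool.Agent.Lib.MP_551055_al.RI

open Pool.Agent.Lib.MP_551055_al

open Pool.Agent.Lib.MP_551055_al.LS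

open Pool.Agent.Lib.MP_551055_al.LO

open Pool.Agent.Lib.MP_551055_al.T4

/-- There is a lift of `(D, g)` to a group `H` such that the finitely generated projective modules
over `ℤ[H × ℤ^n]` are stably free. -/
def HGood (n : ℕ) {G : Type} [Group G] (D : Subgroup G) (g : G) : Prop :=
  ∃ (H : Type) (_ : Group H) (f : H →* G) (D' : Subgroup H) (t : H), LiftData f D D' g t ∧
    VN.ProjStFree (H × ZN n)

/-- Module M3 (FinalH). The closure theorem for one tree. -/
def StFinalH : Prop :=
  ∀ (n : ℕ) (G : Type) [Group G] (V : Type) [MulAction G V] (T : SimpleGraph V), TreeAct G V T →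
    (∀ v : V, VN.ProjStFree (MulAction.stabilizer G v × ZN n)) →
    (∀ u v, T.Adj u v → VN.ProjStFree (MulAction.stabilizer G (u, v) × ZN (n + 1))) →
    ∀ (S : V → V → Prop), Bar T S →
    (∀ u v, S u v → u ≠ v → NGood G (MulAction.stabilizer G (u, v)) ∨
      LPK (MonoidAlgebra ℤ (MulAction.stabilizer G (u, v) × ZN (n + 1))) ∨
      ∀ g : G, Trl T g u v → HGood n (MulAction.stabilizer G (u, v)) g) →
    VN.ProjStFree (G × ZN n)

/-- Module M4 (HNN). The HNN extension and its Bass-Serre tree. -/
def StHNN : Prop :=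
  ∀ (G : Type) [Group G] (D : Subgroup G) (g : G),
    ∃ (H : Type) (_ : Group H) (f : H →* G) (D' : Subgroup H) (t : H), LiftData f D D' g t ∧
      ∃ (V : Type) (_ : MulAction H V) (T : SimpleGraph V), TreeAct H V T ∧
        ∀ v : V, ∃ h : H, ∀ x : H, x • v = v → h⁻¹ * x * h ∈ D'

/-! ## Trees -/

/-- A tree on which `G` acts without inversions. -/
structure BTree (G : Type) [Group G] where
  V : Type
  act : MulAction G V
  T : SimpleGraph V
  tree : TreeAct G V T

attribute [instance] BTree.act

/-- A tree on which `G` acts without inversions, with an invariant set of long segments. -/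
structure TreeOn (G : Type) [Group G] extends BTree G where
  S : V → V → Prop
  inv : ∀ (g : G) (u v : V), S u v → S (g • u) (g • v)
  bar : Bar T S

section

variable {G : Type} [Group G]

/-- The restriction of the action along a homomorphism. -/
def BTree.res (t : BTree G) {K : Type} [Group K] (f : K →* G) : BTree K :=
  letI : MulAction K t.V := MulAction.compHom t.V f
  { V := t.V
    act := MulAction.compHom t.V f
    T := t.T
    tree := { tree := t.tree.tree
              adj := fun γ u v h => t.tree.adj (f γ) u v h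
              inv := fun γ u v h h' => t.tree.inv (f γ) u v h h' } }

/-- The restriction of the action along a homomorphism. -/
def TreeOn.res (t : TreeOn G) {K : Type} [Group K] (f : K →* G) : TreeOn K :=
  letI : MulAction K t.V := MulAction.compHom t.V f
  { V := t.V
    act := MulAction.compHom t.V f
    T := t.T
    S := t.S
    tree := { tree := t.tree.tree
              adj := fun γ u v h => t.tree.adj (f γ) u v h
              inv := fun γ u v h h' => t.tree.inv (f γ) u v h h' }
    inv := fun g u v h => t.inv (f g) u v h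
    bar := t.bar }

/-- `E` fixes a vertex. -/
def BTree.FixV (t : BTree G) (E : Subgroup G) : Prop :=
  ∃ v : t.V, ∀ e ∈ E, e • v = v

/-- `E` fixes a long segment. -/
def TreeOn.FixS (t : TreeOn G) (E : Subgroup G) : Prop :=
  ∃ u v : t.V, t.S u v ∧ u ≠ v ∧ ∀ e ∈ E, e • u = u ∧ e • v = v

/-- The subgroup of `H` fixing a tuple of vertices. -/
def stabV {J : Type} (τ : J → BTree G) (v : ∀ j, (τ j).V) : Subgroup G where
  carrier := {x | ∀ j, x • v j = v j}
  mul_mem' {a b} ha hb j := by rw [mul_smul, hb j, ha j]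
  one_mem' j := one_smul _ _
  inv_mem' {a} ha j := by rw [inv_smul_eq_iff, ha j]

end

/-! ## Levels -/

/-- Locally poly-`ℤ` groups. -/
def LPZ (P : Type) [Group P] : Prop :=
  ∀ s : Finset P, ∃ K : Subgroup P, (s : Set P) ⊆ K ∧ PolyZ K

/-- Every finite subset is contained in a subgroup which acts on a tree with poly-`ℤ` vertex
stabilisers. -/
def T1 (P : Type) [Group P] : Prop :=
  ∀ s : Finset P, ∃ (K : Subgroup P) (t : BTree K), (s : Set P) ⊆ K ∧
    ∀ v : t.V, PolyZ (MulAction.stabilizer K v)

/-- Three classes of groups: `E` (edge groups), `N` (kernels), `B` (base groups). -/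
structure Cls where
  E : ∀ (P : Type) [Group P], Prop
  N : ∀ (P : Type) [Group P], Prop
  B : ∀ (P : Type) [Group P], Prop

/-- The base groups of level one: all extensions of subgroups of `K × A`, `A` in `E`, with kernel
in `N` are in `B`. -/
def Cls.B1 (X : Cls) (K : Type) [Group K] : Prop :=
  ∀ (R A : Type) [Group R] [Group A] (g : R →* K × A), X.E A → X.N g.ker → X.B R

/-- The properties of the classes. -/
structure Cls.Ok (X : Cls) : Prop where
  E_inj : ∀ {P Q : Type} [Group P] [Group Q] (i : Q →* P), Function.Injective i → X.E P → X.E Q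
  E_prod : ∀ {P Q : Type} [Group P] [Group Q], X.E P → X.E Q → X.E (P × Q)
  E_ext : ∀ {P Q : Type} [Group P] [Group Q] (g : P →* Q), X.E Q → X.N g.ker → X.E P
  E_B : ∀ {P : Type} [Group P], X.E P → X.B P
  E_triv : ∀ {P : Type} [Group P], Subsingleton P → X.E P
  N_inj : ∀ {P Q : Type} [Group P] [Group Q] (i : Q →* P), Function.Injective i → X.N P → X.N Q
  N_ext : ∀ {P Q : Type} [Group P] [Group Q] (g : P →* Q), X.N Q → X.N g.ker → X.N P
  N_triv : ∀ {P : Type} [Group P], Subsingleton P → X.N P
  B_iso : ∀ {P Q : Type} [Group P] [Group Q], P ≃* Q → X.B P → X.B Q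
  main : ∀ (G : Type) [Group G] (J : Type) [Finite J] (τ : J → BTree G),
    (∀ v (E : Subgroup G), E ≤ stabV τ v → X.B E) → ∀ n : ℕ, VN.ProjStFree (G × ZN n)

/-- The three levels of base groups. -/
def Cls.Bs (X : Cls) : ℕ → ∀ (P : Type) [Group P], Prop
  | 0, P, _ => X.E P
  | 1, P, _ => X.B1 P
  | _ + 2, P, _ => X.B P

/-- The three levels of homomorphisms `f : E → G`. Only the kernel of `f` matters. -/
def Cls.Rl (X : Cls) : ℕ → ∀ {E G : Type} [Group E] [Group G], (E →* G) → Prop
  | 0, E, _, _, _, f => ∀ (C P : Type) [Group C] [Group P] (a : C →* E) (b : C →* P),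
      (∀ c, b c = 1 → f (a c) = 1) → (∀ c, a c = 1 → b c = 1 → c = 1) → X.E P → X.B1 C
  | 1, E, _, _, _, f => ∀ (C P : Type) [Group C] [Group P] (a : C →* E) (b : C →* P),
      (∀ c, b c = 1 → f (a c) = 1) → (∀ c, a c = 1 → b c = 1 → c = 1) →
        (X.E P → X.E C) ∧ (X.B1 P → X.B1 C)
  | _ + 2, _, _, _, _, f => Function.Injective f

/-! ## Lifts -/

/-- `f : H → G` is a lift of `(G, F)` of level `l`. -/
def Cls.IsLift (X : Cls) (l : ℕ) {G : Type} [Group G] (F : Subgroup G → Prop) {H : Type} [Group H]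
    (f : H →* G) : Prop :=
  ∃ (J : Type) (_ : Finite J) (τ : J → BTree H), (3 ≤ l → IsEmpty J) ∧
    ∀ (v : ∀ j, (τ j).V) (E : Subgroup H), E ≤ stabV τ v →
      X.Rl l (f.comp E.subtype) ∧ F (E.map f)

/-- All lifts are good. -/
def Cls.LStar (X : Cls) (l : ℕ) (G : Type) [Group G] (F : Subgroup G → Prop) : Prop :=
  ∀ (H : Type) [Group H] (f : H →* G), X.IsLift l F f → ∀ n, VN.ProjStFree (H × ZN n)

/-- `f` is injective on `E`, or (levels `0` and `1`) the kernel of `f` on `E` is in `N` up to a
homomorphism to a group in `E`. -/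
def Cls.KerOK (X : Cls) (l : ℕ) {H G : Type} [Group H] [Group G] (f : H →* G) (E : Subgroup H) :
    Prop :=
  (∀ x ∈ E, f x = 1 → x = 1) ∨ (l ≤ 1 ∧ ∃ (P : Type) (_ : Group P) (p : E →* P), X.E P ∧
    X.N ((f.comp E.subtype).prod p).ker)

/-- The pairs. Level `0`: the base groups are in `E`. Level `1`: the base groups are in `B1`.
Level `2`: the base groups are in `B`. Level `3`: all groups whose subgroups are good may be
used. -/
inductive Cls.Cl (X : Cls) : ℕ → ∀ (G : Type) [Group G], (Subgroup G → Prop) → Prop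
  | base (l : ℕ) (G : Type) [Group G] (F : Subgroup G → Prop) (I : Type) [Finite I]
      (u : I → BTree G) : (∀ E : Subgroup G, F E → (∀ i, (u i).FixV E) → X.Bs l E) → X.Cl l G F
  | good (G : Type) [Group G] (F : Subgroup G → Prop) :
      (∀ (H : Subgroup G) (n : ℕ), VN.ProjStFree (H × ZN n)) → X.Cl 3 G F
  | tree (l : ℕ) (G : Type) [Group G] (F : Subgroup G → Prop) (t : TreeOn G) :
      (∀ v : t.V, X.Cl l (MulAction.stabilizer G v)
        fun E => F (E.map (MulAction.stabilizer G v).subtype)) →
      X.Cl (min l 2) G (fun E => F E ∧ t.FixS E) → X.Cl l G F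
  | colim (l : ℕ) (G : Type) [Group G] (F : Subgroup G → Prop) (H : Finset G → Type)
      [∀ s, Group (H s)] (f : ∀ s, H s →* G) (i : ∀ s, G → H s) :
      (∀ s, (∀ a ∈ s, f s (i s a) = a) ∧ ∀ a ∈ s, ∀ b ∈ s, a * b ∈ s →
        i s a * i s b = i s (a * b)) →
      (∀ s, X.Cl l (H s) fun E => F (E.map (f s))) → X.Cl l G F
  | lift (l : ℕ) (G : Type) [Group G] (F : Subgroup G → Prop) (H : Type) [Group H] (f : H →* G)
      (F' : Subgroup H → Prop) (J : Type) [Finite J] (τ : J → BTree H) : (3 ≤ l → IsEmpty J) →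
      (∀ v, X.KerOK l f (stabV τ v)) → (∀ E, F' E → F (E.map f)) → X.Cl l G F → X.Cl l H F'
  | prod (l : ℕ) (G A : Type) [Group G] [Group A] (F : Subgroup G → Prop) (F' : Subgroup A → Prop) :
      l ≤ 1 → X.Cl l G F → X.Cl 0 A F' →
      X.Cl l (G × A) fun E => F (E.map (MonoidHom.fst G A)) ∧ F' (E.map (MonoidHom.snd G A))
  | mono (l : ℕ) (G : Type) [Group G] (F : Subgroup G → Prop) : X.Cl l G F → X.Cl (l + 1) G F

/-! ## Statements -/

/-- Module M5a. -/
def StRelBase (X : Cls) : Prop :=
  ∀ (l : ℕ) (G : Type) [Group G] (F : Subgroup G → Prop) (I : Type) [Finite I] (u : I → BTree G),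
    (∀ E : Subgroup G, F E → (∀ i, (u i).FixV E) → X.Bs l E) → X.LStar l G F

/-- Module M5b. -/
def StRelTree (X : Cls) : Prop :=
  ∀ (l : ℕ) (G : Type) [Group G] (F : Subgroup G → Prop) (t : TreeOn G),
    (∀ v : t.V, X.LStar l (MulAction.stabilizer G v)
      fun E => F (E.map (MulAction.stabilizer G v).subtype)) →
    X.LStar (min l 2) G (fun E => F E ∧ t.FixS E) → X.LStar l G F

/-- Module M5c. -/
def StRelColim (X : Cls) : Prop :=
  ∀ (l : ℕ) (G : Type) [Group G] (F : Subgroup G → Prop),
    (∀ s : Finset G, ∃ (H : Type) (_ : Group H) (f : H →* G) (i : G → H),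
      (∀ a ∈ s, f (i a) = a) ∧ (∀ a ∈ s, ∀ b ∈ s, a * b ∈ s → i a * i b = i (a * b)) ∧
        X.LStar l H fun E => F (E.map f)) → X.LStar l G F

/-- Module M6. -/
def StCl (X : Cls) : Prop :=
  ∀ (l : ℕ) (G : Type) [Group G] (F : Subgroup G → Prop), X.Cl l G F → X.LStar 3 G F

end Pool.Agent.Lib.MP_551055_al.RI
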