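import Mathlib

/-!
# Relative inheritance, module M7: linear factors

`G` is a finitely generated torsion-free group with homomorphisms to `SL₂(K)`, `GL₂(R)` and `A` with
trivial common kernel. There are finitely many trees such that the subgroups `E` fixing a vertex of
every tree are controlled by their images in `A`.
-/

set_option autoImplicit false

namespace Pool.Agent.Lib.MP_551055_al
end Pool.Agent.Lib.MP_551055_al

namespace Pool.Agent.Lib.MP_551055_al.LS
end Pool.Agent.Lib.MP_551055_al.LS

namespace Pool.Agent.Lib.MP_551055_al.BT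
end Pool.Agent.Lib.MP_551055_al.BT

namespace Pool.Agent.Lib.MP_551055_al.RI.Lin

open Pool.Agent.Lib.MP_551055_al

open Pool.Agent.Lib.MP_551055_al.LS

open Pool.Agent.Lib.MP_551055_al.BT

/-! ## Poly-`ℤ` groups -/

theorem isOfFinOrder_of_coe {S : Type} [Group S] {H : Subgroup S} {g : H}
    (h : IsOfFinOrder g) : IsOfFinOrder (g : S) := MonoidHom.isOfFinOrder H.subtype h

/-- Characters on a finitely generated group with a homomorphism with commutative image. -/
theorem exists_chars {K M : Type} [Group K] [hK : Group.FG K] [Group M] (ρ : K →* M)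
    (hc : ∀ a b, ρ a * ρ b = ρ b * ρ a) :
    ∃ (J : Type) (_ : Finite J) (χ : J → K →* Multiplicative ℤ), ∀ γ, (∀ j, χ j γ = 1) →
      IsOfFinOrder (ρ γ) := by
  let i : CommGroup ρ.range :=
    { (inferInstance : Group ρ.range) with
      mul_comm := by
        rintro ⟨_, a, rfl⟩ ⟨_, b, rfl⟩
        exact Subtype.ext (hc a b) }
  have hfg : Group.FG ρ.range := Group.fg_of_surjective ρ.rangeRestrict_surjective
  obtain ⟨ι, j, _, _, p, hp, e, ⟨E⟩⟩ := CommGroup.equiv_free_prod_prod_multiplicative_zmod ρ.range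
  refine ⟨j, inferInstance, fun i : j => (Pi.evalMonoidHom _ i).comp
    ((MonoidHom.fst _ _).comp (E.toMonoidHom.comp ρ.rangeRestrict)), fun g hg => ?_⟩
  have hne : ∀ i, NeZero (p i ^ e i) := fun i => ⟨pow_ne_zero _ (hp i).ne_zero⟩
  have h1 : (E (ρ.rangeRestrict g)).1 = 1 := funext hg
  have hfin : Finite ((i : ι) → Multiplicative (ZMod (p i ^ e i))) := by
    have : ∀ i, Finite (Multiplicative (ZMod (p i ^ e i))) := fun i =>
      inferInstanceAs (Finite (ZMod (p i ^ e i)))
    infer_instance
  obtain ⟨n, hn, h2⟩ := isOfFinOrder_iff_pow_eq_one.1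
    (isOfFinOrder_of_finite (E (ρ.rangeRestrict g)).2)
  have h3 : ρ.rangeRestrict g ^ n = 1 := by
    refine E.injective ?_
    rw [map_pow, map_one]
    exact Prod.ext (by rw [Prod.pow_fst, h1, one_pow]; rfl) (by rw [Prod.pow_snd, h2]; rfl)
  exact isOfFinOrder_iff_pow_eq_one.2 ⟨n, hn, congrArg Subtype.val h3⟩

/-! ## Level one -/

section

end

/-! ## Level zero -/

end Pool.Agent.Lib.MP_551055_al.RI.Lin
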