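import Mathlib
import Pool.Agent.Lib.MP_551055_al.Trim.LS.PStmts
import Pool.Agent.Lib.MP_551055_al.Trim.LS.Stmts
import Pool.Agent.Lib.MP_551055_al.Trim.MT.K1
import Pool.Agent.Lib.MP_551055_al.Trim.MT.RCU
import Pool.Agent.Lib.MP_551055_al.Trim.MT.StA
import Pool.Agent.Lib.MP_551055_al.Trim.MT.StC
import Pool.Agent.Lib.MP_551055_al.Trim.PT.PSub
import Pool.Agent.Lib.MP_551055_al.Trim.RI.Stmts

/-!
# Relative inheritance: locally poly-`ℤ` groups and levels
-/

set_option autoImplicit false

namespace Pool.Agent.Lib.MP_551055_al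
end Pool.Agent.Lib.MP_551055_al

namespace Pool.Agent.Lib.MP_551055_al.LS
end Pool.Agent.Lib.MP_551055_al.LS

namespace Pool.Agent.Lib.MP_551055_al.LO
end Pool.Agent.Lib.MP_551055_al.LO

namespace Pool.Agent.Lib.MP_551055_al.T4
end Pool.Agent.Lib.MP_551055_al.T4

namespace Pool.Agent.Lib.MP_551055_al.RI

open Pool.Agent.Lib.MP_551055_al

open Pool.Agent.Lib.MP_551055_al.LS

open Pool.Agent.Lib.MP_551055_al.LO

open Pool.Agent.Lib.MP_551055_al.T4

/-! ## Locally poly-`ℤ` groups -/

theorem polyZ_prod (A : Type) [Group A] (hA : PolyZ A) (B : Type) [Group B] (hB : PolyZ B) :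
    PolyZ (A × B) := by
  induction hA with
  | triv A hA =>
    refine PT.PSub.of_injective B hB (A × B) (MonoidHom.snd A B) ?_
    rintro ⟨a, b⟩ ⟨a', b'⟩ h
    exact Prod.ext (Subsingleton.elim _ _) h
  | ext A f hf hk ih =>
    refine PolyZ.ext (A × B) (f.comp (MonoidHom.fst A B)) ?_ ?_
    · intro z
      obtain ⟨a, ha⟩ := hf z
      exact ⟨(a, 1), ha⟩
    · refine PT.PSub.of_injective (f.ker × B) ih _
        ((((MonoidHom.fst A B).comp (f.comp (MonoidHom.fst A B)).ker.subtype).codRestrict f.ker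
          (fun x => x.2)).prod ((MonoidHom.snd A B).comp
            (f.comp (MonoidHom.fst A B)).ker.subtype)) ?_
      rintro ⟨⟨a, b⟩, hx⟩ ⟨⟨a', b'⟩, hx'⟩ h
      have h1 := congrArg Prod.fst h
      have h2 := congrArg Prod.snd h
      apply Subtype.ext
      exact Prod.ext (congrArg Subtype.val h1) h2

theorem LPZ.of_polyZ {P : Type} [Group P] (h : PolyZ P) : LPZ P := fun _ =>
  ⟨⊤, fun _ _ => Subgroup.mem_top _, PT.PSub.of_injective P h _ (⊤ : Subgroup P).subtype
    Subtype.val_injective⟩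

theorem LPZ.of_injective {P Q : Type} [Group P] [Group Q] (h : LPZ P) (i : Q →* P)
    (hi : Function.Injective i) : LPZ Q := by
  classical
  intro s
  obtain ⟨K, hsK, hK⟩ := h (s.image i)
  refine ⟨K.comap i, fun x hx => hsK (by
    rw [Finset.coe_image]
    exact ⟨x, hx, rfl⟩), ?_⟩
  refine PT.PSub.of_injective K hK _ ((i.comp (K.comap i).subtype).codRestrict K fun x => x.2) ?_
  intro x y hxy
  exact Subtype.ext (hi (congrArg Subtype.val hxy))

theorem LPZ.prod {P Q : Type} [Group P] [Group Q] (hP : LPZ P) (hQ : LPZ Q) : LPZ (P × Q) := by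
  classical
  intro s
  obtain ⟨K, hsK, hK⟩ := hP (s.image Prod.fst)
  obtain ⟨L, hsL, hL⟩ := hQ (s.image Prod.snd)
  refine ⟨K.prod L, fun x hx => ⟨hsK (by
    rw [Finset.coe_image]
    exact ⟨x, hx, rfl⟩), hsL (by
    rw [Finset.coe_image]
    exact ⟨x, hx, rfl⟩)⟩, ?_⟩
  exact PT.PSub.of_injective _ (polyZ_prod K hK L hL) _ (K.prodEquiv L).toMonoidHom
    (K.prodEquiv L).injective

theorem LPZ.of_subsingleton {P : Type} [Group P] (h : Subsingleton P) : LPZ P :=
  LPZ.of_polyZ (PolyZ.triv _ h)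

/-- Extensions of poly-`ℤ` groups. -/
theorem polyZ_ext : ∀ (Q : Type) [Group Q], PolyZ Q → ∀ (G : Type) [Group G] (f : G →* Q),
    PolyZ f.ker → PolyZ G := by
  intro Q _ hQ
  induction hQ with
  | triv Q hs =>
    intro G _ f hf
    exact PT.PSub.of_injective f.ker hf G
      ((MonoidHom.id G).codRestrict f.ker fun x => Subsingleton.elim _ _)
      fun x y h => congrArg Subtype.val h
  | ext Q q hq hk ih =>
    intro G _ f hf
    by_cases h : ∃ g, q (f g) ≠ 1
    · obtain ⟨g', hg', hker⟩ := PT.PSub.exists_surj (q.comp f) h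
      refine PolyZ.ext G g' hg' ?_
      have hm : ∀ x : g'.ker, (f.comp g'.ker.subtype) x ∈ q.ker := by
        intro x
        have h1 : (x : G) ∈ (q.comp f).ker := by rw [← hker]; exact x.2
        exact h1
      refine ih g'.ker ((f.comp g'.ker.subtype).codRestrict q.ker hm) ?_
      refine PT.PSub.of_injective f.ker hf _
        ((g'.ker.subtype.comp (Subgroup.subtype _)).codRestrict f.ker fun x => ?_) ?_
      · exact congrArg Subtype.val x.2
      · intro x y hxy
        have h1 : ((x : g'.ker) : G) = ((y : g'.ker) : G) := congrArg (fun z : f.ker => (z : G)) hxy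
        exact Subtype.ext (Subtype.ext h1)
    · push Not at h
      refine ih G (f.codRestrict q.ker h) ?_
      refine PT.PSub.of_injective f.ker hf _ ((Subgroup.subtype _).codRestrict f.ker fun x => ?_) ?_
      · exact congrArg Subtype.val x.2
      · intro x y hxy
        have h1 : (x : G) = (y : G) := congrArg (fun z : f.ker => (z : G)) hxy
        exact Subtype.ext h1

/-- The kernel of a restriction. -/
theorem polyZ_ker_restrict {R Q : Type} [Group R] [Group Q] (g : R →* Q) (hk : PolyZ g.ker)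
    {K : Type} [Group K] (i : K →* R) (hi : Function.Injective i) {Q' : Type} [Group Q']
    (g' : K →* Q') (h : ∀ x, g' x = 1 → g (i x) = 1) : PolyZ g'.ker := by
  refine PT.PSub.of_injective g.ker hk _ ((i.comp g'.ker.subtype).codRestrict g.ker
    fun x => h x x.2) ?_
  intro x y hxy
  have h1 : i x = i y := congrArg (fun z : g.ker => (z : R)) hxy
  exact Subtype.ext (hi h1)

/-- Extensions of locally poly-`ℤ` groups with poly-`ℤ` kernel. -/
theorem LPZ.ext {R Q : Type} [Group R] [Group Q] (hQ : LPZ Q) (g : R →* Q) (hk : PolyZ g.ker) :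
    LPZ R := by
  classical
  intro s
  obtain ⟨K, hsK, hK⟩ := hQ (s.image g)
  refine ⟨K.comap g, fun x hx => hsK (by
    rw [Finset.coe_image]
    exact ⟨x, hx, rfl⟩), ?_⟩
  let g' : K.comap g →* K := (g.comp (K.comap g).subtype).codRestrict K fun x => x.2
  exact polyZ_ext K hK _ g' (polyZ_ker_restrict g hk (K.comap g).subtype Subtype.val_injective g'
    fun x hx => congrArg Subtype.val hx)

/-! ## Restriction of trees -/

theorem TreeOn.fixS_res {G : Type} [Group G] (t : TreeOn G) {K : Type} [Group K] (f : K →* G)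
    (E : Subgroup K) : (t.res f).FixS E ↔ t.FixS (E.map f) := by
  constructor
  · rintro ⟨u, v, huv, hne, h⟩
    refine ⟨u, v, huv, hne, ?_⟩
    rintro _ ⟨x, hx, rfl⟩
    exact h x hx
  · rintro ⟨u, v, huv, hne, h⟩
    exact ⟨u, v, huv, hne, fun x hx => h (f x) ⟨x, hx, rfl⟩⟩

/-- The tree with one vertex. -/
def BTree.pt (G : Type) [Group G] : BTree G where
  V := PUnit
  act := { smul := fun _ v => v, one_smul := fun _ => rfl, mul_smul := fun _ _ _ => rfl }
  T := ⊥
  tree :=
    letI : MulAction G PUnit :=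
      { smul := fun _ v => v, one_smul := fun _ => rfl, mul_smul := fun _ _ _ => rfl }
    { tree := ⟨⟨fun _ _ => by rfl⟩, by
        intro v c hc
        cases c with
        | nil => exact hc.ne_nil rfl
        | cons h _ => exact h.elim⟩
      adj := fun _ u v h => h.elim
      inv := fun _ u v h => h.elim }

/-! ## Groups acting on a tree with poly-`ℤ` vertex stabilisers -/

theorem T1.of_tree {P : Type} [Group P] (t : BTree P)
    (h : ∀ v : t.V, PolyZ (MulAction.stabilizer P v)) : T1 P := by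
  intro s
  refine ⟨⊤, t.res (⊤ : Subgroup P).subtype, fun _ _ => Subgroup.mem_top _, fun v => ?_⟩
  refine PT.PSub.of_injective _ (h v) _
    (((⊤ : Subgroup P).subtype.comp (MulAction.stabilizer _ v).subtype).codRestrict
      (MulAction.stabilizer P (show t.V from v)) fun x => x.2) ?_
  intro x y hxy
  have h1 : (x.1.1 : P) = y.1.1 :=
    congrArg (fun z : MulAction.stabilizer P (show t.V from v) => (z : P)) hxy
  exact Subtype.ext (Subtype.ext h1)

theorem T1.of_injective {P Q : Type} [Group P] [Group Q] (h : T1 P) (i : Q →* P)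
    (hi : Function.Injective i) : T1 Q := by
  classical
  intro s
  obtain ⟨K, t, hsK, hK⟩ := h (s.image i)
  let j : K.comap i →* K := (i.comp (K.comap i).subtype).codRestrict K fun x => x.2
  refine ⟨K.comap i, t.res j, fun x hx => hsK (by
    rw [Finset.coe_image]
    exact ⟨x, hx, rfl⟩), fun v => ?_⟩
  refine PT.PSub.of_injective _ (hK v) _ ((j.comp (MulAction.stabilizer _ v).subtype).codRestrict
    (MulAction.stabilizer K (show t.V from v)) fun x => x.2) ?_
  intro x y hxy
  have h1 : j x.1 = j y.1 := congrArg Subtype.val hxy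
  exact Subtype.ext (Subtype.ext (hi (congrArg Subtype.val h1)))

theorem LPZ.t1 {P : Type} [Group P] (h : LPZ P) : T1 P := by
  intro s
  obtain ⟨K, hsK, hK⟩ := h s
  exact ⟨K, BTree.pt K, hsK, fun v =>
    PT.PSub.of_injective K hK _ (MulAction.stabilizer K v).subtype Subtype.val_injective⟩

theorem T1.prod {P Q : Type} [Group P] [Group Q] (hP : T1 P) (hQ : LPZ Q) : T1 (P × Q) := by
  classical
  intro s
  obtain ⟨K, t, hsK, hK⟩ := hP (s.image Prod.fst)
  obtain ⟨L, hsL, hL⟩ := hQ (s.image Prod.snd)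
  let j : K.prod L →* K := ((MonoidHom.fst P Q).comp (K.prod L).subtype).codRestrict K
    fun x => x.2.1
  let j' : K.prod L →* L := ((MonoidHom.snd P Q).comp (K.prod L).subtype).codRestrict L
    fun x => x.2.2
  refine ⟨K.prod L, t.res j, fun x hx => ⟨hsK (by
    rw [Finset.coe_image]
    exact ⟨x, hx, rfl⟩), hsL (by
    rw [Finset.coe_image]
    exact ⟨x, hx, rfl⟩)⟩, fun v => ?_⟩
  refine PT.PSub.of_injective _ (polyZ_prod _ (hK v) L hL) _
    (((j.comp (MulAction.stabilizer _ v).subtype).codRestrict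
    (MulAction.stabilizer K (show t.V from v)) fun x => x.2).prod
      (j'.comp (MulAction.stabilizer _ v).subtype)) ?_
  intro x y hxy
  have h1 : (x.1.1.1 : P) = y.1.1.1 :=
    congrArg (fun z => ((z.1 : MulAction.stabilizer K (show t.V from v)).1 : P)) hxy
  have h2 : (x.1.1.2 : Q) = y.1.1.2 := congrArg (fun z => (z.2 : Q)) hxy
  exact Subtype.ext (Subtype.ext (Prod.ext h1 h2))

/-- Extensions with poly-`ℤ` kernel. -/
theorem T1.ext {R Q : Type} [Group R] [Group Q] (hQ : T1 Q) (g : R →* Q) (hk : PolyZ g.ker) :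
    T1 R := by
  classical
  intro s
  obtain ⟨K, t, hsK, hK⟩ := hQ (s.image g)
  let g' : K.comap g →* K := (g.comp (K.comap g).subtype).codRestrict K fun x => x.2
  refine ⟨K.comap g, t.res g', fun x hx => hsK (by
    rw [Finset.coe_image]
    exact ⟨x, hx, rfl⟩), fun v => ?_⟩
  obtain ⟨S, hS⟩ : ∃ S : Subgroup (K.comap g), S = MulAction.stabilizer (K.comap g) v := ⟨_, rfl⟩
  rw [← hS]
  have hS' : ∀ x : S, g' x ∈ MulAction.stabilizer K (show t.V from v) := by
    rw [hS]
    exact fun x => x.2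
  let g'' : S →* MulAction.stabilizer K (show t.V from v) := (g'.comp S.subtype).codRestrict _ hS'
  refine polyZ_ext _ (hK v) S g'' (polyZ_ker_restrict g hk ((K.comap g).subtype.comp S.subtype)
    (Subtype.val_injective.comp Subtype.val_injective) g'' fun x hx => ?_)
  have h1 : g' x = 1 := congrArg Subtype.val hx
  exact congrArg Subtype.val h1

theorem T1.rcs (hT : MT.StRCT2) (hU : MT.StRCU) {P : Type} [Group P] (h : T1 P) : MT.RCs P :=
  hU P fun s => by
    obtain ⟨K, t, hsK, hK⟩ := h s
    exact ⟨K, hsK, hT K t.V t.T t.tree hK⟩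

/-! ## Classes -/

section

variable {X : Cls} (hX : X.Ok)

include hX

theorem B1.inj {P Q : Type} [Group P] [Group Q] (i : Q →* P) (hi : Function.Injective i)
    (h : X.B1 P) : X.B1 Q := by
  intro R A _ _ g hA hN
  refine h R A ((i.prodMap (MonoidHom.id A)).comp g) hA ?_
  refine hX.N_inj (((Subgroup.subtype _).codRestrict g.ker fun x => ?_)) ?_ hN
  · have h1 : ((i.prodMap (MonoidHom.id A)).comp g) x = 1 := x.2
    have h2 : i (g x).1 = 1 := congrArg Prod.fst h1
    have h3 : (g x).2 = 1 := congrArg Prod.snd h1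
    exact Prod.ext (hi (h2.trans (map_one i).symm)) h3
  · exact fun x y hxy => Subtype.ext (congrArg (fun z : g.ker => (z : R)) hxy)

theorem B1.ext {P Q : Type} [Group P] [Group Q] (f : P →* Q) (hk : X.N f.ker)
    (h : X.B1 Q) : X.B1 P := by
  intro R A _ _ g hA hN
  refine h R A ((f.prodMap (MonoidHom.id A)).comp g) hA ?_
  let k : ((f.prodMap (MonoidHom.id A)).comp g).ker →* f.ker :=
    ((MonoidHom.fst P A).comp (g.comp (Subgroup.subtype _))).codRestrict f.ker
      fun x => congrArg Prod.fst (show ((f.prodMap (MonoidHom.id A)).comp g) x = 1 from x.2)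
  refine hX.N_ext k hk ?_
  refine hX.N_inj (((Subgroup.subtype _).comp (Subgroup.subtype k.ker)).codRestrict g.ker
    fun x => ?_) ?_ hN
  · have h1 : ((f.prodMap (MonoidHom.id A)).comp g) x.1 = 1 := x.1.2
    have h2 : (g x.1).2 = 1 := congrArg Prod.snd h1
    have h3 : (g x.1).1 = 1 := congrArg Subtype.val (show k x.1 = 1 from x.2)
    exact Prod.ext h3 h2
  · intro x y hxy
    have h1 : ((x : ((f.prodMap (MonoidHom.id A)).comp g).ker) : R) = y :=
      congrArg (fun z : g.ker => (z : R)) hxy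
    exact Subtype.ext (Subtype.ext h1)

theorem B1.prod {P Q : Type} [Group P] [Group Q] (hP : X.B1 P) (hQ : X.E Q) : X.B1 (P × Q) := by
  intro R A _ _ g hA hN
  let e : (P × Q) × A →* P × (Q × A) := (MulEquiv.prodAssoc (M := P) (N := Q) (P := A)).toMonoidHom
  have he : Function.Injective e := (MulEquiv.prodAssoc (M := P) (N := Q) (P := A)).injective
  refine hP R (Q × A) (e.comp g) (hX.E_prod hQ hA) ?_
  refine hX.N_inj ((Subgroup.subtype _).codRestrict g.ker fun x => ?_) ?_ hN
  · have h1 : e (g x) = 1 := x.2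
    exact he (h1.trans (map_one e).symm)
  · exact fun x y hxy => Subtype.ext (congrArg (fun z : g.ker => (z : R)) hxy)

theorem e_b1 {P : Type} [Group P] (h : X.E P) : X.B1 P := fun _ _ _ _ g hA hN =>
  hX.E_B (hX.E_ext g (hX.E_prod h hA) hN)

theorem B1.b {P : Type} [Group P] (h : X.B1 P) : X.B P := by
  refine h P PUnit (MonoidHom.inl P PUnit) (hX.E_triv inferInstance) (hX.N_triv ⟨fun x y => ?_⟩)
  have h1 : (x : P) = 1 := congrArg Prod.fst (show MonoidHom.inl P PUnit x = 1 from x.2)
  have h2 : (y : P) = 1 := congrArg Prod.fst (show MonoidHom.inl P PUnit y = 1 from y.2)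
  exact Subtype.ext (h1.trans h2.symm)

end

/-! ## Homomorphisms -/

section

variable {X : Cls}

theorem Cls.Rl.comp {l : ℕ} {E E' G : Type} [Group E] [Group E'] [Group G] {f : E' →* G}
    (h : X.Rl l f) (e : E →* E') (he : Function.Injective e) : X.Rl l (f.comp e) := by
  have he' : ∀ {C P : Type} [Group C] [Group P] (a : C →* E) (b : C →* P),
      (∀ c, a c = 1 → b c = 1 → c = 1) → ∀ c, (e.comp a) c = 1 → b c = 1 → c = 1 := by
    intro C P _ _ a b h1 c h2 h3
    exact h1 c (he (by rw [map_one]; exact h2)) h3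
  obtain _ | _ | l := l
  · exact fun C P _ _ a b h1 h2 => h C P (e.comp a) b h1 (he' a b h2)
  · exact fun C P _ _ a b h1 h2 => h C P (e.comp a) b h1 (he' a b h2)
  · exact (show Function.Injective f from h).comp he

theorem Cls.Rl.ker {l : ℕ} {E G G' : Type} [Group E] [Group G] [Group G'] {f : E →* G} {f' : E →* G'}
    (h : X.Rl l f) (hk : ∀ x, f' x = 1 → f x = 1) : X.Rl l f' := by
  obtain _ | _ | l := l
  · exact fun C P _ _ a b h1 h2 => h C P a b (fun c hc => hk _ (h1 c hc)) h2
  · exact fun C P _ _ a b h1 h2 => h C P a b (fun c hc => hk _ (h1 c hc)) h2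
  · exact (injective_iff_map_eq_one f').2 fun x hx => (injective_iff_map_eq_one f).1 h x (hk x hx)

theorem Cls.Rl.of_inj {l : ℕ} {E G G' : Type} [Group E] [Group G] [Group G'] {f : E →* G}
    (i : G →* G') (h : X.Rl l (i.comp f)) : X.Rl l f :=
  h.ker fun x hx => by
    change i (f x) = 1
    rw [hx, map_one]

theorem rl_of_injective (hX : X.Ok) (l : ℕ) {E G : Type} [Group E] [Group G] {f : E →* G}
    (hf : Function.Injective f) : X.Rl l f := by
  have key : ∀ (C P : Type) [Group C] [Group P] (a : C →* E) (b : C →* P),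
      (∀ c, b c = 1 → f (a c) = 1) → (∀ c, a c = 1 → b c = 1 → c = 1) →
        Function.Injective b := by
    intro C P _ _ a b h1 h2
    rw [injective_iff_map_eq_one]
    intro c hc
    exact h2 c ((injective_iff_map_eq_one f).1 hf _ (h1 c hc)) hc
  obtain _ | _ | l := l
  · exact fun C P _ _ a b h1 h2 h3 => e_b1 hX (hX.E_inj b (key C P a b h1 h2) h3)
  · exact fun C P _ _ a b h1 h2 => ⟨fun h3 => hX.E_inj b (key C P a b h1 h2) h3,
      fun h3 => B1.inj hX b (key C P a b h1 h2) h3⟩
  · exact hf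

theorem Cls.Rl.succ (hX : X.Ok) {l : ℕ} {E G : Type} [Group E] [Group G] {f : E →* G}
    (h : X.Rl (l + 1) f) : X.Rl l f := by
  obtain _ | _ | l := l
  · exact fun C P _ _ a b h1 h2 h3 => e_b1 hX ((h C P a b h1 h2).1 h3)
  · exact rl_of_injective hX 1 h
  · exact h

theorem Cls.Rl.mono (hX : X.Ok) {l m : ℕ} (hlm : l ≤ m) {E G : Type} [Group E] [Group G] {f : E →* G}
    (h : X.Rl m f) : X.Rl l f := by
  induction m, hlm using Nat.le_induction with
  | base => exact h
  | succ m _ ih => exact ih (h.succ hX)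

/-- Composition with a homomorphism whose kernel is harmless. -/
theorem Cls.Rl.kerOK (hX : X.Ok) {l : ℕ} {E' H G : Type} [Group E'] [Group H] [Group G] {h : E' →* H}
    (hh : X.Rl l h) {f : H →* G} {E : Subgroup H} (hE : X.KerOK l f E) (hm : ∀ x, h x ∈ E) :
    X.Rl l (f.comp h) := by
  rcases hE with hE | ⟨hl, P, _, p, hP, hk⟩
  · exact hh.ker fun x hx => hE _ (hm x) hx
  · let h' : E' →* E := h.codRestrict E hm
    have key : ∀ (C P' : Type) [Group C] [Group P'] (a : C →* E') (b : C →* P'),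
        (∀ c, b c = 1 → f (h (a c)) = 1) → (∀ c, a c = 1 → b c = 1 → c = 1) →
        ∃ (R : Type) (_ : Group R) (b' : C →* R) (g : R →* P' × P), X.N g.ker ∧
          (∀ c, b' c = 1 → h (a c) = 1) ∧ ∀ c, a c = 1 → b' c = 1 → c = 1 := by
      intro C P' _ _ a b h1 h2
      let b' := ((h'.comp a).prod b).rangeRestrict
      let g : ((h'.comp a).prod b).range →* P' × P :=
        ((MonoidHom.snd E P').comp (Subgroup.subtype _)).prod
          ((p.comp (MonoidHom.fst E P')).comp (Subgroup.subtype _))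
      refine ⟨_, inferInstance, b', g, ?_, fun c hc => ?_, fun c hc hc' => ?_⟩
      · refine hX.N_inj (((MonoidHom.fst E P').comp
          ((Subgroup.subtype _).comp g.ker.subtype)).codRestrict _ ?_) ?_ hk
        · rintro ⟨⟨x, hx⟩, hx'⟩
          obtain ⟨c, rfl⟩ := hx
          have h3 : b c = 1 := congrArg Prod.fst hx'
          have h4 : p (h' (a c)) = 1 := congrArg Prod.snd hx'
          exact Prod.ext (h1 c h3) h4
        · rintro ⟨⟨x, hx⟩, hx'⟩ ⟨⟨y, hy⟩, hy'⟩ hxy
          have h3 : x.1 = y.1 := congrArg Subtype.val hxy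
          have h4 : x.2 = 1 := congrArg Prod.fst hx'
          have h5 : y.2 = 1 := congrArg Prod.fst hy'
          exact Subtype.ext (Subtype.ext (Prod.ext h3 (h4.trans h5.symm)))
      · have h3 : (h' (a c), b c) = (1 : E × P') := congrArg Subtype.val hc
        exact congrArg Subtype.val (congrArg Prod.fst h3)
      · have h3 : (h' (a c), b c) = (1 : E × P') := congrArg Subtype.val hc'
        exact h2 c hc (congrArg Prod.snd h3)
    obtain _ | _ | l := l
    · intro C P' _ _ a b h1 h2 h3
      obtain ⟨R, _, b', g, h4, h5, h6⟩ := key C P' a b h1 h2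
      exact hh C R a b' h5 h6 (hX.E_ext g (hX.E_prod h3 hP) h4)
    · intro C P' _ _ a b h1 h2
      obtain ⟨R, _, b', g, h4, h5, h6⟩ := key C P' a b h1 h2
      exact ⟨fun h3 => (hh C R a b' h5 h6).1 (hX.E_ext g (hX.E_prod h3 hP) h4),
        fun h3 => (hh C R a b' h5 h6).2 (B1.ext hX g h4 (B1.prod hX h3 hP))⟩
    · omega

end

end Pool.Agent.Lib.MP_551055_al.RI
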