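import Mathlib
import Pool.Agent.Lib.MP_551055_al.Trim.Descent
import Pool.Agent.Lib.MP_551055_al.Trim.LS.BassVert
import Pool.Agent.Lib.MP_551055_al.Trim.LS.Pos
import Pool.Agent.Lib.MP_551055_al.Trim.LS.Stmts
import Pool.Agent.Lib.MP_551055_al.Trim.Matrices
import Pool.Agent.Lib.MP_551055_al.Trim.OneRelation
import Pool.Agent.Lib.MP_551055_al.Trim.Red.Res
import Pool.Agent.Lib.MP_551055_al.Trim.VNDefs
import Pool.Agent.Lib.MP_551055_al.Trim.VNFinal

/-!
# The Bass class and homomorphisms of groups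

Invertible matrices over `ℤ[H × ℤ]`, where all finitely generated projective `ℤ[H]`-modules are
stably free, give maps in the Bass class over `ℤ[G × ℤ]` for every homomorphism `H → G`.
-/

set_option autoImplicit false

set_option linter.unusedSectionVars false

namespace Pool.Agent.Lib.MP_551055_al
end Pool.Agent.Lib.MP_551055_al

namespace Pool.Agent.Lib.MP_551055_al.LS
end Pool.Agent.Lib.MP_551055_al.LS

namespace Pool.Agent.Lib.MP_551055_al.LS.BV
end Pool.Agent.Lib.MP_551055_al.LS.BV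

namespace Pool.Agent.Lib.MP_551055_al.Red
end Pool.Agent.Lib.MP_551055_al.Red

namespace Pool.Agent.Lib.MP_551055_al.RI

open Pool.Agent.Lib.MP_551055_al

open Pool.Agent.Lib.MP_551055_al.LS

open Pool.Agent.Lib.MP_551055_al.LS.BV

open Pool.Agent.Lib.MP_551055_al.Red (res res_coeff resv resv_apply)

open MonoidAlgebra

universe u v

/-- `f × id`. -/
def fz {H : Type v} [Group H] {G : Type u} [Group G] (f : H →* G) :
    H × Multiplicative ℤ →* G × Multiplicative ℤ :=
  MonoidHom.prodMap f (MonoidHom.id (Multiplicative ℤ))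

section

variable {H : Type v} [Group H] {G : Type u} [Group G] (f : H →* G) {ι κ : Type}

theorem co_single (d : ℤ) (p : G × Multiplicative ℤ) (c : ℤ) :
    co d (single p c) = if p.2.toAdd = d then single p.1 c else 0 := by
  classical
  ext g
  rw [co_coeff, coeff_single, Finsupp.single_apply]
  by_cases h : p.2.toAdd = d
  · rw [if_pos h, coeff_single, Finsupp.single_apply]
    have h1 : p = (g, Multiplicative.ofAdd d) ↔ p.1 = g := by
      constructor
      · intro e
        rw [e]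
      · intro e
        refine Prod.ext e ?_
        apply Multiplicative.toAdd.injective
        exact h
    simp only [h1]
  · rw [if_neg h, if_neg]
    · rfl
    · intro e
      apply h
      rw [e]
      rfl

theorem res_single (T : Set G) [DecidablePred (· ∈ T)] (p : G) (c : ℤ) :
    res T (single p c) = if p ∈ T then single p c else 0 := by
  classical
  ext g
  rw [res_coeff, coeff_single, Finsupp.single_apply]
  by_cases h : p ∈ T
  · rw [if_pos h, coeff_single, Finsupp.single_apply]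
    by_cases h1 : p = g
    · subst h1
      rw [if_pos h]
    · rw [if_neg h1, ite_self]
  · rw [if_neg h]
    by_cases h1 : p = g
    · subst h1
      rw [if_neg h]
      rfl
    · rw [if_neg h1, ite_self]
      rfl

theorem co_fz (d : ℤ) (r : MonoidAlgebra ℤ (H × Multiplicative ℤ)) :
    co d (inc ℤ (fz f) r) = inc ℤ f (co d r) := by
  induction r using MonoidAlgebra.induction_linear with
  | zero => simp only [map_zero]
  | add a b ha hb => simp only [map_add, ha, hb]
  | single p c =>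
    rw [inc_single, co_single, co_single]
    change (if p.2.toAdd = d then _ else _) = _
    split_ifs with h
    · rw [inc_single]
      rfl
    · rw [map_zero]

theorem inl_fz (a : MonoidAlgebra ℤ H) :
    inc ℤ (MonoidHom.inl G (Multiplicative ℤ)) (inc ℤ f a) =
      inc ℤ (fz f) (inc ℤ (MonoidHom.inl H (Multiplicative ℤ)) a) := by
  induction a using MonoidAlgebra.induction_linear with
  | zero => simp only [map_zero]
  | add a b ha hb => simp only [map_add, ha, hb]
  | single h c =>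
    rw [inc_single, inc_single, inc_single, inc_single]
    rfl

theorem ic_fz (d : ℤ) (a : MonoidAlgebra ℤ H) : ic d (inc ℤ f a) = inc ℤ (fz f) (ic d a) := by
  change inc ℤ (MonoidHom.inl G (Multiplicative ℤ)) (inc ℤ f a) *
      single (1, Multiplicative.ofAdd d) 1 = inc ℤ (fz f)
        (inc ℤ (MonoidHom.inl H (Multiplicative ℤ)) a * single (1, Multiplicative.ofAdd d) 1)
  rw [map_mul, inl_fz, inc_single]
  congr 2
  refine Prod.ext ?_ rfl
  exact (map_one f).symm

theorem neg_fz (r : MonoidAlgebra ℤ (H × Multiplicative ℤ)) :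
    res {p : G × Multiplicative ℤ | p.2.toAdd < 0} (inc ℤ (fz f) r) =
      inc ℤ (fz f) (res {p : H × Multiplicative ℤ | p.2.toAdd < 0} r) := by
  classical
  induction r using MonoidAlgebra.induction_linear with
  | zero => simp only [map_zero]
  | add a b ha hb => simp only [map_add, ha, hb]
  | single p c =>
    rw [inc_single, res_single, res_single]
    by_cases h : p.2.toAdd < 0
    · rw [if_pos, if_pos, inc_single]
      · exact h
      · exact h
    · rw [if_neg, if_neg, map_zero]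
      · exact h
      · exact h

/-- The image of a vector. -/
noncomputable def fv (y : LV H ι) : LV G ι := fun i => inc ℤ (fz f) (asV y i)

/-- The image of a vector over `ℤ[H]`. -/
noncomputable def fw {n : ℕ} (w : Fin n → MonoidAlgebra ℤ H) : Fin n → MonoidAlgebra ℤ G :=
  fun i => inc ℤ f (w i)

theorem ng_fv (y : LV H ι) : ng ι (fv f y) = fv f (ng ι y) := by
  funext i
  exact neg_fz f (asV y i)

theorem mp_fv [Fintype ι] [Fintype κ] [DecidableEq ι] [DecidableEq κ]
    (A : Matrix ι κ (MonoidAlgebra ℤ (H × Multiplicative ℤ))) (y : LV H ι) :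
    mp (A.map (inc ℤ (fz f))) (fv f y) = fv f (mp A y) := by
  funext k
  change ∑ j, inc ℤ (fz f) (asV y j) * inc ℤ (fz f) (A j k) =
    inc ℤ (fz f) (∑ j, asV y j * A j k)
  rw [map_sum]
  exact Finset.sum_congr rfl fun j _ => (map_mul _ _ _).symm

theorem up_fw {n m : ℕ} (σ : Fin n ≃ κ × Fin m) (N : ℤ) (w : Fin n → MonoidAlgebra ℤ H) :
    up σ N (fw f w) = fv f (up σ N w) := by
  funext j
  change ∑ a : Fin m, ic (N + (a : ℕ)) (inc ℤ f (w (σ.symm (j, a)))) =
    inc ℤ (fz f) (∑ a : Fin m, ic (N + (a : ℕ)) (w (σ.symm (j, a))))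
  rw [map_sum]
  exact Finset.sum_congr rfl fun a _ => ic_fz f _ _

theorem down_fv {n m : ℕ} (σ : Fin n ≃ κ × Fin m) (N : ℤ) (y : LV H κ) :
    down σ N (fv f y) = fw f (down σ N y) := by
  funext i
  exact co_fz f _ _

theorem ee_fw [Fintype ι] [Fintype κ] [DecidableEq ι] [DecidableEq κ]
    (A : Matrix ι κ (MonoidAlgebra ℤ (H × Multiplicative ℤ)))
    (B : Matrix κ ι (MonoidAlgebra ℤ (H × Multiplicative ℤ)))
    {n m : ℕ} (σ : Fin n ≃ κ × Fin m) (N : ℤ) (w : Fin n → MonoidAlgebra ℤ H) :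
    ee (A.map (inc ℤ (fz f))) (B.map (inc ℤ (fz f))) σ N (fw f w) = fw f (ee A B σ N w) := by
  rw [ee_apply, ee_apply, qq_apply, qq_apply, up_fw, mp_fv, ng_fv, mp_fv, down_fv]

end

/-- Module BassMap. -/
theorem bassMap {H : Type v} [Group H] {G : Type u} [Group G] (f : H →* G)
    (hH : VN.ProjStFree H) (ι κ : Type) [Fintype ι] [Fintype κ] [DecidableEq ι] [DecidableEq κ]
    (A₀ : Matrix ι κ (MonoidAlgebra ℤ (H × Multiplicative ℤ)))
    (B₀ : Matrix κ ι (MonoidAlgebra ℤ (H × Multiplicative ℤ)))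
    (hAB₀ : A₀ * B₀ = 1) (hBA₀ : B₀ * A₀ = 1) :
    BG (Matrix.toLinearMapRight' (A₀.map (inc ℤ (fz f)))) := by
  set φ : MonoidAlgebra ℤ (H × Multiplicative ℤ) →+* MonoidAlgebra ℤ (G × Multiplicative ℤ) :=
    inc ℤ (fz f) with hφ
  have hAB : A₀.map φ * B₀.map φ = 1 := by
    rw [← Matrix.map_mul, hAB₀, Matrix.map_one φ (map_zero φ) (map_one φ)]
  have hBA : B₀.map φ * A₀.map φ = 1 := by
    rw [← Matrix.map_mul, hBA₀, Matrix.map_one φ (map_zero φ) (map_one φ)]
  have hdg : ∀ (N : ℤ) (r : MonoidAlgebra ℤ (H × Multiplicative ℤ)), Dg N r → Dg N (φ r) := by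
    intro N r hr p hp
    have h1 : (co p.2.toAdd (φ r)).coeff p.1 ≠ 0 := by
      rw [co_coeff]
      exact hp
    rw [hφ, co_fz] at h1
    have h2 : co p.2.toAdd r ≠ 0 := by
      intro h
      rw [h, map_zero] at h1
      exact h1 rfl
    by_contra hlt
    apply h2
    ext g
    rw [co_coeff]
    by_contra h3
    exact hlt (hr _ h3)
  refine ⟨?_, ?_⟩
  · rw [Function.bijective_iff_has_inverse]
    refine ⟨Matrix.toLinearMapRight' (B₀.map φ), fun y => ?_, fun y => ?_⟩
    · rw [← Matrix.toLinearMapRight'_mul_apply, hAB, Matrix.toLinearMapRight'_one]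
      rfl
    · rw [← Matrix.toLinearMapRight'_mul_apply, hBA, Matrix.toLinearMapRight'_one]
      rfl
  obtain ⟨N, hN0, hNA⟩ := exists_dg A₀
  obtain ⟨M, hM0, hMB⟩ := exists_dg B₀
  let m : ℕ := (-M - N).toNat
  have hm : 0 ≤ N + m + M := by omega
  let σ : Fin (Fintype.card (κ × Fin m)) ≃ κ × Fin m := (Fintype.equivFin _).symm
  -- over `H`
  have hN₀ : (Lat (G := H) 0 ι).map (mp A₀) ≤ Lat (G := H) N κ := by
    rintro _ ⟨x, hx, rfl⟩
    have := mp_mem_lat A₀ hNA hx
    rwa [zero_add] at this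
  have hM₀ : ∀ y ∈ Lat (G := H) (N + m) κ, qq A₀ B₀ y = 0 := by
    intro y hy
    have h1 := mp_mem_lat B₀ hMB hy
    have h2 : mp B₀ y ∈ Lat (G := H) 0 ι := fun j p hp => hm.trans (h1 j p hp)
    rw [qq_apply, ng_of_lat h2, map_zero]
  -- over `G`
  have hN : (Lat (G := G) 0 ι).map (mp (A₀.map φ)) ≤ Lat (G := G) N κ := by
    rintro _ ⟨x, hx, rfl⟩
    have := mp_mem_lat (A₀.map φ) (fun i k => hdg N _ (hNA i k)) hx
    rwa [zero_add] at this
  have hM : ∀ y ∈ Lat (G := G) (N + m) κ, qq (A₀.map φ) (B₀.map φ) y = 0 := by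
    intro y hy
    have h1 := mp_mem_lat (B₀.map φ) (fun i k => hdg M _ (hMB i k)) hy
    have h2 : mp (B₀.map φ) y ∈ Lat (G := G) 0 ι := fun j p hp => hm.trans (h1 j p hp)
    rw [qq_apply, ng_of_lat h2, map_zero]
  obtain ⟨E₀, hE₀⟩ := (Matrix.toLinearMapRight' (R := MonoidAlgebra ℤ H)).surjective
    (ee A₀ B₀ σ N)
  have hEE : E₀ * E₀ = E₀ := by
    apply (Matrix.toLinearMapRight' (R := MonoidAlgebra ℤ H)).injective
    rw [Matrix.toLinearMapRight'_mul, hE₀]
    exact LinearMap.ext fun w => ee_ee A₀ B₀ σ N hAB₀ hBA₀ hN₀ hM₀ w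
  have hst := VN.stFree_range_of_proj hH E₀ hEE
  have hst' := stFree_map (inc ℤ f) E₀ hEE hst
  have hE : Matrix.toLinearMapRight' (E₀.map (inc ℤ f)) =
      ee (A₀.map φ) (B₀.map φ) σ N := by
    refine (Pi.basisFun (MonoidAlgebra ℤ G) (Fin (Fintype.card (κ × Fin m)))).ext fun i => ?_
    have h1 : (Pi.basisFun (MonoidAlgebra ℤ G) (Fin (Fintype.card (κ × Fin m)))) i =
        fw f (Pi.single i 1) := by
      rw [Pi.basisFun_apply]
      funext j
      change (Pi.single i 1 : Fin (Fintype.card (κ × Fin m)) → MonoidAlgebra ℤ G) j =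
        inc ℤ f ((Pi.single i 1 : Fin (Fintype.card (κ × Fin m)) → MonoidAlgebra ℤ H) j)
      by_cases h : j = i
      · subst h
        rw [Pi.single_eq_same, Pi.single_eq_same, map_one]
      · rw [Pi.single_eq_of_ne h, Pi.single_eq_of_ne h, map_zero]
    rw [h1, hφ, ee_fw, ← hE₀]
    funext j
    change Matrix.vecMul (fw f (Pi.single i 1)) (E₀.map (inc ℤ f)) j =
      inc ℤ f (Matrix.vecMul (Pi.single i 1) E₀ j)
    rw [← h1, Pi.basisFun_apply, Matrix.single_one_vecMul, Matrix.single_one_vecMul]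
    rfl
  rw [hE] at hst'
  obtain ⟨Ψ⟩ := exists_equiv (A₀.map φ) (B₀.map φ) σ N hAB hBA hN hM
  exact ⟨N, hN, hst'.congr Ψ.symm⟩

end Pool.Agent.Lib.MP_551055_al.RI
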