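import Mathlib
import Pool.Agent.Lib.MP_551055_al.Trim.LO.Base
import Pool.Agent.Lib.MP_551055_al.Trim.LO.Main
import Pool.Agent.Lib.MP_551055_al.Trim.LO.Nil
import Pool.Agent.Lib.MP_551055_al.Trim.LS.Elim
import Pool.Agent.Lib.MP_551055_al.Trim.LS.K1a
import Pool.Agent.Lib.MP_551055_al.Trim.LS.K1c
import Pool.Agent.Lib.MP_551055_al.Trim.LS.NilE
import Pool.Agent.Lib.MP_551055_al.Trim.LS.Orb
import Pool.Agent.Lib.MP_551055_al.Trim.LS.Pos
import Pool.Agent.Lib.MP_551055_al.Trim.LS.Ray
import Pool.Agent.Lib.MP_551055_al.Trim.LS.RayE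
import Pool.Agent.Lib.MP_551055_al.Trim.LS.Step
import Pool.Agent.Lib.MP_551055_al.Trim.LS.Stmts
import Pool.Agent.Lib.MP_551055_al.Trim.LS.Stmts2
import Pool.Agent.Lib.MP_551055_al.Trim.LS.Stmts3
import Pool.Agent.Lib.MP_551055_al.Trim.LS.TreeB
import Pool.Agent.Lib.MP_551055_al.Trim.T4.OrbT

/-!
# Relative inheritance: matrices supported on one orbit of pairs

As in `T4.OrbT`; the position `a` is allowed if `ℤ[D]`, `D` the stabiliser of `a`, has locally
perfect kernels, or nilpotent matrices supported on `D g D` have class zero for the elements `g`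
which move `a` along `r`.
-/

set_option autoImplicit false

namespace Pool.Agent.Lib.MP_551055_al
end Pool.Agent.Lib.MP_551055_al

namespace Pool.Agent.Lib.MP_551055_al.LS
end Pool.Agent.Lib.MP_551055_al.LS

namespace Pool.Agent.Lib.MP_551055_al.LO
end Pool.Agent.Lib.MP_551055_al.LO

namespace Pool.Agent.Lib.MP_551055_al.T4
end Pool.Agent.Lib.MP_551055_al.T4

namespace Pool.Agent.Lib.MP_551055_al.LS.OrbAux
end Pool.Agent.Lib.MP_551055_al.LS.OrbAux

namespace Pool.Agent.Lib.MP_551055_al.RI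

open Pool.Agent.Lib.MP_551055_al

open Pool.Agent.Lib.MP_551055_al.LS

open Pool.Agent.Lib.MP_551055_al.LO

open Pool.Agent.Lib.MP_551055_al.T4

universe u v

/-- Nilpotent matrices supported on `D g D` have class zero if the decompositions are unique. -/
def NilAt {Γ : Type u} [Group Γ] (K : K1C (ZG Γ)) (D : Subgroup Γ) (g : Γ) : Prop :=
  UR (Γ := Γ) (crel D g) → ∀ (ι : Type) [Fintype ι] [DecidableEq ι]
    (B : Matrix ι ι (ZG Γ)) (k : ℕ), B ^ k = 0 →
    (∀ i l γ, (B i l).coeff γ ≠ 0 → ∃ a ∈ D, ∃ b ∈ D, γ = a * g * b) →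
    K.G (Matrix.toLinearMapRight' (1 + B))

/-- The position `a` is good. -/
def PosGoodH {Γ : Type u} [Group Γ] (K : K1C (ZG Γ)) {X : Type v} [MulAction Γ X]
    (r : X → X → Prop) (a : X) : Prop :=
  LPK (MonoidAlgebra ℤ (MulAction.stabilizer Γ a)) ∨
    ∀ (γ : Γ) (j : ℕ), 1 ≤ j → itr r j a (γ • a) → NilAt K (MulAction.stabilizer Γ a) γ

/-- Matrices supported on one orbit of pairs. -/
def StOrbH : Prop :=
  ∀ (Γ : Type u) [Group Γ] (K : K1C (ZG Γ)), MGood K → ∀ (X : Type v) [MulAction Γ X]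
    (r : X → X → Prop), UR (Γ := Γ) r → ∀ (ι : Type) [Fintype ι] [DecidableEq ι] (p : ι → X)
      (j : ℕ) (B : Matrix ι ι (ZG Γ)) (k : ℕ), 1 ≤ j → B ^ k = 0 → Dg r j p B →
      ∀ x z : X, OrbS p B x z → (∀ i, PosGoodH K r (p i)) →
      K.G (Matrix.toLinearMapRight' (1 + B))

/-- Nilpotent transfers. -/
def StNilEH : Prop :=
  ∀ (Γ : Type u) [Group Γ] (K : K1C (ZG Γ)), MGood K → ∀ (X : Type v) [MulAction Γ X]
    (r : X → X → Prop), UR (Γ := Γ) r → ∀ (ι : Type) [Finite ι] (p : ι → X)
      (ν : Module.End (ZG Γ) (F Γ ι)), IsNilpotent ν → Tr r p p ν → (∀ i, PosGoodH K r (p i)) →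
      K.G ((1 : Module.End (ZG Γ) (F Γ ι)) + ν)

/-- Nilpotent transfers of step one. -/
def StRayEH : Prop :=
  ∀ (Γ : Type u) [Group Γ] (V : Type v) [MulAction Γ V] (T : SimpleGraph V), TreeAct Γ V T →
    ∀ (K : K1C (ZG Γ)), MGood K → ∀ (S : V → V → Prop), Bar T S →
      (∀ u v, S u v → u ≠ v →
        LPK (MonoidAlgebra ℤ (MulAction.stabilizer Γ (v, u))) ∨
        ∀ γ : Γ, Trl T γ u v → NilAt K (MulAction.stabilizer Γ (v, u)) γ) →
      NilGood K T 1

open OrbAux in
/-- Matrices supported on one orbit of pairs. -/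
theorem stOrbH (hNil : StNilL.{u, v}) (hUnip : StUnip.{u}) : StOrbH.{u, v} := by
  classical
  intro Γ _ K hM X _ r hr ι _ _ p j B k hj hBk hD x0 z0 hxz0 hg
  by_cases hB : B = 0
  · rw [hB, add_zero, Matrix.toLinearMapRight'_one]
    exact K_id K ι
  obtain ⟨i0, l0, γ0, h0⟩ : ∃ i l γ, (B i l).coeff γ ≠ 0 := by
    by_contra hne
    push Not at hne
    apply hB
    ext1 i l
    apply MonoidAlgebra.ext
    ext γ
    exact hne i l γ
  obtain ⟨x, hx⟩ : ∃ x, x = p i0 := ⟨_, rfl⟩
  obtain ⟨z, hz⟩ : ∃ z, z = γ0 • p l0 := ⟨_, rfl⟩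
  have hxz : OrbS p B x z := by
    intro i l γ hne
    obtain ⟨h, h1, h2⟩ := hxz0 i l γ hne
    obtain ⟨h', h1', h2'⟩ := hxz0 i0 l0 γ0 h0
    refine ⟨h * h'⁻¹, ?_, ?_⟩
    · rw [hx, h1', smul_smul, inv_mul_cancel_right, h1]
    · rw [hz, h2', smul_smul, inv_mul_cancel_right, h2]
  have hitr : itr r j x z := by
    rw [hx, hz]
    exact hD i0 l0 γ0 h0
  have hgx : PosGoodH K r x := by
    rw [hx]
    exact hg i0
  have hrow : ∀ i l γ, (B i l).coeff γ ≠ 0 → p i ∈ MulAction.orbit Γ x ∧ p l ∈ MulAction.orbit Γ z := by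
    intro i l γ hne
    obtain ⟨h, h1, h2⟩ := hxz i l γ hne
    refine ⟨⟨h, h1.symm⟩, ⟨γ⁻¹ * h, ?_⟩⟩
    change (γ⁻¹ * h) • z = p l
    rw [mul_smul, ← h2, inv_smul_smul]
  have hlin : Matrix.toLinearMapRight' (1 + B) =
      LinearMap.id + Matrix.toLinearMapRight' B := by
    rw [map_add, Matrix.toLinearMapRight'_one]
  by_cases hzo : z ∈ MulAction.orbit Γ x
  swap
  · -- different orbits
    have hdis : ∀ q : X, q ∈ MulAction.orbit Γ x → q ∉ MulAction.orbit Γ z := by
      rintro q ⟨a, ha⟩ ⟨b, hb⟩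
      apply hzo
      refine ⟨b⁻¹ * a, ?_⟩
      change (b⁻¹ * a) • x = z
      have ha' : a • x = q := ha
      have hb' : b • z = q := hb
      rw [mul_smul, ha', ← hb', inv_smul_smul]
    rw [hlin]
    refine hUnip (ZG Γ) K ι (fun i => if p i ∈ MulAction.orbit Γ x then 1 else 0) _ ?_
    intro t y hy l hl
    rw [Matrix.toLinearMapRight'_apply, Matrix.vecMul_eq_sum, Finset.sum_apply]
    refine Finset.sum_eq_zero fun i _ => ?_
    change y i * B i l = 0
    by_cases hBil : B i l = 0
    · rw [hBil, mul_zero]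
    · obtain ⟨γ, hγ⟩ : ∃ γ, (B i l).coeff γ ≠ 0 := by
        by_contra hne
        push Not at hne
        exact hBil (MonoidAlgebra.ext (Finsupp.ext hne))
      obtain ⟨h1, h2⟩ := hrow i l γ hγ
      have h3 : p l ∉ MulAction.orbit Γ x := fun h => hdis _ h h2
      have h4 : t = 0 := by
        rw [if_neg h3] at hl
        omega
      have h5 : y i = 0 := by
        apply hy
        rw [h4, if_pos h1]
      rw [h5, zero_mul]
  · obtain ⟨g, hgz⟩ := hzo
    have hgz' : g • x = z := hgz
    have hrow' : ∀ i l γ, (B i l).coeff γ ≠ 0 →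
        p i ∈ MulAction.orbit Γ x ∧ p l ∈ MulAction.orbit Γ x := by
      intro i l γ hne
      obtain ⟨h1, a, ha⟩ := hrow i l γ hne
      have ha' : a • z = p l := ha
      refine ⟨h1, a * g, ?_⟩
      change (a * g) • x = p l
      rw [mul_smul, hgz', ha']
    -- the diagonal matrix
    have hc : ∀ i, ∃ c : Γ, p i ∈ MulAction.orbit Γ x → p i = c • x := by
      intro i
      by_cases h : p i ∈ MulAction.orbit Γ x
      · obtain ⟨c, hc⟩ := h
        exact ⟨c, fun _ => hc.symm⟩
      · exact ⟨1, fun h' => absurd h' h⟩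
    choose c hc using hc
    let C : Matrix ι ι (ZG Γ) := Matrix.diagonal fun i => MonoidAlgebra.single (c i) 1
    let C' : Matrix ι ι (ZG Γ) := Matrix.diagonal fun i => MonoidAlgebra.single (c i)⁻¹ 1
    have hCC' : C * C' = 1 := by
      rw [Matrix.diagonal_mul_diagonal, ← Matrix.diagonal_one]
      congr 1
      funext i
      rw [MonoidAlgebra.single_mul_single, mul_inv_cancel, mul_one]
      rfl
    have hC'C : C' * C = 1 := by
      rw [Matrix.diagonal_mul_diagonal, ← Matrix.diagonal_one]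
      congr 1
      funext i
      rw [MonoidAlgebra.single_mul_single, inv_mul_cancel, mul_one]
      rfl
    let M : Matrix ι ι (ZG Γ) := C' * B * C
    have hMk : M ^ k = 0 := by
      have h1 : ∀ m : ℕ, M ^ m = C' * B ^ m * C := by
        intro m
        induction m with
        | zero => rw [pow_zero, pow_zero, mul_one, hC'C]
        | succ m ih =>
          rw [pow_succ, ih, pow_succ]
          calc C' * B ^ m * C * (C' * B * C) = C' * B ^ m * (C * C') * B * C := by
                simp only [mul_assoc]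
            _ = C' * (B ^ m * B) * C := by rw [hCC', mul_one]; simp only [mul_assoc]
      rw [h1, hBk, mul_zero, zero_mul]
    have hMcoeff : ∀ i l, M i l = MonoidAlgebra.single (c i)⁻¹ 1 * B i l *
        MonoidAlgebra.single (c l) 1 := by
      intro i l
      change (C' * B * C) i l = _
      rw [Matrix.mul_diagonal, Matrix.diagonal_mul]
    have hMsupp : ∀ i l γ, (M i l).coeff γ ≠ 0 → ∃ a ∈ MulAction.stabilizer Γ x,
        ∃ b ∈ MulAction.stabilizer Γ x, γ = a * g * b := by
      intro i l γ hne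
      rw [hMcoeff] at hne
      obtain ⟨a, b, ha, hb, hab⟩ := exists_of_coeff_mul hne
      obtain ⟨a1, a2, ha1, ha2, ha12⟩ := exists_of_coeff_mul ha
      have hb' : b = c l := by
        by_contra hne'
        apply hb
        rw [MonoidAlgebra.coeff_single, Finsupp.single_apply, if_neg (Ne.symm hne')]
      have ha1' : a1 = (c i)⁻¹ := by
        by_contra hne'
        apply ha1
        rw [MonoidAlgebra.coeff_single, Finsupp.single_apply, if_neg (Ne.symm hne')]
      obtain ⟨h, h1, h2⟩ := hxz i l a2 ha2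
      obtain ⟨h3, h4⟩ := hrow' i l a2 ha2
      have h5 := hc i h3
      have h6 := hc l h4
      refine ⟨(c i)⁻¹ * h, ?_, g⁻¹ * (h⁻¹ * a2 * c l), ?_, ?_⟩
      · change ((c i)⁻¹ * h) • x = x
        rw [mul_smul, ← h1, h5, inv_smul_smul]
      · change (g⁻¹ * (h⁻¹ * a2 * c l)) • x = x
        rw [mul_smul, mul_smul, mul_smul, ← h6, h2, inv_smul_smul, ← hgz', inv_smul_smul]
      · rw [← hab, ← ha12, ha1', hb']
        group
    have hfin : K.G (Matrix.toLinearMapRight' (1 + M)) → K.G (Matrix.toLinearMapRight' (1 + B)) := by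
      intro h1
      have h3 : 1 + B = C * (1 + M) * C' := by
        rw [mul_add, add_mul, mul_one, hCC']
        congr 1
        change B = C * (C' * B * C) * C'
        calc B = (C * C') * B * (C * C') := by rw [hCC', one_mul, mul_one]
          _ = C * (C' * B * C) * C' := by simp only [mul_assoc]
      have hCG : K.G (Matrix.toLinearMapRight' C) := by
        refine hM ι c _ fun y i => ?_
        rw [Matrix.toLinearMapRight'_apply]
        exact Matrix.vecMul_diagonal _ _ _
      have hC'G : K.G (Matrix.toLinearMapRight' C') := by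
        refine hM ι (fun i => (c i)⁻¹) _ fun y i => ?_
        rw [Matrix.toLinearMapRight'_apply]
        exact Matrix.vecMul_diagonal _ _ _
      rw [h3, Matrix.toLinearMapRight'_mul, Matrix.toLinearMapRight'_mul]
      exact K.comp _ _ (K.comp _ _ hCG h1) hC'G
    rcases hgx with hreg | hnil
    · -- locally perfect kernels
      rw [hlin]
      refine hNil Γ K X (itr r j) (ur_itr hr j) ι
        (fun i => if p i ∈ MulAction.orbit Γ x then p i else x) _ ?_ ?_ ?_
      · refine ⟨k, ?_⟩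
        rw [← toLin_pow, hBk, map_zero]
      · intro P y hy
        rw [in_iff] at hy ⊢
        intro l γ hne
        rw [Matrix.toLinearMapRight'_apply, Matrix.vecMul_eq_sum, Finset.sum_apply] at hne
        obtain ⟨i, _, hi⟩ := exists_of_coeff_sum hne
        obtain ⟨a, b, ha, hb, hab⟩ := exists_of_coeff_mul hi
        obtain ⟨h1, h2⟩ := hrow' i l b hb
        have h3 := hy i a ha
        rw [if_pos h1] at h3
        refine ⟨_, h3, ?_⟩
        rw [if_pos h2, ← hab, mul_smul]
        exact itr_smul hr a j _ _ (hD i l b hb)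
      · intro i
        have key : ∀ q : X, q ∈ MulAction.orbit Γ x →
            LPK (MonoidAlgebra ℤ (MulAction.stabilizer Γ q)) := by
          rintro q ⟨a, ha⟩
          exact LPK.congr (MonoidAlgebra.mapDomainRingEquiv ℤ
            (MulAction.stabilizerEquivStabilizer (g := a) ha.symm)) hreg
        refine key _ ?_
        split_ifs with h
        · exact h
        · exact MulAction.mem_orbit_self x
    · -- nilpotent matrices supported on a double coset
      have hur : UR (Γ := Γ) (crel (MulAction.stabilizer Γ x) g) :=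
        ur_crel (ur_itr hr j) x g (by rw [hgz']; exact hitr)
      exact hfin (hnil g j hj (by rw [hgz']; exact hitr) hur ι M k hMk hMsupp)

/-- Nilpotent transfers. -/
theorem stNilEH (hE : StElim.{u, v}) (hO : StOrbH.{u, v}) : StNilEH.{u, v} := by
  classical
  intro Γ _ K hM X _ r hr ι _ p ν hν htr hg
  have := Fintype.ofFinite ι
  obtain ⟨k, hk⟩ := hν
  let A : Matrix ι ι (ZG Γ) := LinearMap.toMatrixRight' ν
  have hA : Matrix.toLinearMapRight' A = ν := LinearEquiv.symm_apply_apply _ _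
  have hpow : A ^ k = 0 := by
    apply Matrix.toLinearMapRight'.injective
    rw [map_zero, toLin_pow, hA, hk]
  have hD : Dg r 1 p A := by
    intro i l γ hne
    have h1 : In p {b | ∃ a ∈ ({p i} : Set X), r a b} (ν (Pi.single i 1)) :=
      htr {p i} _ (in_basis_one p i)
    have h3 : ν (Pi.single i 1) l = A i l := by
      rw [← hA, Matrix.toLinearMapRight'_apply, Matrix.single_one_vecMul]
      rfl
    obtain ⟨a, ha, hab⟩ := in_iff.1 h1 l γ (by rw [h3]; exact hne)
    rw [Set.mem_singleton_iff.1 ha] at hab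
    exact ⟨_, hab, rfl⟩
  have h := hE Γ K X r hr ι p A k hpow hD fun j B hj hB hDB x z hxz =>
    hO Γ K hM X r hr ι p j B k hj hB hDB x z hxz hg
  rw [map_add, Matrix.toLinearMapRight'_one, hA] at h
  exact h

/-- Nilpotent transfers of step one. -/
theorem stRayEH (hN : StNilEH.{u, v}) (hS : StStepP.{u, v}) (hB : StTreeB.{u, v}) :
    StRayEH.{u, v} := by
  intro Γ _ V _ T hT K hM S hbar hgood ι _ p ν hp hnil htr
  -- the step
  have hstep : ∀ (m : ℕ) (s : Lev Γ T m), ∃ (s' : Lev Γ T (m + 1)) (π : s'.ι → s.ι),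
      (∀ k, (s'.p k).2 = (s.p (π k)).2 ∧ T.Adj (s'.p k).1 (s.p (π k)).1) ∧
      (K.G ((1 : Module.End (ZG Γ) (F Γ s'.ι)) + s'.ν) →
        K.G ((1 : Module.End (ZG Γ) (F Γ s.ι)) + s.ν)) := by
    intro m s
    obtain ⟨κ, hκ, q, π, μ, h1, h2, h3, h4, h5⟩ :=
      hS Γ V T hT K (m + 1) (Nat.le_add_left 1 m) s.ι s.p s.ν s.dist s.nil s.tr
    exact ⟨⟨κ, hκ, q, μ, h1, h3, h4⟩, π, h2, h5⟩
  choose nx π hπ hG using hstep
  have hι : Finite ι := inferInstance
  generalize hs0 : (⟨ι, hι, p, ν, hp, hnil, htr⟩ : Lev Γ T 0) = s0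
  have hgoal : K.G ((1 : Module.End (ZG Γ) (F Γ s0.ι)) + s0.ν) →
      K.G ((1 : Module.End (ZG Γ) (F Γ ι)) + ν) := by
    rw [← hs0]
    exact fun h => h
  apply hgoal
  clear hgoal hs0
  have hdown : ∀ m, K.G ((1 : Module.End (ZG Γ) (F Γ (levSeq s0 nx m).ι)) + (levSeq s0 nx m).ν) →
      K.G ((1 : Module.End (ZG Γ) (F Γ s0.ι)) + s0.ν) := by
    intro m
    induction m with
    | zero => exact fun h => h
    | succ m ih => exact fun h => ih (hG m (levSeq s0 nx m) h)
  by_cases hall : ∃ m, ∀ k : (levSeq s0 nx m).ι,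
      S ((levSeq s0 nx m).p k).2 ((levSeq s0 nx m).p k).1
  · obtain ⟨m, hm⟩ := hall
    refine hdown m (hN Γ K hM (V × V) (sh T (m + 1)) (hB Γ V T hT (m + 1) (Nat.le_add_left 1 m)).1
      (levSeq s0 nx m).ι (levSeq s0 nx m).p (levSeq s0 nx m).ν (levSeq s0 nx m).nil
      (levSeq s0 nx m).tr fun k => ?_)
    have hd := (levSeq s0 nx m).dist k
    have hmk := hm k
    generalize (levSeq s0 nx m).p k = a at hd hmk
    obtain ⟨v, u⟩ := a
    have hd' : T.dist v u = m + 1 := hd
    have hne : u ≠ v := fun h => by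
      rw [h, T.dist_self] at hd'
      omega
    rcases hgood u v hmk hne with h | h
    · exact Or.inl h
    · refine Or.inr fun γ j hj hjγ => h γ ?_
      obtain ⟨h1, h2⟩ := itr_dist hT.tree (Nat.le_add_left 1 m) _ j (v, u) hd' hjγ
      obtain ⟨h3, h4⟩ := itr_dist_snd hT.tree (Nat.le_add_left 1 m) _ j (v, u) hd' hjγ
      have h1' : T.dist (γ • v) v = j := h1
      have h2' : T.dist (γ • v) u = j + (m + 1) := h2
      have h3' : T.dist (γ • v) (γ • u) = m + 1 := h3
      have h4' : T.dist (γ • u) u = j := h4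
      rw [T.dist_comm] at h1' h2' h3' h4' hd'
      refine ⟨fun he => ?_, ?_, ?_⟩
      · rw [he, T.dist_self] at h1'
        omega
      · rw [h1', h2', hd', Nat.add_comm]
      · rw [h2', h3', h4']
  exfalso
  push Not at hall
  -- the bad indices
  let B : ℕ → Type := fun m => {k : (levSeq s0 nx m).ι //
    ¬ S ((levSeq s0 nx m).p k).2 ((levSeq s0 nx m).p k).1}
  let f : ∀ m, B (m + 1) → B m := fun m k =>
    ⟨π m (levSeq s0 nx m) k.1, fun h => k.2 (by
      have h1 := (hπ m (levSeq s0 nx m) k.1).1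
      have h2 := (hπ m (levSeq s0 nx m) k.1).2
      have h3 := (levSeq s0 nx m).dist (π m (levSeq s0 nx m) k.1)
      have h4 := (levSeq s0 nx (m + 1)).dist k.1
      rw [show ((levSeq s0 nx (m + 1)).p k.1).2 = ((levSeq s0 nx m).p (π m (levSeq s0 nx m) k.1)).2
        from h1]
      refine hbar.pro _ _ _ h h2.symm ?_
      rw [show ((levSeq s0 nx (m + 1)).p k.1).2 = ((levSeq s0 nx m).p (π m (levSeq s0 nx m) k.1)).2
        from h1, T.dist_comm] at h4
      rw [T.dist_comm] at h3
      rw [h3]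
      exact h4)⟩
  have hBfin : ∀ m, Finite (B m) := fun m =>
    inferInstanceAs (Finite {k : (levSeq s0 nx m).ι //
      ¬ S ((levSeq s0 nx m).p k).2 ((levSeq s0 nx m).p k).1})
  have hBne : ∀ m, Nonempty (B m) := fun m => (hall m).elim fun k hk => ⟨⟨k, hk⟩⟩
  obtain ⟨k, hk⟩ := exists_coherent B f hBfin hBne
  -- the ray
  let x : ℕ → V := fun n => Nat.casesOn n ((levSeq s0 nx 0).p (k 0).1).2
    fun m => ((levSeq s0 nx m).p (k m).1).1
  have hπk : ∀ m, π m (levSeq s0 nx m) (k (m + 1)).1 = (k m).1 := fun m => congrArg Subtype.val (hk m)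
  have hx2 : ∀ m, ((levSeq s0 nx m).p (k m).1).2 = x 0 := by
    intro m
    induction m with
    | zero => rfl
    | succ m ih =>
      have := (hπ m (levSeq s0 nx m) (k (m + 1)).1).1
      rw [hπk] at this
      exact this.trans ih
  have hdist : ∀ n, T.dist (x n) (x 0) = n := by
    intro n
    cases n with
    | zero => exact T.dist_self
    | succ m =>
      have := (levSeq s0 nx m).dist (k m).1
      rw [hx2] at this
      exact this
  have hadj : ∀ n, T.Adj (x n) (x (n + 1)) := by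
    intro n
    cases n with
    | zero =>
      have := hdist 1
      exact (T.dist_eq_one_iff_adj.1 this).symm
    | succ m =>
      have := (hπ m (levSeq s0 nx m) (k (m + 1)).1).2
      rw [hπk] at this
      exact this.symm
  obtain ⟨n, hn, hreg⟩ := hbar.ray x hadj fun n hne => by
    have h1 := hdist n
    have h2 := hdist (n + 2)
    rw [← hne] at h2
    omega
  obtain ⟨m, rfl⟩ : ∃ m, n = m + 1 := ⟨n - 1, by omega⟩
  apply (k m).2
  rw [hx2 m]
  exact hreg

theorem riNilEH : StNilEH.{u, v} := stNilEH stElim (stOrbH loNilL stUnip)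

theorem riRayEH : StRayEH.{u, v} := stRayEH riNilEH (stStepP stTreeB stSwap) stTreeB

end Pool.Agent.Lib.MP_551055_al.RI
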