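import Mathlib
import Pool.Agent.Lib.MP_551055_al.Trim.Descent
import Pool.Agent.Lib.MP_551055_al.Trim.LO.Base
import Pool.Agent.Lib.MP_551055_al.Trim.LS.BassClass
import Pool.Agent.Lib.MP_551055_al.Trim.LS.BassMono
import Pool.Agent.Lib.MP_551055_al.Trim.LS.BassProj
import Pool.Agent.Lib.MP_551055_al.Trim.LS.BassVert
import Pool.Agent.Lib.MP_551055_al.Trim.LS.Clo
import Pool.Agent.Lib.MP_551055_al.Trim.LS.Clo2
import Pool.Agent.Lib.MP_551055_al.Trim.LS.Cut
import Pool.Agent.Lib.MP_551055_al.Trim.LS.Final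
import Pool.Agent.Lib.MP_551055_al.Trim.LS.FinalE
import Pool.Agent.Lib.MP_551055_al.Trim.LS.Graded
import Pool.Agent.Lib.MP_551055_al.Trim.LS.Init
import Pool.Agent.Lib.MP_551055_al.Trim.LS.K1a
import Pool.Agent.Lib.MP_551055_al.Trim.LS.K1c
import Pool.Agent.Lib.MP_551055_al.Trim.LS.KI
import Pool.Agent.Lib.MP_551055_al.Trim.LS.Main
import Pool.Agent.Lib.MP_551055_al.Trim.LS.PStmts
import Pool.Agent.Lib.MP_551055_al.Trim.LS.Pos
import Pool.Agent.Lib.MP_551055_al.Trim.LS.Stmts
import Pool.Agent.Lib.MP_551055_al.Trim.LS.Stmts3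
import Pool.Agent.Lib.MP_551055_al.Trim.LS.Theta
import Pool.Agent.Lib.MP_551055_al.Trim.LS.TreeA
import Pool.Agent.Lib.MP_551055_al.Trim.LS.TreeB
import Pool.Agent.Lib.MP_551055_al.Trim.LS.TreeC
import Pool.Agent.Lib.MP_551055_al.Trim.MT.K1
import Pool.Agent.Lib.MP_551055_al.Trim.MT.RCU
import Pool.Agent.Lib.MP_551055_al.Trim.OneRelation
import Pool.Agent.Lib.MP_551055_al.Trim.RI.BassMap
import Pool.Agent.Lib.MP_551055_al.Trim.RI.LiftNil
import Pool.Agent.Lib.MP_551055_al.Trim.RI.OrbH
import Pool.Agent.Lib.MP_551055_al.Trim.RI.Stmts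
import Pool.Agent.Lib.MP_551055_al.Trim.Red.Defs
import Pool.Agent.Lib.MP_551055_al.Trim.Red.Idem
import Pool.Agent.Lib.MP_551055_al.Trim.T4.FinalT
import Pool.Agent.Lib.MP_551055_al.Trim.T4.OrbT
import Pool.Agent.Lib.MP_551055_al.Trim.T4.Transport
import Pool.Agent.Lib.MP_551055_al.Trim.VNDefs

/-!
# Relative inheritance: the closure theorem for one tree

As in `T4.FinalT`, but nilpotent matrices supported on double cosets are only needed for the Bass
class, where they may be lifted to another group.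
-/

set_option autoImplicit false

namespace Pool.Agent.Lib.MP_551055_al
end Pool.Agent.Lib.MP_551055_al

namespace Pool.Agent.Lib.MP_551055_al.LS
end Pool.Agent.Lib.MP_551055_al.LS

namespace Pool.Agent.Lib.MP_551055_al.LO
end Pool.Agent.Lib.MP_551055_al.LO

namespace Pool.Agent.Lib.MP_551055_al.PT
end Pool.Agent.Lib.MP_551055_al.PT

namespace Pool.Agent.Lib.MP_551055_al.Red
end Pool.Agent.Lib.MP_551055_al.Red

namespace Pool.Agent.Lib.MP_551055_al.T4
end Pool.Agent.Lib.MP_551055_al.T4

namespace Pool.Agent.Lib.MP_551055_al.RI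

open Pool.Agent.Lib.MP_551055_al

open Pool.Agent.Lib.MP_551055_al.LS

open Pool.Agent.Lib.MP_551055_al.LO

open Pool.Agent.Lib.MP_551055_al.PT

open Pool.Agent.Lib.MP_551055_al.Red (Img)

open Pool.Agent.Lib.MP_551055_al.T4

universe u v w

/-- `K` is the Bass class. -/
def IsBass {G : Type u} [Group G] (K : K1C (ZG (G × Multiplicative ℤ))) : Prop :=
  ∀ (ι κ : Type) (Φ : F (G × Multiplicative ℤ) ι →ₗ[ZG (G × Multiplicative ℤ)]
      F (G × Multiplicative ℤ) κ), K.G Φ ↔ BG Φ

/-- The final assembly. -/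
theorem finalEH (G : Type u) [Group G] (V : Type v) [MulAction G V] (T : SimpleGraph V)
    (hT : TreeAct G V T) (hPv : ∀ v : V, VN.ProjStFree (MulAction.stabilizer G v))
    (hPe : ∀ u v, T.Adj u v → VN.ProjStFree (MulAction.stabilizer G (u, v) × Multiplicative ℤ))
    (S : V → V → Prop) (hbar : Bar T S)
    (hS : ∀ u v, S u v → u ≠ v →
      LPK (MonoidAlgebra ℤ (MulAction.stabilizer G (v, u) × Multiplicative ℤ)) ∨
      ∀ K : K1C (ZG (G × Multiplicative ℤ)), IsBass K → ∀ g : G, Trl T g u v →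
        ∀ p : Multiplicative ℤ, NilAt K
          ((MulAction.stabilizer G (v, u)).prod (⊤ : Subgroup (Multiplicative ℤ))) (g, p)) :
    VN.ProjStFree G := by
  let _ : MulAction (G × Multiplicative ℤ) V := actZ G V
  have hsmul : ∀ (γ : G × Multiplicative ℤ) (x : V), γ • x = γ.1 • x := fun _ _ => rfl
  have hT' : TreeAct (G × Multiplicative ℤ) V T :=
    { tree := hT.tree
      adj := fun γ a b hab => hT.adj γ.1 a b hab
      inv := fun γ a b hab h => hT.inv γ.1 a b hab h }
  obtain ⟨K, hK⟩ := stBassClass stBassProj G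
  have hM : MGood K := fun ι _ g Φ hΦ => (hK ι ι Φ).2 (stBassMono G ι g Φ hΦ)
  have key : ∀ (H : Subgroup G) (E : Subgroup (G × Multiplicative ℤ)), VN.ProjStFree H →
      E = H.prod (⊤ : Subgroup (Multiplicative ℤ)) → SGood K E := by
    rintro H E hH rfl ι κ _ _ _ _ A B hAB hBA
    exact (hK ι κ _).2 (stBassVert stBassProj G H hH ι κ A B hAB hBA)
  -- vertices
  have hV : VGood K V := by
    refine stGraded (G × Multiplicative ℤ) V K hM ?_
    intro x
    refine key (MulAction.stabilizer G x) (MulAction.stabilizer (G × Multiplicative ℤ) x) (hPv x) ?_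
    ext γ
    rw [MulAction.mem_stabilizer_iff, Subgroup.mem_prod, MulAction.mem_stabilizer_iff, hsmul]
    exact ⟨fun h => ⟨h, Subgroup.mem_top _⟩, fun h => h.1⟩
  -- stabilisers of pairs
  have hst : ∀ a : V × V, Nonempty ((MulAction.stabilizer G a × Multiplicative ℤ) ≃*
      MulAction.stabilizer (G × Multiplicative ℤ) a) := by
    intro a
    exact ⟨{ toFun := fun γ => ⟨(γ.1.1, γ.2), γ.1.2⟩
             invFun := fun γ => (⟨γ.1.1, γ.2⟩, γ.1.2)
             left_inv := fun _ => rfl
             right_inv := fun _ => rfl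
             map_mul' := fun _ _ => rfl }⟩
  have hPe' : ∀ a b, T.Adj a b →
      VN.ProjStFree (MulAction.stabilizer (G × Multiplicative ℤ) (a, b)) := by
    intro a b hab
    obtain ⟨e⟩ := hst (a, b)
    exact projStFree_congr e (hPe a b hab)
  have hN : NilGood K T 1 := by
    refine riRayEH (G × Multiplicative ℤ) V T hT' K hM S hbar fun u v huv hne => ?_
    rcases hS u v huv hne with h | h
    · obtain ⟨e⟩ := hst (v, u)
      exact Or.inl (LPK.congr (MonoidAlgebra.mapDomainRingEquiv ℤ e) h)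
    · refine Or.inr fun γ hγ => ?_
      have h1 : MulAction.stabilizer (G × Multiplicative ℤ) (v, u) =
          (MulAction.stabilizer G (v, u)).prod (⊤ : Subgroup (Multiplicative ℤ)) := by
        ext γ
        rw [Subgroup.mem_prod]
        exact ⟨fun h => ⟨h, Subgroup.mem_top _⟩, fun h => h.1⟩
      rw [h1]
      exact h K hK γ.1 hγ γ.2
  apply Red.stIdem
  intro n p hp
  obtain ⟨α, hα, h⟩ := stBassIdem G n p hp
  apply h
  rw [← hK]
  exact mainK1N stTreeC (stKI stTreeB) (stTheta stTreeA (stCut stTreeA)) lsAdapt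
    (stInit stConj stUnip) (G × Multiplicative ℤ) V T hT' hPe' K hV hN n α hα

/-- Nilpotent matrices over the group ring of a group with stably free projectives, mapped to
another group. -/
theorem bg_one_add {G : Type u} {H : Type v} [Group G] [Group H] (f : H →* G)
    (hH : VN.ProjStFree H) {ι : Type} [Fintype ι] [DecidableEq ι]
    (C : Matrix ι ι (ZG (H × Multiplicative ℤ))) (k : ℕ) (hk : C ^ k = 0) :
    BG (Matrix.toLinearMapRight'
      (1 + C.map (inc ℤ (MonoidHom.prodMap f (MonoidHom.id (Multiplicative ℤ)))))) := by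
  have hnil : IsNilpotent C := ⟨k, hk⟩
  obtain ⟨U, hU⟩ := hnil.isUnit_one_add
  have h1 := bassMap f hH ι ι (1 + C) (↑U⁻¹ : Matrix ι ι (ZG (H × Multiplicative ℤ)))
    (by rw [← hU]; exact U.mul_inv) (by rw [← hU]; exact U.inv_mul)
  have h2 : (1 + C).map (inc ℤ (MonoidHom.prodMap f (MonoidHom.id (Multiplicative ℤ)))) =
      1 + C.map (inc ℤ (MonoidHom.prodMap f (MonoidHom.id (Multiplicative ℤ)))) := by
    have h3 := map_add (RingHom.mapMatrix
      (inc ℤ (MonoidHom.prodMap f (MonoidHom.id (Multiplicative ℤ))))) (1 : Matrix ι ι _) C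
    rw [map_one] at h3
    exact h3
  rw [← h2]
  exact h1

/-- Lifting to a group with stably free projectives. -/
theorem nilAt_of_lift {G : Type u} [Group G] (D : Subgroup G) (g : G) {H : Type v} [Group H]
    (f : H →* G) (D' : Subgroup H) (t : H) (hL : LiftData f D D' g t) (hH : VN.ProjStFree H)
    (K : K1C (ZG (G × Multiplicative ℤ))) (hK : IsBass K) (p : Multiplicative ℤ) :
    NilAt K (D.prod (⊤ : Subgroup (Multiplicative ℤ))) (g, p) := by
  intro hur ι _ _ B k hk hB
  obtain ⟨C, h1, h2, _⟩ := liftNil (hL.prod p) hur B k hk hB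
  rw [hK ι ι, ← h1]
  exact bg_one_add f hH C k h2

/-- Module M3. The closure theorem. -/
theorem stFinalH : StFinalH := by
  intro n G _ V _ T hT hv he S hbar hx
  let _ : MulAction (G × ZN n) V := MulAction.compHom V (MonoidHom.fst G (ZN n))
  have hsmul : ∀ (γ : G × ZN n) (x : V), γ • x = γ.1 • x := fun _ _ => rfl
  have hT' : TreeAct (G × ZN n) V T :=
    { tree := hT.tree
      adj := fun γ a b hab => hT.adj γ.1 a b hab
      inv := fun γ a b hab h => hT.inv γ.1 a b hab h }
  -- stabilisers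
  have hst1 : ∀ a : V, Nonempty (MulAction.stabilizer G a × ZN n ≃*
      MulAction.stabilizer (G × ZN n) a) := by
    intro a
    exact ⟨{ toFun := fun γ => ⟨(γ.1.1, γ.2), γ.1.2⟩
             invFun := fun γ => (⟨γ.1.1, γ.2⟩, γ.1.2)
             left_inv := fun _ => rfl
             right_inv := fun _ => rfl
             map_mul' := fun _ _ => rfl }⟩
  have hst2 : ∀ a : V × V, Nonempty (MulAction.stabilizer G a × ZN n ≃*
      MulAction.stabilizer (G × ZN n) a) := by
    intro a
    exact ⟨{ toFun := fun γ => ⟨(γ.1.1, γ.2), γ.1.2⟩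
             invFun := fun γ => (⟨γ.1.1, γ.2⟩, γ.1.2)
             left_inv := fun _ => rfl
             right_inv := fun _ => rfl
             map_mul' := fun _ _ => rfl }⟩
  have hst3 : ∀ a : V × V, Nonempty (MulAction.stabilizer G a × ZN (n + 1) ≃*
      MulAction.stabilizer (G × ZN n) a × Multiplicative ℤ) := by
    intro a
    obtain ⟨e⟩ := hst2 a
    exact ⟨(znSucc (MulAction.stabilizer G a) n).symm.trans
      (MulEquiv.prodCongr e (MulEquiv.refl (Multiplicative ℤ)))⟩
  refine finalEH (G × ZN n) V T hT' (fun v => ?_) (fun u v huv => ?_) S hbar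
    fun u v huv hne => ?_
  · obtain ⟨e⟩ := hst1 v
    exact projStFree_congr e (hv v)
  · obtain ⟨e⟩ := hst3 (u, v)
    exact projStFree_congr e (he u v huv)
  · rcases hx u v huv hne with h1 | h1 | h1
    · right
      intro K _ γ _ p hur
      rw [stab_swap] at h1
      have h2 : NilOK K ((MulAction.stabilizer (G × ZN n) (v, u)).prod
          (⊤ : Subgroup (Multiplicative ℤ))) := by
        refine NilOK.congr (znSucc G n) _ ((MulAction.stabilizer G (v, u)).prod
          (⊤ : Subgroup (ZN (n + 1)))) (fun γ => ?_) K (h1 (n + 1) _)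
        rw [Subgroup.mem_prod, Subgroup.mem_prod]
        exact ⟨fun h => ⟨h.1, Subgroup.mem_top _⟩, fun h => ⟨h.1, Subgroup.mem_top _⟩⟩
      exact h2 (γ, p) hur
    · left
      rw [stab_swap] at h1
      obtain ⟨e⟩ := hst3 (v, u)
      exact h1.congr (MonoidAlgebra.mapDomainRingEquiv ℤ e)
    · right
      intro K hK γ hγ p
      obtain ⟨g, q⟩ := γ
      obtain ⟨H, _, f, D', t, hL, hH⟩ := h1 g hγ
      have h2 : MulAction.stabilizer (G × ZN n) (v, u) =
          (MulAction.stabilizer G (u, v)).prod (⊤ : Subgroup (ZN n)) := by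
        rw [stab_swap (G := G) (u := u)]
        ext γ
        rw [Subgroup.mem_prod]
        exact ⟨fun h => ⟨h, Subgroup.mem_top _⟩, fun h => h.1⟩
      rw [h2]
      exact nilAt_of_lift _ _ (f.prodMap (MonoidHom.id (ZN n))) _ (t, q) (hL.prod q) hH K hK p

end Pool.Agent.Lib.MP_551055_al.RI
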