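import Mathlib
import Pool.Agent.Lib.MP_551055_al.Trim.LO.Base
import Pool.Agent.Lib.MP_551055_al.Trim.LS.Clo2
import Pool.Agent.Lib.MP_551055_al.Trim.LS.Final
import Pool.Agent.Lib.MP_551055_al.Trim.LS.PStmts
import Pool.Agent.Lib.MP_551055_al.Trim.LS.Stmts
import Pool.Agent.Lib.MP_551055_al.Trim.LS.Stmts3
import Pool.Agent.Lib.MP_551055_al.Trim.MT.K1
import Pool.Agent.Lib.MP_551055_al.Trim.RI.Basic
import Pool.Agent.Lib.MP_551055_al.Trim.RI.LiftNil
import Pool.Agent.Lib.MP_551055_al.Trim.RI.Stmts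
import Pool.Agent.Lib.MP_551055_al.Trim.T4.FinalT
import Pool.Agent.Lib.MP_551055_al.Trim.VNDefs

/-!
# Relative inheritance: the rules for lifts
-/

set_option autoImplicit false

namespace Pool.Agent.Lib.MP_551055_al
end Pool.Agent.Lib.MP_551055_al

namespace Pool.Agent.Lib.MP_551055_al.LS
end Pool.Agent.Lib.MP_551055_al.LS

namespace Pool.Agent.Lib.MP_551055_al.LO
end Pool.Agent.Lib.MP_551055_al.LO

namespace Pool.Agent.Lib.MP_551055_al.T4
end Pool.Agent.Lib.MP_551055_al.T4

namespace Pool.Agent.Lib.MP_551055_al.RI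

open Pool.Agent.Lib.MP_551055_al

open Pool.Agent.Lib.MP_551055_al.LS

open Pool.Agent.Lib.MP_551055_al.LO

open Pool.Agent.Lib.MP_551055_al.T4

section

variable {X : Cls}

/-- Restriction of a lift. -/
theorem Cls.IsLift.restrict {l : ℕ} {G G' : Type} [Group G] [Group G'] {F : Subgroup G → Prop}
    {F' : Subgroup G' → Prop} {H : Type} [Group H] {f : H →* G} (h : X.IsLift l F f) {K : Type}
    [Group K] (i : K →* H) (hi : Function.Injective i) (φ : K →* G') (c : G' →* G)
    (hcF : ∀ E : Subgroup G', F (E.map c) → F' E) (hc : ∀ x, c (φ x) = f (i x)) :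
    X.IsLift l F' φ := by
  obtain ⟨J, hJ, τ, h0, hτ⟩ := h
  refine ⟨J, hJ, fun j => (τ j).res i, h0, fun v E hE => ?_⟩
  have h1 : E.map i ≤ stabV τ v := by
    rintro _ ⟨x, hx, rfl⟩ j
    exact hE hx j
  obtain ⟨h2, h3⟩ := hτ v (E.map i) h1
  have hcomp : c.comp φ = f.comp i := MonoidHom.ext hc
  refine ⟨Cls.Rl.of_inj c ?_, hcF _ ?_⟩
  · let e : E →* E.map i := (i.comp E.subtype).codRestrict (E.map i) fun x => ⟨x, x.2, rfl⟩
    have he : Function.Injective e := fun x y hxy => Subtype.ext (hi (congrArg Subtype.val hxy))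
    have h5 : c.comp (φ.comp E.subtype) = (f.comp (E.map i).subtype).comp e :=
      MonoidHom.ext fun x => hc x
    rw [h5]
    exact h2.comp e he
  · rw [Subgroup.map_map, hcomp, ← Subgroup.map_map]
    exact h3

theorem kerOK_of_injective (l : ℕ) {H G : Type} [Group H] [Group G] {f : H →* G}
    (hf : Function.Injective f) (E : Subgroup H) : X.KerOK l f E :=
  Or.inl fun _ _ hx => hf (by rw [hx, map_one])

/-- Composition with a lift. -/
theorem Cls.LStar.lift (hX : X.Ok) {l : ℕ} {G : Type} [Group G] {F : Subgroup G → Prop}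
    (h : X.LStar l G F) {K : Type} [Group K] (i : K →* G) {J₀ : Type} [Finite J₀]
    (τ₀ : J₀ → BTree K) (h0 : 3 ≤ l → IsEmpty J₀) (hi : ∀ v, X.KerOK l i (stabV τ₀ v))
    {F' : Subgroup K → Prop} (hF : ∀ E, F' E → F (E.map i)) : X.LStar l K F' := by
  rintro H _ f ⟨J, hJ, τ, h1, hτ⟩ n
  let σ : J ⊕ J₀ → BTree H := Sum.elim τ fun j => (τ₀ j).res f
  refine h H (i.comp f) ⟨J ⊕ J₀, inferInstance, σ, fun hl => ?_, fun v E hE => ?_⟩ n
  · have := h0 hl
    have := h1 hl
    infer_instance
  · obtain ⟨h2, h3⟩ := hτ (fun j => v (Sum.inl j)) E fun x hx j => hE hx (Sum.inl j)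
    refine ⟨h2.kerOK hX (hi fun j => v (Sum.inr j)) fun x j => hE x.2 (Sum.inr j), ?_⟩
    rw [← Subgroup.map_map]
    exact hF _ h3

theorem Cls.LStar.pull (hX : X.Ok) {l : ℕ} {G : Type} [Group G] {F : Subgroup G → Prop}
    (h : X.LStar l G F) {K : Type} [Group K] (i : K →* G) (hi : Function.Injective i)
    {F' : Subgroup K → Prop} (hF : ∀ E, F' E → F (E.map i)) : X.LStar l K F' :=
  h.lift hX i (J₀ := Empty) (fun j => j.elim) (fun _ => inferInstance)
    (fun _ => kerOK_of_injective l hi _) hF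

theorem Cls.LStar.mono (hX : X.Ok) {l : ℕ} {G : Type} [Group G] {F F' : Subgroup G → Prop}
    (h : X.LStar l G F) (hF : ∀ E, F' E → F E) : X.LStar l G F' := by
  refine h.pull hX (MonoidHom.id G) Function.injective_id fun E hE => ?_
  rw [Subgroup.map_id]
  exact hF E hE

theorem Cls.LStar.level (hX : X.Ok) {l m : ℕ} (hlm : l ≤ m) {G : Type} [Group G]
    {F : Subgroup G → Prop} (h : X.LStar l G F) : X.LStar m G F := by
  rintro H _ f ⟨J, hJ, τ, h0, hτ⟩ n
  exact h H f ⟨J, hJ, τ, fun hl => h0 (hl.trans hlm),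
    fun v E hE => ⟨(hτ v E hE).1.mono hX hlm, (hτ v E hE).2⟩⟩ n

/-- Groups all of whose subgroups are good. -/
theorem lStar_of_good {G : Type} [Group G] (F : Subgroup G → Prop)
    (h : ∀ (H : Subgroup G) (n : ℕ), VN.ProjStFree (H × ZN n)) : X.LStar 3 G F := by
  rintro H _ f ⟨J, hJ, τ, h0, hτ⟩ n
  have := h0 le_rfl
  obtain ⟨h1, -⟩ := hτ (fun j => isEmptyElim j) ⊤ fun x _ j => isEmptyElim j
  have h2 : Function.Injective f := by
    rw [injective_iff_map_eq_one]
    intro x hx
    exact congrArg Subtype.val ((injective_iff_map_eq_one _).1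
      (show Function.Injective (f.comp (⊤ : Subgroup H).subtype) from h1) ⟨x, Subgroup.mem_top x⟩ hx)
  exact projStFree_congr (MulEquiv.prodCongr (MonoidHom.ofInjective h2).symm (MulEquiv.refl (ZN n)))
    (h f.range n)

/-- Levels of groups and homomorphisms. -/
theorem b_of_level (hX : X.Ok) {l : ℕ} {E G : Type} [Group E] [Group G] {f : E →* G}
    (h : X.Rl l f) (hB : X.Bs l f.range) : X.B E := by
  obtain _ | _ | l := l
  · exact B1.b hX (h E f.range (MonoidHom.id E) f.rangeRestrict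
      (fun c hc => congrArg Subtype.val hc) (fun c hc _ => hc) hB)
  · exact B1.b hX ((h E f.range (MonoidHom.id E) f.rangeRestrict
      (fun c hc => congrArg Subtype.val hc) (fun c hc _ => hc)).2 hB)
  · exact hX.B_iso (MonoidHom.ofInjective h).symm hB

/-- Module M5a. -/
theorem stRelBase (hX : X.Ok) : StRelBase X := by
  intro l G _ F I _ u hE H _ f hf n
  obtain ⟨J, hJ, τ, h0, hτ⟩ := hf
  let σ : J ⊕ I → BTree H := Sum.elim τ fun i => (u i).res f
  refine hX.main H (J ⊕ I) σ (fun v E' hE' => ?_) n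
  have h1 : E' ≤ stabV τ fun j => v (Sum.inl j) := fun x hx j => hE' hx (Sum.inl j)
  obtain ⟨h2, h3⟩ := hτ _ E' h1
  have h5 : (f.comp E'.subtype).range = E'.map f := by
    rw [MonoidHom.range_comp, Subgroup.range_subtype]
  refine b_of_level hX h2 ?_
  rw [h5]
  refine hE _ h3 fun i => ⟨v (Sum.inr i), ?_⟩
  rintro _ ⟨x, hx, rfl⟩
  exact hE' hx (Sum.inr i)

/-- Module M5b. -/
theorem stRelTree (hX : X.Ok) (hF : StFinalH) (hH : StHNN) : StRelTree X := by
  intro l G _ F t h1 h2 H _ f hf n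
  let tH : TreeOn H := t.res f
  -- vertices
  have hv : ∀ v : tH.V, ∀ m, VN.ProjStFree (MulAction.stabilizer H v × ZN m) := by
    intro v m
    let φ : MulAction.stabilizer H v →* MulAction.stabilizer G (show t.V from v) :=
      (f.comp (MulAction.stabilizer H v).subtype).codRestrict _ fun x => x.2
    exact h1 v _ φ (hf.restrict (MulAction.stabilizer H v).subtype Subtype.val_injective φ
      (MulAction.stabilizer G (show t.V from v)).subtype (fun E hE => hE) fun x => rfl) m
  have he : ∀ u v : tH.V, ∀ m, VN.ProjStFree (MulAction.stabilizer H (u, v) × ZN m) := by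
    intro u v m
    have h3 : ∀ x : MulAction.stabilizer H (u, v),
        f x ∈ MulAction.stabilizer G (show t.V from u) := fun x =>
      congrArg Prod.fst (MulAction.mem_stabilizer_iff.1 x.2)
    let φ : MulAction.stabilizer H (u, v) →* MulAction.stabilizer G (show t.V from u) :=
      (f.comp (MulAction.stabilizer H (u, v)).subtype).codRestrict _ h3
    exact h1 u _ φ (hf.restrict (MulAction.stabilizer H (u, v)).subtype Subtype.val_injective φ
      (MulAction.stabilizer G (show t.V from u)).subtype (fun E hE => hE) fun x => rfl) m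
  refine hF n H tH.V tH.T tH.tree (fun v => hv v n) (fun u v _ => he u v (n + 1)) tH.S tH.bar
    fun u v huv hne => Or.inr (Or.inr fun g _ => ?_)
  obtain ⟨Q, _, p, D', s, hL, V0, _, T0, hT0, hst⟩ := hH H (MulAction.stabilizer H (u, v)) g
  refine ⟨Q, inferInstance, p, D', s, hL, ?_⟩
  refine h2 Q (f.comp p) ?_ n
  obtain ⟨J, hJ, τ, h0, hτ⟩ := hf
  let τ0 : BTree Q := ⟨V0, inferInstance, T0, hT0⟩
  refine ⟨Option J, inferInstance, fun o => o.elim τ0 fun j => (τ j).res p, fun hl => ?_,
    fun w E hE => ?_⟩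
  · omega
  obtain ⟨h, hh⟩ := hst (w none)
  have hD : ∀ x ∈ E, h⁻¹ * x * h ∈ D' := fun x hx => hh x (hE hx none)
  have h3 : E.map p ≤ stabV τ fun j => w (some j) := by
    rintro _ ⟨x, hx, rfl⟩ j
    exact hE hx (some j)
  obtain ⟨h4, h5⟩ := hτ _ (E.map p) h3
  have hinj : ∀ x ∈ E, p x = 1 → x = 1 := by
    intro x hx h7
    have h8 : p (h⁻¹ * x * h) = 1 := by
      rw [map_mul, map_mul, h7, mul_one, ← map_mul, inv_mul_cancel, map_one]
    have h9 := hL.inj _ (hD x hx) h8
    have h10 : x = h * (h⁻¹ * x * h) * h⁻¹ := by group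
    rw [h10, h9, mul_one, mul_inv_cancel]
  refine ⟨?_, ?_, ?_⟩
  · let e : E →* E.map p := (p.comp E.subtype).codRestrict (E.map p) fun x => ⟨x, x.2, rfl⟩
    have he' : Function.Injective e := by
      rw [injective_iff_map_eq_one]
      intro x hx
      exact Subtype.ext (hinj x x.2 (congrArg Subtype.val hx))
    exact (h4.comp e he').mono hX (Nat.min_le_left l 2)
  · rw [← Subgroup.map_map]
    exact h5
  · obtain ⟨u', hu'⟩ : ∃ u' : t.V, u' = u := ⟨_, rfl⟩
    obtain ⟨v', hv'⟩ : ∃ v' : t.V, v' = v := ⟨_, rfl⟩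
    have huv' : t.S u' v' := by
      rw [hu', hv']
      exact huv
    have hne' : u' ≠ v' := by
      rw [hu', hv']
      exact hne
    refine ⟨f (p h) • u', f (p h) • v', t.inv _ _ _ huv',
      fun h6 => hne' (MulAction.injective _ h6), ?_⟩
    rintro _ ⟨x, hx, rfl⟩
    have h6 : p (h⁻¹ * x * h) ∈ MulAction.stabilizer H (u, v) := hL.map _ (hD x hx)
    have h7 : f (p (h⁻¹ * x * h)) • u' = u' := by
      rw [hu']
      exact congrArg Prod.fst (MulAction.mem_stabilizer_iff.1 h6)
    have h8 : f (p (h⁻¹ * x * h)) • v' = v' := by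
      rw [hv']
      exact congrArg Prod.snd (MulAction.mem_stabilizer_iff.1 h6)
    have h9 : f (p x) * f (p h) = f (p h) * f (p (h⁻¹ * x * h)) := by
      rw [← map_mul, ← map_mul, ← map_mul, ← map_mul]
      congr 2
      group
    change f (p x) • f (p h) • u' = _ ∧ f (p x) • f (p h) • v' = _
    rw [smul_smul, smul_smul, h9, mul_smul, mul_smul, h7, h8]
    exact ⟨rfl, rfl⟩

end

/-- The pullback of two homomorphisms. -/
def pb {Q H G : Type} [Group Q] [Group H] [Group G] (f : Q →* G) (φ : H →* G) :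
    Subgroup (Q × H) where
  carrier := {x | f x.1 = φ x.2}
  mul_mem' {x y} hx hy := by
    change f (x.1 * y.1) = φ (x.2 * y.2)
    rw [map_mul, map_mul]
    exact congrArg₂ _ hx hy
  one_mem' := by
    change f 1 = φ 1
    rw [map_one, map_one]
  inv_mem' {x} hx := by
    change f x.1⁻¹ = φ x.2⁻¹
    rw [map_inv, map_inv]
    exact congrArg _ hx

/-- The pullback of a lift is a lift. -/
theorem Cls.IsLift.pb {X : Cls} {l : ℕ} {G : Type} [Group G] {F : Subgroup G → Prop} {Q : Type}
    [Group Q] {f : Q →* G} (h : X.IsLift l F f) {H : Type} [Group H] (φ : H →* G) :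
    X.IsLift l (fun E => F (E.map φ)) ((MonoidHom.snd Q H).comp (pb f φ).subtype) := by
  obtain ⟨J, hJ, τ, h0, hτ⟩ := h
  let p : RI.pb f φ →* Q := (MonoidHom.fst Q H).comp (RI.pb f φ).subtype
  let q : RI.pb f φ →* H := (MonoidHom.snd Q H).comp (RI.pb f φ).subtype
  have hpq : ∀ x, f (p x) = φ (q x) := fun x => x.2
  have hpq' : ∀ x, p x = 1 → q x = 1 → x = 1 := fun x h1 h2 => Subtype.ext (Prod.ext h1 h2)
  refine ⟨J, hJ, fun j => (τ j).res p, h0, fun v E hE => ?_⟩
  have h1 : E.map p ≤ stabV τ v := by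
    rintro _ ⟨x, hx, rfl⟩ j
    exact hE hx j
  obtain ⟨h2, h3⟩ := hτ v (E.map p) h1
  refine ⟨?_, ?_⟩
  · let e : E →* E.map p := (p.comp E.subtype).codRestrict (E.map p) fun x => ⟨x, x.2, rfl⟩
    have key : ∀ {C P : Type} [Group C] [Group P] (a : C →* E) (b : C →* P),
        (∀ c, b c = 1 → q (a c) = 1) → (∀ c, a c = 1 → b c = 1 → c = 1) →
        (∀ c, b c = 1 → (f.comp (E.map p).subtype) ((e.comp a) c) = 1) ∧
          ∀ c, (e.comp a) c = 1 → b c = 1 → c = 1 := by
      intro C P _ _ a b h4 h5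
      refine ⟨fun c hc => ?_, fun c hc hc' => h5 c ?_ hc'⟩
      · change f (p (a c)) = 1
        rw [hpq, h4 c hc, map_one]
      · exact Subtype.ext (hpq' _ (congrArg Subtype.val hc) (h4 c hc'))
    obtain _ | _ | l := l
    · exact fun C P _ _ a b h4 h5 => h2 C P (e.comp a) b (key a b h4 h5).1 (key a b h4 h5).2
    · exact fun C P _ _ a b h4 h5 => h2 C P (e.comp a) b (key a b h4 h5).1 (key a b h4 h5).2
    · change Function.Injective (q.comp E.subtype)
      rw [injective_iff_map_eq_one]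
      intro x hx
      have h6 : e x = 1 := by
        refine (injective_iff_map_eq_one _).1 (show Function.Injective _ from h2) _ ?_
        change f (p x) = 1
        rw [hpq]
        exact (congrArg φ hx).trans (map_one φ)
      exact Subtype.ext (hpq' _ (congrArg Subtype.val h6) hx)
  · change F ((E.map q).map φ)
    have h4 : (E.map q).map φ = (E.map p).map f := by
      rw [Subgroup.map_map, Subgroup.map_map]
      congr 1
      exact MonoidHom.ext fun x => (hpq x).symm
    rw [h4]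
    exact h3

/-- Module M5c. -/
theorem stRelColim (X : Cls) : StRelColim X := by
  classical
  intro l G _ F h Q _ f hf n
  refine closure_local n Q fun s => ?_
  obtain ⟨H, _, φ, i, h1, h2, h3⟩ := h (s.image f)
  let P := pb f φ
  let σ : Q → P := fun x => if hx : f x = φ (i (f x)) then ⟨(x, i (f x)), hx⟩ else 1
  have hσ : ∀ x ∈ s, (σ x : Q × H) = (x, i (f x)) := by
    intro x hx
    exact congrArg Subtype.val (dif_pos (h1 _ (Finset.mem_image_of_mem f hx)).symm)
  refine ⟨P, inferInstance, (MonoidHom.fst Q H).comp P.subtype, σ, fun x hx => ?_,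
    fun x hx y hy hxy => ?_, h3 P _ (hf.pb φ) n⟩
  · change (σ x : Q × H).1 = x
    rw [hσ x hx]
  · apply Subtype.ext
    rw [Subgroup.coe_mul, hσ x hx, hσ y hy, hσ _ hxy]
    refine Prod.ext rfl ?_
    change i (f x) * i (f y) = i (f (x * y))
    rw [map_mul]
    refine h2 _ (Finset.mem_image_of_mem f hx) _ (Finset.mem_image_of_mem f hy) ?_
    rw [← map_mul]
    exact Finset.mem_image_of_mem f hxy

end Pool.Agent.Lib.MP_551055_al.RI
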