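import Mathlib
import Pool.Agent.Lib.MP_551055_al.Trim.LS.Ind
import Pool.Agent.Lib.MP_551055_al.Trim.LS.PStmts
import Pool.Agent.Lib.MP_551055_al.Trim.LS.Stmts
import Pool.Agent.Lib.MP_551055_al.Trim.MT.K1
import Pool.Agent.Lib.MP_551055_al.Trim.MT.RCU
import Pool.Agent.Lib.MP_551055_al.Trim.RI.Basic
import Pool.Agent.Lib.MP_551055_al.Trim.RI.Rel
import Pool.Agent.Lib.MP_551055_al.Trim.RI.Stmts
import Pool.Agent.Lib.MP_551055_al.Trim.VNDefs

/-!
# Relative inheritance: the class of pairs
-/

set_option autoImplicit false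

namespace Pool.Agent.Lib.MP_551055_al
end Pool.Agent.Lib.MP_551055_al

namespace Pool.Agent.Lib.MP_551055_al.LS
end Pool.Agent.Lib.MP_551055_al.LS

namespace Pool.Agent.Lib.MP_551055_al.LO
end Pool.Agent.Lib.MP_551055_al.LO

namespace Pool.Agent.Lib.MP_551055_al.T4
end Pool.Agent.Lib.MP_551055_al.T4

namespace Pool.Agent.Lib.MP_551055_al.RI

open Pool.Agent.Lib.MP_551055_al

open Pool.Agent.Lib.MP_551055_al.LS

open Pool.Agent.Lib.MP_551055_al.LO

open Pool.Agent.Lib.MP_551055_al.T4

/-- The product condition. -/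
def FP {G A : Type} [Group G] [Group A] (F : Subgroup G → Prop) (F' : Subgroup A → Prop) :
    Subgroup (G × A) → Prop :=
  fun E => F (E.map (MonoidHom.fst G A)) ∧ F' (E.map (MonoidHom.snd G A))

/-- Products with `G`: from level `l` to level `m`. -/
def Cls.MotP (X : Cls) (l m : ℕ) (G : Type) [Group G] (F : Subgroup G → Prop) : Prop :=
  ∀ (A : Type) [Group A] (F' : Subgroup A → Prop), X.LStar l A F' → X.LStar m (G × A) (FP F F')

/-- The motive of the induction. -/
def Cls.Mot (X : Cls) : ℕ → ∀ (G : Type) [Group G], (Subgroup G → Prop) → Prop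
  | 0, G, _, F => X.MotP 0 0 G F ∧ X.MotP 1 1 G F
  | 1, G, _, F => X.MotP 0 1 G F
  | 2, G, _, F => X.LStar 2 G F
  | _ + 3, G, _, F => X.LStar 3 G F

/-! ## Levels -/

section

variable {X : Cls} (hX : X.Ok) {E G A : Type} [Group E] [Group G] [Group A] {g : E →* G × A}

include hX

theorem rl_snd_zero (h : X.Rl 0 g) (hB : X.E ((MonoidHom.fst G A).comp g).range) :
    X.Rl 0 ((MonoidHom.snd G A).comp g) := by
  intro C P _ _ a b h1 h2 hP
  let r := ((MonoidHom.fst G A).comp g).rangeRestrict
  refine h C (((MonoidHom.fst G A).comp g).range × P) a ((r.comp a).prod b) (fun c hc => ?_)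
    (fun c hc hc' => h2 c hc (congrArg Prod.snd hc')) (hX.E_prod hB hP)
  have h3 : r (a c) = 1 := congrArg Prod.fst hc
  exact Prod.ext (congrArg Subtype.val h3) (h1 c (congrArg Prod.snd hc))

theorem rl_snd_one (h : X.Rl 1 g) (hB : X.E ((MonoidHom.fst G A).comp g).range) :
    X.Rl 1 ((MonoidHom.snd G A).comp g) := by
  intro C P _ _ a b h1 h2
  let r := ((MonoidHom.fst G A).comp g).rangeRestrict
  have h4 := h C (P × ((MonoidHom.fst G A).comp g).range) a (b.prod (r.comp a)) (fun c hc => by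
      have h3 : r (a c) = 1 := congrArg Prod.snd hc
      exact Prod.ext (congrArg Subtype.val h3) (h1 c (congrArg Prod.fst hc)))
    (fun c hc hc' => h2 c hc (congrArg Prod.fst hc'))
  exact ⟨fun hP => h4.1 (hX.E_prod hP hB), fun hP => h4.2 (B1.prod hX hP hB)⟩

theorem rl_snd_b1 (h : X.Rl 1 g) (hB : X.B1 ((MonoidHom.fst G A).comp g).range) :
    X.Rl 0 ((MonoidHom.snd G A).comp g) := by
  intro C P _ _ a b h1 h2 hP
  let r := ((MonoidHom.fst G A).comp g).rangeRestrict
  refine (h C (((MonoidHom.fst G A).comp g).range × P) a ((r.comp a).prod b) (fun c hc => ?_)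
    (fun c hc hc' => h2 c hc (congrArg Prod.snd hc'))).2 (B1.prod hX hB hP)
  have h3 : r (a c) = 1 := congrArg Prod.fst hc
  exact Prod.ext (congrArg Subtype.val h3) (h1 c (congrArg Prod.snd hc))

end

/-! ## The rules -/

section

variable {X : Cls} (hX : X.Ok)

theorem motP_base {b l m : ℕ} (hl : l ≤ 1) (hlev : ∀ {E G A : Type} [Group E] [Group G] [Group A]
      {g : E →* G × A}, X.Rl m g → X.Bs b ((MonoidHom.fst G A).comp g).range →
      X.Rl l ((MonoidHom.snd G A).comp g))
    (G : Type) [Group G] (F : Subgroup G → Prop) (I : Type) [Finite I] (u : I → BTree G)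
    (h : ∀ E : Subgroup G, F E → (∀ i, (u i).FixV E) → X.Bs b E) : X.MotP l m G F := by
  rintro A _ F' hA H _ f ⟨J, hJ, τ, h0, hτ⟩ n
  let σ : J ⊕ I → BTree H := Sum.elim τ fun i => (u i).res ((MonoidHom.fst G A).comp f)
  refine hA H ((MonoidHom.snd G A).comp f) ⟨J ⊕ I, inferInstance, σ, fun h3 => by omega,
    fun v E hE => ?_⟩ n
  obtain ⟨h2, h3, h4⟩ := hτ (fun j => v (Sum.inl j)) E fun x hx j => hE hx (Sum.inl j)
  refine ⟨hlev h2 ?_, ?_⟩
  · have h5 : ((MonoidHom.fst G A).comp (f.comp E.subtype)).range =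
        (E.map f).map (MonoidHom.fst G A) := by
      rw [MonoidHom.range_comp, MonoidHom.range_comp, Subgroup.range_subtype]
    rw [h5]
    refine h _ h3 fun i => ⟨v (Sum.inr i), ?_⟩
    rintro _ ⟨_, ⟨x, hx, rfl⟩, rfl⟩
    exact hE hx (Sum.inr i)
  · rw [← Subgroup.map_map]
    exact h4

include hX in
theorem motP_tree (hT : StRelTree X) {l m : ℕ} (hm : m ≤ 1) (G : Type) [Group G]
    (F : Subgroup G → Prop) (t : TreeOn G) (h1 : ∀ v : t.V, X.MotP l m (MulAction.stabilizer G v)
      fun E => F (E.map (MulAction.stabilizer G v).subtype))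
    (h2 : X.MotP l m G fun E => F E ∧ t.FixS E) : X.MotP l m G F := by
  intro A _ F' hA
  have key : ∀ v : t.V, X.LStar m (MulAction.stabilizer (G × A)
      (show (t.res (MonoidHom.fst G A)).V from v))
      fun E => FP F F' (E.map (MulAction.stabilizer (G × A)
        (show (t.res (MonoidHom.fst G A)).V from v)).subtype) := by
    intro v
    obtain ⟨K, hK⟩ : ∃ K : Subgroup (G × A), K = MulAction.stabilizer (G × A)
      (show (t.res (MonoidHom.fst G A)).V from v) := ⟨_, rfl⟩
    rw [← hK]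
    have hK' : ∀ x : K, (x : G × A).1 ∈ MulAction.stabilizer G v := by
      rw [hK]
      exact fun x => x.2
    let i : K →* MulAction.stabilizer G v × A :=
      (((MonoidHom.fst G A).comp K.subtype).codRestrict _ hK').prod
        ((MonoidHom.snd G A).comp K.subtype)
    refine (h1 v A F' hA).pull hX i ?_ ?_
    · intro x y hxy
      have h3 : (x : G × A).1 = (y : G × A).1 :=
        congrArg (fun z : MulAction.stabilizer G v × A => (z.1 : G)) hxy
      have h4 : (x : G × A).2 = (y : G × A).2 :=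
        congrArg (fun z : MulAction.stabilizer G v × A => z.2) hxy
      exact Subtype.ext (Prod.ext h3 h4)
    · rintro E ⟨h3, h4⟩
      rw [Subgroup.map_map] at h3 h4
      refine ⟨?_, ?_⟩
      · change F (((E.map i).map _).map _)
        rw [Subgroup.map_map, Subgroup.map_map]
        exact h3
      · rw [Subgroup.map_map]
        exact h4
  refine hT m (G × A) (FP F F') (t.res (MonoidHom.fst G A)) key ?_
  rw [Nat.min_eq_left (hm.trans (Nat.le_succ 1))]
  refine (h2 A F' hA).mono hX ?_
  rintro E ⟨⟨h3, h4⟩, h5⟩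
  exact ⟨⟨h3, (t.fixS_res _ E).1 h5⟩, h4⟩

include hX in
theorem motP_colim (hC : StRelColim X) {l m : ℕ} (G : Type) [Group G] (F : Subgroup G → Prop)
    (H : Finset G → Type) [∀ s, Group (H s)] (f : ∀ s, H s →* G) (i : ∀ s, G → H s)
    (hi : ∀ s, (∀ a ∈ s, f s (i s a) = a) ∧ ∀ a ∈ s, ∀ b ∈ s, a * b ∈ s →
      i s a * i s b = i s (a * b))
    (h : ∀ s, X.MotP l m (H s) fun E => F (E.map (f s))) : X.MotP l m G F := by
  classical
  intro A _ F' hA
  refine hC m (G × A) (FP F F') fun s => ?_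
  refine ⟨H (s.image Prod.fst) × A, inferInstance,
    (f (s.image Prod.fst)).prodMap (MonoidHom.id A),
    fun x => (i (s.image Prod.fst) x.1, x.2), fun x hx => ?_, fun x hx y hy hxy => ?_, ?_⟩
  · exact Prod.ext ((hi _).1 _ (Finset.mem_image_of_mem _ hx)) rfl
  · refine Prod.ext ?_ rfl
    exact (hi _).2 _ (Finset.mem_image_of_mem _ hx) _ (Finset.mem_image_of_mem _ hy)
      (Finset.mem_image_of_mem Prod.fst hxy)
  · refine (h (s.image Prod.fst) A F' hA).mono hX ?_
    rintro E ⟨h3, h4⟩
    rw [Subgroup.map_map] at h3 h4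
    refine ⟨?_, h4⟩
    change F ((E.map _).map _)
    rw [Subgroup.map_map]
    exact h3

include hX in
theorem motP_lift {l m : ℕ} (hm : m ≤ 1) {G : Type} [Group G] {F : Subgroup G → Prop} {H : Type}
    [Group H] (i : H →* G) {F' : Subgroup H → Prop} {J : Type} [Finite J] (τ : J → BTree H)
    (hi : ∀ v, X.KerOK m i (stabV τ v)) (hF : ∀ E, F' E → F (E.map i)) (h : X.MotP l m G F) :
    X.MotP l m H F' := by
  intro A _ F'' hA
  refine (h A F'' hA).lift hX (i.prodMap (MonoidHom.id A)) (fun j => (τ j).res (MonoidHom.fst H A))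
    (fun h3 => by omega) (fun v => ?_) ?_
  · obtain ⟨S, hS⟩ : ∃ S : Subgroup (H × A), S = stabV (fun j => (τ j).res (MonoidHom.fst H A)) v :=
      ⟨_, rfl⟩
    rw [← hS]
    have hS' : ∀ x ∈ S, x.1 ∈ stabV τ v := by
      rw [hS]
      exact fun x hx => hx
    rcases hi v with h1 | ⟨h1, P, _, p, hP, hk⟩
    · refine Or.inl fun x hx hx' => ?_
      have h2 : i x.1 = 1 := congrArg (fun z : G × A => z.1) hx'
      have h3 : x.2 = 1 := congrArg (fun z : G × A => z.2) hx'
      exact Prod.ext (h1 _ (hS' x hx) h2) h3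
    · let q : S →* stabV τ v := ((MonoidHom.fst H A).comp S.subtype).codRestrict _
        fun x => hS' x x.2
      refine Or.inr ⟨h1, P, inferInstance, p.comp q, hP, ?_⟩
      refine hX.N_inj ((q.comp (Subgroup.subtype _)).codRestrict _ ?_) ?_ hk
      · rintro ⟨x, hx⟩
        have h2 : ((i.prodMap (MonoidHom.id A)) x, p (q x)) = (1 : (G × A) × P) := hx
        have h3 : i (x : H × A).1 = 1 := congrArg (fun z : (G × A) × P => z.1.1) h2
        have h4 : p (q x) = 1 := congrArg (fun z : (G × A) × P => z.2) h2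
        exact Prod.ext h3 h4
      · rintro ⟨x, hx⟩ ⟨y, hy⟩ hxy
        have h2 : ((i.prodMap (MonoidHom.id A)) x, p (q x)) = (1 : (G × A) × P) := hx
        have h3 : ((i.prodMap (MonoidHom.id A)) y, p (q y)) = (1 : (G × A) × P) := hy
        have h4 : (x : H × A).2 = 1 := congrArg (fun z : (G × A) × P => z.1.2) h2
        have h5 : (y : H × A).2 = 1 := congrArg (fun z : (G × A) × P => z.1.2) h3
        have h6 : q x = q y := congrArg Subtype.val hxy
        have h7 : (x : H × A).1 = (y : H × A).1 := congrArg Subtype.val h6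
        exact Subtype.ext (Subtype.ext (Prod.ext h7 (h4.trans h5.symm)))
  · rintro E ⟨h3, h4⟩
    have h5 := hF _ h3
    rw [Subgroup.map_map] at h5
    refine ⟨?_, ?_⟩
    · rw [Subgroup.map_map]
      exact h5
    · rw [Subgroup.map_map]
      exact h4

include hX in
theorem motP_prod {l m : ℕ} {G A : Type} [Group G] [Group A] {F : Subgroup G → Prop}
    {F' : Subgroup A → Prop} (hG : X.MotP l m G F) (hA : X.MotP l l A F') :
    X.MotP l m (G × A) (FP F F') := by
  intro B _ F'' hB
  refine (hG (A × B) (FP F' F'') (hA B F'' hB)).pull hX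
    (MulEquiv.prodAssoc (M := G) (N := A) (P := B)).toMonoidHom
    (MulEquiv.prodAssoc (M := G) (N := A) (P := B)).injective ?_
  rintro E ⟨⟨h3, h4⟩, h5⟩
  rw [Subgroup.map_map] at h3 h4
  refine ⟨?_, ?_, ?_⟩
  · rw [Subgroup.map_map]
    exact h3
  · rw [Subgroup.map_map, Subgroup.map_map]
    exact h4
  · rw [Subgroup.map_map, Subgroup.map_map]
    exact h5

include hX in
/-- The trivial group. -/
theorem lStar_unit (hB : StRelBase X) : X.LStar 0 PUnit fun _ => True :=
  hB 0 PUnit _ Empty (fun i => i.elim) fun _ _ _ =>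
    hX.E_triv ⟨fun _ _ => Subtype.ext (Subsingleton.elim _ _)⟩

include hX in
theorem motP_lStar (hB : StRelBase X) {m : ℕ} {G : Type} [Group G] {F : Subgroup G → Prop}
    (h : X.MotP 0 m G F) : X.LStar m G F := by
  refine (h PUnit _ (lStar_unit hX hB)).pull hX (MonoidHom.inl G PUnit)
    (fun x y hxy => congrArg Prod.fst hxy) fun E hE => ⟨?_, trivial⟩
  rw [Subgroup.map_map, MonoidHom.fst_comp_inl, Subgroup.map_id]
  exact hE

include hX in
theorem mot_lStar (hB : StRelBase X) {l : ℕ} {G : Type} [Group G] {F : Subgroup G → Prop}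
    (h : X.Mot l G F) : X.LStar 3 G F := by
  obtain _ | _ | _ | l := l
  · exact (motP_lStar hX hB h.1).level hX (Nat.zero_le 3)
  · exact (motP_lStar hX hB h).level hX (by omega)
  · exact Cls.LStar.level hX (by omega) h
  · exact h

theorem kerOK_level {l m : ℕ} (hm : m ≤ 1) {H G : Type} [Group H] [Group G] {f : H →* G}
    {E : Subgroup H} (h : X.KerOK l f E) : X.KerOK m f E := by
  rcases h with h | ⟨_, h⟩
  · exact Or.inl h
  · exact Or.inr ⟨hm, h⟩

include hX in
/-- The class of pairs. -/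
theorem cl_mot (hB : StRelBase X) (hT : StRelTree X) (hC : StRelColim X) {l : ℕ} {G : Type}
    [Group G] {F : Subgroup G → Prop} (h : X.Cl l G F) : X.Mot l G F := by
  induction h with
  | base l G F I u h =>
    obtain _ | _ | _ | l := l
    · exact ⟨motP_base (by omega) (rl_snd_zero hX) G F I u h,
        motP_base le_rfl (rl_snd_one hX) G F I u h⟩
    · exact motP_base (by omega) (rl_snd_b1 hX) G F I u h
    · exact hB 2 G F I u h
    · exact hB 3 G F I u h
  | good G F h => exact lStar_of_good F h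
  | tree l G F t _ _ ih1 ih2 =>
    obtain _ | _ | _ | l := l
    · exact ⟨motP_tree hX hT (by omega) G F t (fun v => (ih1 v).1) ih2.1,
        motP_tree hX hT le_rfl G F t (fun v => (ih1 v).2) ih2.2⟩
    · exact motP_tree hX hT le_rfl G F t ih1 ih2
    · exact hT 2 G F t ih1 ih2
    · refine hT 3 G F t ih1 ?_
      rw [Nat.min_eq_right (by omega)] at ih2 ⊢
      exact ih2
  | colim l G F H f i hi _ ih =>
    obtain _ | _ | _ | l := l
    · exact ⟨motP_colim hX hC G F H f i hi fun s => (ih s).1,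
        motP_colim hX hC G F H f i hi fun s => (ih s).2⟩
    · exact motP_colim hX hC G F H f i hi ih
    · exact hC 2 G F fun s => ⟨H s, inferInstance, f s, i s, (hi s).1, (hi s).2, ih s⟩
    · exact hC 3 G F fun s => ⟨H s, inferInstance, f s, i s, (hi s).1, (hi s).2, ih s⟩
  | lift l G F H f F' J τ h0 hf hF _ ih =>
    obtain _ | _ | _ | l := l
    · exact ⟨motP_lift hX (by omega) f τ (fun v => kerOK_level (by omega) (hf v)) hF ih.1,
        motP_lift hX le_rfl f τ (fun v => kerOK_level le_rfl (hf v)) hF ih.2⟩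
    · exact motP_lift hX le_rfl f τ hf hF ih
    · exact Cls.LStar.lift hX ih f τ h0 hf hF
    · refine Cls.LStar.lift hX (l := 3) ih f τ (fun _ => h0 (by omega)) (fun v => ?_) hF
      rcases hf v with h | ⟨h, _⟩
      · exact Or.inl h
      · omega
  | prod l G A F F' hl _ _ ihG ihA =>
    obtain _ | _ | l := l
    · exact ⟨motP_prod hX ihG.1 ihA.1, motP_prod hX ihG.2 ihA.2⟩
    · exact motP_prod hX ihG ihA.1
    · omega
  | mono l G F _ ih =>
    obtain _ | _ | _ | l := l
    · exact fun A _ F' hA => (ih.1 A F' hA).level hX (Nat.zero_le 1)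
    · exact (motP_lStar hX hB ih).level hX (Nat.le_succ 1)
    · exact Cls.LStar.level hX (by omega) ih
    · exact ih

include hX in
/-- Module M6. -/
theorem stCl (hB : StRelBase X) (hT : StRelTree X) (hC : StRelColim X) : StCl X :=
  fun _ _ _ _ h => mot_lStar hX hB (cl_mot hX hB hT hC h)

end

end Pool.Agent.Lib.MP_551055_al.RI
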