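import Mathlib
import Pool.Agent.Lib.MP_551055_al.Trim.LS.PStmts
import Pool.Agent.Lib.MP_551055_al.Trim.MT.Defs
import Pool.Agent.Lib.MP_551055_al.Trim.MT.Gen
import Pool.Agent.Lib.MP_551055_al.Trim.MT.Main
import Pool.Agent.Lib.MP_551055_al.Trim.MT.RCU
import Pool.Agent.Lib.MP_551055_al.Trim.MT.StA
import Pool.Agent.Lib.MP_551055_al.Trim.PT.PSub
import Pool.Agent.Lib.MP_551055_al.Trim.RI.Basic
import Pool.Agent.Lib.MP_551055_al.Trim.RI.FinalH
import Pool.Agent.Lib.MP_551055_al.Trim.RI.HNN
import Pool.Agent.Lib.MP_551055_al.Trim.RI.HNN2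
import Pool.Agent.Lib.MP_551055_al.Trim.RI.Prod
import Pool.Agent.Lib.MP_551055_al.Trim.RI.Rel
import Pool.Agent.Lib.MP_551055_al.Trim.RI.Stmts
import Pool.Agent.Lib.MP_551055_al.Trim.VNDefs

/-!
# Relative inheritance: assembly
-/

set_option autoImplicit false

namespace Pool.Agent.Lib.MP_551055_al
end Pool.Agent.Lib.MP_551055_al

namespace Pool.Agent.Lib.MP_551055_al.LS
end Pool.Agent.Lib.MP_551055_al.LS

namespace Pool.Agent.Lib.MP_551055_al.LO
end Pool.Agent.Lib.MP_551055_al.LO

namespace Pool.Agent.Lib.MP_551055_al.T4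
end Pool.Agent.Lib.MP_551055_al.T4

namespace Pool.Agent.Lib.MP_551055_al.RI

open Pool.Agent.Lib.MP_551055_al

open Pool.Agent.Lib.MP_551055_al.LS

open Pool.Agent.Lib.MP_551055_al.LO

open Pool.Agent.Lib.MP_551055_al.T4

section

variable {X : Cls} (hX : X.Ok)

include hX

theorem riRelBase : StRelBase X := stRelBase hX

theorem riRelTree : StRelTree X := stRelTree hX stFinalH stHNN

theorem riCl : StCl X := stCl hX (riRelBase hX) (riRelTree hX) (stRelColim X)

theorem Cls.LStar.good {l : ℕ} {G : Type} [Group G] (h : X.LStar l G fun _ => True) (n : ℕ) :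
    VN.ProjStFree (G × ZN n) := by
  refine h G (MonoidHom.id G) ⟨Empty, inferInstance, fun j => j.elim, fun _ => inferInstance,
    fun v E _ => ⟨?_, trivial⟩⟩ n
  exact rl_of_injective hX l Subtype.val_injective

/-- Groups in the class are good. -/
theorem cl_good {l : ℕ} {G : Type} [Group G] (h : X.Cl l G fun _ => True) (n : ℕ) :
    VN.ProjStFree (G × ZN n) := (riCl hX l G _ h).good hX n

end

/-- Injective homomorphisms. -/
theorem Cls.Cl.pull {X : Cls} {l : ℕ} {G : Type} [Group G] {F : Subgroup G → Prop}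
    (h : X.Cl l G F) {H : Type} [Group H] (i : H →* G) (hi : Function.Injective i)
    {F' : Subgroup H → Prop} (hF : ∀ E, F' E → F (E.map i)) : X.Cl l H F' :=
  Cls.Cl.lift l G F H i F' Empty (fun j => j.elim) (fun _ => inferInstance)
    (fun _ => kerOK_of_injective l hi _) hF h

/-! ## Small groups as base groups -/

theorem T1.rcs' {P : Type} [Group P] (h : T1 P) : MT.RCs P := h.rcs MT.mtRCT2 MT.stRCU

/-- The closure properties of the classes `E` and `N`. -/
structure EN (E N B : ∀ (P : Type) [Group P], Prop) : Prop where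
  E_inj : ∀ {P Q : Type} [Group P] [Group Q] (i : Q →* P), Function.Injective i → E P → E Q
  E_prod : ∀ {P Q : Type} [Group P] [Group Q], E P → E Q → E (P × Q)
  E_ext : ∀ {P Q : Type} [Group P] [Group Q] (g : P →* Q), E Q → N g.ker → E P
  E_B : ∀ {P : Type} [Group P], E P → B P
  E_triv : ∀ {P : Type} [Group P], Subsingleton P → E P
  N_inj : ∀ {P Q : Type} [Group P] [Group Q] (i : Q →* P), Function.Injective i → N P → N Q
  N_ext : ∀ {P Q : Type} [Group P] [Group Q] (g : P →* Q), N Q → N g.ker → N P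
  N_triv : ∀ {P : Type} [Group P], Subsingleton P → N P

/-- The theorem for groups acting on finitely many trees with base groups in `B`. -/
structure MainB (B : ∀ (P : Type) [Group P], Prop) : Prop where
  B_iso : ∀ {P Q : Type} [Group P] [Group Q], P ≃* Q → B P → B Q
  main : ∀ (G : Type) [Group G] (J : Type) [Finite J] (τ : J → BTree G),
    (∀ v (E : Subgroup G), E ≤ stabV τ v → B E) → ∀ n : ℕ, VN.ProjStFree (G × ZN n)

theorem EN.ok {E N B : ∀ (P : Type) [Group P], Prop} (h : EN E N B) (hB : MainB B) :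
    Cls.Ok ⟨E, N, B⟩ where
  E_inj := h.E_inj
  E_prod := h.E_prod
  E_ext := h.E_ext
  E_B := h.E_B
  E_triv := h.E_triv
  N_inj := h.N_inj
  N_ext := h.N_ext
  N_triv := h.N_triv
  B_iso := hB.B_iso
  main := hB.main

theorem mainB_rcs : MainB fun P => MT.RCs P where
  B_iso := fun e h => MT.mtR3.1 _ _ e h
  main := by
    intro G _ J _ τ hτ n
    exact MT.mtMain G J (fun j => (τ j).V) (fun j => (τ j).T) (fun j => (τ j).tree)
      (fun v H hH => hτ v H fun x hx j => hH x hx j) n

/-- Locally poly-`ℤ` groups and poly-`ℤ` groups. -/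
theorem en_lpz {B : ∀ (P : Type) [Group P], Prop} (h : ∀ {P : Type} [Group P], LPZ P → B P) :
    EN (fun P => LPZ P) (fun P => PolyZ P) B where
  E_inj := fun i hi h => h.of_injective i hi
  E_prod := fun h h' => h.prod h'
  E_ext := fun g h h' => h.ext g h'
  E_B := h
  E_triv := fun h => LPZ.of_subsingleton h
  N_inj := fun i hi h => PT.PSub.of_injective _ h _ i hi
  N_ext := fun g h h' => polyZ_ext _ h _ g h'
  N_triv := fun h => PolyZ.triv _ h

/-- The class with locally poly-`ℤ` edge groups and small base groups. -/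
def XP : Cls := ⟨fun P => LPZ P, fun P => PolyZ P, fun P => MT.RCs P⟩

theorem xp_ok : XP.Ok := (en_lpz fun h => h.t1.rcs').ok mainB_rcs

/-- Groups acting (locally) on a tree with poly-`ℤ` vertex stabilisers are base groups of
level one. -/
theorem T1.b1 {P : Type} [Group P] (h : T1 P) : XP.B1 P := fun _ _ _ _ g hA hN =>
  ((h.prod hA).ext g hN).rcs'

end Pool.Agent.Lib.MP_551055_al.RI
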