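import Mathlib
import Pool.Agent.Lib.MP_551055_al.Trim.MT.K1
import Pool.Agent.Lib.MP_551055_al.Trim.RI.Main
import Pool.Agent.Lib.MP_551055_al.Trim.RI.Stmts
import Pool.Agent.Lib.MP_551055_al.Trim.T6.Clo
import Pool.Agent.Lib.MP_551055_al.Trim.T6.Nil
import Pool.Agent.Lib.MP_551055_al.Trim.W17.FS
import Pool.Agent.Lib.MP_551055_al.Trim.W17.FT
import Pool.Agent.Lib.MP_551055_al.Trim.W17.StF

/-!
# Relative inheritance: base groups with locally perfect kernels
-/

set_option autoImplicit false

namespace Pool.Agent.Lib.MP_551055_al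
end Pool.Agent.Lib.MP_551055_al

namespace Pool.Agent.Lib.MP_551055_al.LS
end Pool.Agent.Lib.MP_551055_al.LS

namespace Pool.Agent.Lib.MP_551055_al.RI

open Pool.Agent.Lib.MP_551055_al

open Pool.Agent.Lib.MP_551055_al.LS

/-- The finitely generated projective modules are stably free and the kernels are locally
perfect. -/
def PB (P : Type) [Group P] : Prop := W17.SF P ∧ T6.StLPS P

theorem mainB_perfect (hT : W17.StT) : MainB fun P => PB P where
  B_iso := fun e h => ⟨W17.SF.congr e h.1, T6.StLPS.congr e h.2⟩
  main := by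
    intro G _ J _ τ hτ n
    have key : ∀ v w : ∀ j, (τ j).V, PB (MulAction.stabilizer G (v, w)) := by
      intro v w
      refine hτ v _ fun x hx j => ?_
      exact congrFun (congrArg Prod.fst (MulAction.mem_stabilizer_iff.1 hx)) j
    exact hT G J (fun j => (τ j).V) (fun j => (τ j).T) (fun j => (τ j).tree)
      (fun v w _ => (key v w).1) (fun v w _ _ => (key v w).2) n

end Pool.Agent.Lib.MP_551055_al.RI
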