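import Mathlib
import Pool.Agent.Lib.MP_551055_al.Trim.LS.PFree
import Pool.Agent.Lib.MP_551055_al.Trim.LS.PStmts
import Pool.Agent.Lib.MP_551055_al.Trim.LS.PStmts2
import Pool.Agent.Lib.MP_551055_al.Trim.LS.Stmts
import Pool.Agent.Lib.MP_551055_al.Trim.MT.Defs
import Pool.Agent.Lib.MP_551055_al.Trim.MT.Flow2
import Pool.Agent.Lib.MP_551055_al.Trim.MT.StA
import Pool.Agent.Lib.MP_551055_al.Trim.RI.MainT
import Pool.Agent.Lib.MP_551055_al.Trim.T4.Ind0
import Pool.Agent.Lib.MP_551055_al.Trim.T6.Nil
import Pool.Agent.Lib.MP_551055_al.Trim.W17.StF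

/-!
# Small groups are base groups
-/

set_option autoImplicit false

namespace Pool.Agent.Lib.MP_551055_al
end Pool.Agent.Lib.MP_551055_al

namespace Pool.Agent.Lib.MP_551055_al.LS
end Pool.Agent.Lib.MP_551055_al.LS

namespace Pool.Agent.Lib.MP_551055_al.RI

open Pool.Agent.Lib.MP_551055_al

open Pool.Agent.Lib.MP_551055_al.LS

theorem stFree_of_fff {R : Type} [Ring R] (d : ℕ) : ∀ (P : Type) [AddCommGroup P] [Module R P],
    Module.Projective R P → FFF R d P →
      ∃ n m : ℕ, Nonempty ((P × (Fin n → R)) ≃ₗ[R] (Fin m → R)) := by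
  induction d with
  | zero =>
    rintro P _ _ _ ⟨n, ⟨e⟩⟩
    refine ⟨0, n, ⟨?_⟩⟩
    exact (LinearEquiv.prodUnique).trans e
  | succ d ih =>
    rintro P _ _ hP ⟨n, f, hf, h⟩
    obtain ⟨s, hs⟩ := Module.projective_lifting_property f LinearMap.id hf
    have hfs : ∀ x, f (s x) = x := fun x => LinearMap.congr_fun hs x
    -- the splitting
    let e : (Fin n → R) ≃ₗ[R] P × LinearMap.ker f :=
      { toFun := fun x => (f x, ⟨x - s (f x), by
          rw [LinearMap.mem_ker, map_sub, hfs, sub_self]⟩)
        map_add' := fun x y => by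
          refine Prod.ext (map_add f x y) (Subtype.ext ?_)
          change x + y - s (f (x + y)) = (x - s (f x)) + (y - s (f y))
          rw [map_add, map_add]
          abel
        map_smul' := fun r x => by
          refine Prod.ext (map_smul f r x) (Subtype.ext ?_)
          change r • x - s (f (r • x)) = r • (x - s (f x))
          rw [map_smul, map_smul, smul_sub]
        invFun := fun y => s y.1 + y.2
        left_inv := fun x => by
          change s (f x) + (x - s (f x)) = x
          abel
        right_inv := fun y => by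
          have h1 : f (s y.1 + y.2) = y.1 := by
            rw [map_add, hfs, LinearMap.mem_ker.1 y.2.2, add_zero]
          refine Prod.ext h1 (Subtype.ext ?_)
          change s y.1 + y.2 - s (f (s y.1 + y.2)) = y.2
          rw [h1]
          abel }
    have hK : Module.Projective R (LinearMap.ker f) := by
      have h1 : Module.Projective R (P × LinearMap.ker f) := Module.Projective.of_equiv e
      refine Module.Projective.of_split (LinearMap.inr R P (LinearMap.ker f))
        (LinearMap.snd R P (LinearMap.ker f)) ?_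
      ext x
      rfl
    obtain ⟨a, b, ⟨e'⟩⟩ := ih _ hK h
    refine ⟨b, n + a, ⟨?_⟩⟩
    have e1 : (P × (Fin b → R)) ≃ₗ[R] P × (LinearMap.ker f × (Fin a → R)) :=
      LinearEquiv.prodCongr (LinearEquiv.refl R P) e'.symm
    have e2 : (P × (LinearMap.ker f × (Fin a → R))) ≃ₗ[R]
        ((P × LinearMap.ker f) × (Fin a → R)) := (LinearEquiv.prodAssoc R P _ _).symm
    have e3 : ((P × LinearMap.ker f) × (Fin a → R)) ≃ₗ[R] (Fin n → R) × (Fin a → R) :=
      LinearEquiv.prodCongr e.symm (LinearEquiv.refl R _)
    have e4 : ((Fin n → R) × (Fin a → R)) ≃ₗ[R] (Fin n ⊕ Fin a → R) :=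
      (LinearEquiv.sumArrowLequivProdArrow (Fin n) (Fin a) R R).symm
    have e5 : (Fin n ⊕ Fin a → R) ≃ₗ[R] (Fin (n + a) → R) :=
      LinearEquiv.funCongrLeft R R finSumFinEquiv.symm
    exact (((e1.trans e2).trans e3).trans e4).trans e5

theorem stFree_of_rc {R : Type} [Ring R] (h : MT.RC R) (P : Type) [AddCommGroup P] [Module R P]
    (hfin : Module.Finite R P) (hP : Module.Projective R P) :
    ∃ n m : ℕ, Nonempty ((P × (Fin n → R)) ≃ₗ[R] (Fin m → R)) := by
  obtain ⟨n, f, hf⟩ := Module.Finite.exists_fin' R P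
  obtain ⟨s, hs⟩ := Module.projective_lifting_property f LinearMap.id hf
  have hfs : ∀ x, f (s x) = x := fun x => LinearMap.congr_fun hs x
  obtain ⟨d, hd⟩ := h n n (LinearMap.id - s.comp f)
  have e : LinearMap.ker (LinearMap.id - s.comp f) ≃ₗ[R] P :=
    { toFun := fun x => f x
      map_add' := fun x y => map_add f _ _
      map_smul' := fun r x => map_smul f _ _
      invFun := fun y => ⟨s y, by
        rw [LinearMap.mem_ker]
        change s y - s (f (s y)) = 0
        rw [hfs, sub_self]⟩
      left_inv := fun x => by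
        apply Subtype.ext
        have h1 : (x : Fin n → R) - s (f x) = 0 := x.2
        exact (sub_eq_zero.1 h1).symm
      right_inv := fun y => hfs y }
  exact stFree_of_fff d P hP (hd.congr e)

/-- Small groups are base groups. -/
theorem PB.of_rcs {P : Type} [Group P] (h : MT.RCs P) : PB P := by
  refine ⟨fun m M _ _ hf hp => stFree_of_rc (h m).1 M hf hp, fun m n a f s hs => ?_⟩
  obtain ⟨d, hd⟩ := (h m).1 n a f
  refine ⟨0, (LinearMap.ker f).comap (LinearMap.fst _ (Fin n → _) (Fin 0 → _)), fun y hy => hy,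
    fun x hx => hs x hx, d, ?_⟩
  refine (hd.congr ?_).toFFR
  exact
    { toFun := fun x => ⟨(x.1, 0), show f x.1 = 0 from x.2⟩
      map_add' := fun x y => Subtype.ext (Prod.ext rfl (Subsingleton.elim _ _))
      map_smul' := fun r x => Subtype.ext (Prod.ext rfl (Subsingleton.elim _ _))
      invFun := fun y => ⟨y.1.1, y.2⟩
      left_inv := fun x => rfl
      right_inv := fun y => Subtype.ext (Prod.ext rfl (Subsingleton.elim _ _)) }

end Pool.Agent.Lib.MP_551055_al.RI
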