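import Mathlib
import Pool.Agent.Lib.MP_551055_al.Trim.LD.NG
import Pool.Agent.Lib.MP_551055_al.Trim.LS.PFree
import Pool.Agent.Lib.MP_551055_al.Trim.LS.PStmts
import Pool.Agent.Lib.MP_551055_al.Trim.LS.PStmts2
import Pool.Agent.Lib.MP_551055_al.Trim.LS.Stmts
import Pool.Agent.Lib.MP_551055_al.Trim.LS.Stmts3
import Pool.Agent.Lib.MP_551055_al.Trim.MT.Defs
import Pool.Agent.Lib.MP_551055_al.Trim.MT.RCU
import Pool.Agent.Lib.MP_551055_al.Trim.MT.StA
import Pool.Agent.Lib.MP_551055_al.Trim.RI.Basic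
import Pool.Agent.Lib.MP_551055_al.Trim.RI.Main
import Pool.Agent.Lib.MP_551055_al.Trim.RI.MainT
import Pool.Agent.Lib.MP_551055_al.Trim.RI.OfRC
import Pool.Agent.Lib.MP_551055_al.Trim.RI.Stmts
import Pool.Agent.Lib.MP_551055_al.Trim.T4.Perf
import Pool.Agent.Lib.MP_551055_al.Trim.T6.Clo
import Pool.Agent.Lib.MP_551055_al.Trim.T6.GenF
import Pool.Agent.Lib.MP_551055_al.Trim.T6.Nil
import Pool.Agent.Lib.MP_551055_al.Trim.W17.FT
import Pool.Agent.Lib.MP_551055_al.Trim.W17.StF

/-!
# Relative inheritance: groups acting on a tree with vertex stabilisers in the class `T1`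
-/

set_option autoImplicit false

namespace Pool.Agent.Lib.MP_551055_al
end Pool.Agent.Lib.MP_551055_al

namespace Pool.Agent.Lib.MP_551055_al.LS
end Pool.Agent.Lib.MP_551055_al.LS

namespace Pool.Agent.Lib.MP_551055_al.RI

open Pool.Agent.Lib.MP_551055_al

open Pool.Agent.Lib.MP_551055_al.LS

/-- Every finite subset is contained in a subgroup which acts on a tree with vertex stabilisers in
the class `T1`. -/
def T2 (P : Type) [Group P] : Prop :=
  ∀ s : Finset P, ∃ (K : Subgroup P) (t : BTree K), (s : Set P) ⊆ K ∧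
    ∀ v : t.V, T1 (MulAction.stabilizer K v)

theorem T2.of_tree {P : Type} [Group P] (t : BTree P)
    (h : ∀ v : t.V, T1 (MulAction.stabilizer P v)) : T2 P := by
  intro s
  refine ⟨⊤, t.res (⊤ : Subgroup P).subtype, fun _ _ => Subgroup.mem_top _, fun v => ?_⟩
  refine (h v).of_injective
    (((⊤ : Subgroup P).subtype.comp (MulAction.stabilizer _ v).subtype).codRestrict
      (MulAction.stabilizer P (show t.V from v)) fun x => x.2) ?_
  intro x y hxy
  have h1 : (x.1.1 : P) = y.1.1 :=
    congrArg (fun z : MulAction.stabilizer P (show t.V from v) => (z : P)) hxy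
  exact Subtype.ext (Subtype.ext h1)

theorem T2.prod {P Q : Type} [Group P] [Group Q] (hP : T2 P) (hQ : LPZ Q) : T2 (P × Q) := by
  classical
  intro s
  obtain ⟨K, t, hsK, hK⟩ := hP (s.image Prod.fst)
  let j : K.prod (⊤ : Subgroup Q) →* K := ((MonoidHom.fst P Q).comp (Subgroup.subtype _)).codRestrict
    K fun x => x.2.1
  refine ⟨K.prod ⊤, t.res j, fun x hx => ⟨hsK (by
    rw [Finset.coe_image]
    exact ⟨x, hx, rfl⟩), trivial⟩, fun v => ?_⟩
  refine ((hK v).prod hQ).of_injective
    (((j.comp (MulAction.stabilizer _ v).subtype).codRestrict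
    (MulAction.stabilizer K (show t.V from v)) fun x => x.2).prod
      ((MonoidHom.snd P Q).comp ((Subgroup.subtype _).comp (MulAction.stabilizer _ v).subtype))) ?_
  intro x y hxy
  have h1 : (x.1.1.1 : P) = y.1.1.1 :=
    congrArg (fun z => ((z.1 : MulAction.stabilizer K (show t.V from v)).1 : P)) hxy
  have h2 : (x.1.1.2 : Q) = y.1.1.2 := congrArg (fun z => (z.2 : Q)) hxy
  exact Subtype.ext (Subtype.ext (Prod.ext h1 h2))

/-- Extensions with poly-`ℤ` kernel. -/
theorem T2.ext {R Q : Type} [Group R] [Group Q] (hQ : T2 Q) (g : R →* Q) (hk : PolyZ g.ker) :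
    T2 R := by
  classical
  intro s
  obtain ⟨K, t, hsK, hK⟩ := hQ (s.image g)
  let g' : K.comap g →* K := (g.comp (K.comap g).subtype).codRestrict K fun x => x.2
  refine ⟨K.comap g, t.res g', fun x hx => hsK (by
    rw [Finset.coe_image]
    exact ⟨x, hx, rfl⟩), fun v => ?_⟩
  obtain ⟨S, hS⟩ : ∃ S : Subgroup (K.comap g), S = MulAction.stabilizer (K.comap g) v := ⟨_, rfl⟩
  rw [← hS]
  have hS' : ∀ x : S, g' x ∈ MulAction.stabilizer K (show t.V from v) := by
    rw [hS]
    exact fun x => x.2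
  let g'' : S →* MulAction.stabilizer K (show t.V from v) := (g'.comp S.subtype).codRestrict _ hS'
  refine (hK v).ext g'' (polyZ_ker_restrict g hk ((K.comap g).subtype.comp S.subtype)
    (Subtype.val_injective.comp Subtype.val_injective) g'' fun x hx => ?_)
  have h1 : g' x = 1 := congrArg Subtype.val hx
  exact congrArg Subtype.val h1

/-! ## The kernels -/

/-- Finitely presented modules have finite resolutions if the kernels have. -/
theorem regCoh_of_rc {R : Type} [Ring R] (h : MT.RC R) : RegCoh R := by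
  intro M _ _ hM
  obtain ⟨n, m, f, g, hf, hg⟩ := Module.FinitePresentation.exists_fin' R M
  obtain ⟨d, hd⟩ := h m n g
  have hm : ∀ x, g x ∈ LinearMap.ker f := fun x => (hg (g x)).2 ⟨x, rfl⟩
  refine ⟨d + 1 + 1, n, f, hf, m, g.codRestrict (LinearMap.ker f) hm, ?_, ?_⟩
  · rintro ⟨y, hy⟩
    obtain ⟨x, rfl⟩ := (hg y).1 hy
    exact ⟨x, rfl⟩
  · rw [LinearMap.ker_codRestrict]
    exact hd.toFFR

/-- The kernels are locally perfect. -/
theorem T2.lps {P : Type} [Group P] (h : T2 P) : T6.StLPS P := by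
  refine T6.StLPS.of_local fun s => ?_
  obtain ⟨K, t, hsK, hK⟩ := h s
  refine ⟨K, hsK, T6.StLPS.of_treeRegCoh t.V t.T t.tree (fun v => (PB.of_rcs (hK v).rcs').2)
    fun u v _ m => ?_⟩
  have h1 : T1 (MulAction.stabilizer K (u, v)) := by
    refine (hK u).of_injective ((MulAction.stabilizer K (u, v)).subtype.codRestrict
      (MulAction.stabilizer K u) fun γ => congrArg Prod.fst (γ.2 : (γ : K) • (u, v) = (u, v))) ?_
    intro x y hxy
    exact Subtype.ext (congrArg (fun z : MulAction.stabilizer K u => (z : K)) hxy)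
  exact regCoh_of_rc (h1.rcs' m).1

/-- The tree with all segments long. -/
def BTree.all {G : Type} [Group G] (t : BTree G) : TreeOn G where
  toBTree := t
  S u v := u ≠ v
  inv g u v h h1 := h (smul_left_cancel g h1)
  bar :=
    { pro := fun u v w h _ hd hw => by
        subst hw
        rw [SimpleGraph.dist_self] at hd
        omega
      ray := fun x hx _ => ⟨1, le_rfl, (hx 0).ne⟩ }

theorem T2.cl {P : Type} [Group P] (h : T2 P) : XP.Cl 1 P fun _ => True := by
  classical
  choose K t hsK hK using h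
  refine Cls.Cl.colim 1 P _ (fun s => K s) (fun s => (K s).subtype)
    (fun s a => if ha : a ∈ K s then ⟨a, ha⟩ else 1) (fun s => ?_) fun s => ?_
  · have h1 : ∀ a ∈ s, a ∈ K s := fun a ha => hsK s ha
    refine ⟨fun a ha => ?_, fun a ha b hb hab => ?_⟩
    · rw [dif_pos (h1 a ha)]
      rfl
    · rw [dif_pos (h1 a ha), dif_pos (h1 b hb), dif_pos (h1 _ hab)]
      rfl
  · refine Cls.Cl.tree 1 (K s) _ (t s).all (fun v => ?_) ?_
    · refine Cls.Cl.base 1 _ _ Empty (fun i => i.elim) fun E _ _ => ?_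
      exact ((hK s v).of_injective E.subtype Subtype.val_injective).b1
    · refine Cls.Cl.base 1 (K s) _ Unit (fun _ => t s) fun E hE hfix => ?_
      obtain ⟨v, hv⟩ := hfix ()
      exact ((hK s v).of_injective (E.subtype.codRestrict (MulAction.stabilizer (K s) v)
        fun x => hv x x.2) fun x y hxy => Subtype.ext
          (congrArg (fun z : MulAction.stabilizer (K s) v => (z : K s)) hxy)).b1

/-- Groups in `T2` are base groups. -/
theorem T2.pb {P : Type} [Group P] (h : T2 P) : PB P := ⟨cl_good xp_ok h.cl, h.lps⟩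

/-- The class with locally poly-`ℤ` edge groups and base groups with locally perfect kernels. -/
def XT : Cls := ⟨fun P => LPZ P, fun P => PolyZ P, fun P => PB P⟩

theorem xt_ok (hT : W17.StT) : XT.Ok := (en_lpz fun h => PB.of_rcs h.t1.rcs').ok (mainB_perfect hT)

theorem T2.b1 {P : Type} [Group P] (h : T2 P) : XT.B1 P := fun _ _ _ _ g hA hN =>
  ((h.prod hA).ext g hN).pb

end Pool.Agent.Lib.MP_551055_al.RI
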