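import Mathlib
import Pool.Agent.Lib.MP_551055_al.Trim.LD.NG
import Pool.Agent.Lib.MP_551055_al.Trim.LS.PStmts
import Pool.Agent.Lib.MP_551055_al.Trim.MT.Defs
import Pool.Agent.Lib.MP_551055_al.Trim.MT.RCU
import Pool.Agent.Lib.MP_551055_al.Trim.MT.StA
import Pool.Agent.Lib.MP_551055_al.Trim.RI.Main
import Pool.Agent.Lib.MP_551055_al.Trim.RI.MainT
import Pool.Agent.Lib.MP_551055_al.Trim.RI.OfRC
import Pool.Agent.Lib.MP_551055_al.Trim.RI.Stmts
import Pool.Agent.Lib.MP_551055_al.Trim.RI.T2
import Pool.Agent.Lib.MP_551055_al.Trim.T4.Perf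
import Pool.Agent.Lib.MP_551055_al.Trim.T6.Clo
import Pool.Agent.Lib.MP_551055_al.Trim.T6.GenF
import Pool.Agent.Lib.MP_551055_al.Trim.T6.Nil
import Pool.Agent.Lib.MP_551055_al.Trim.W17.StF

/-!
# Relative inheritance: groups acting on a tree, the vertex stabilisers are base groups of level one

The class `XT.B1` (base groups with locally perfect kernels) contains the groups acting locally on a
tree with vertex stabilisers in `XP.B1` (small base groups).
-/

set_option autoImplicit false

namespace Pool.Agent.Lib.MP_551055_al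
end Pool.Agent.Lib.MP_551055_al

namespace Pool.Agent.Lib.MP_551055_al.LS
end Pool.Agent.Lib.MP_551055_al.LS

namespace Pool.Agent.Lib.MP_551055_al.RI

open Pool.Agent.Lib.MP_551055_al

open Pool.Agent.Lib.MP_551055_al.LS

/-- The class of base groups of level one is closed under extensions of subgroups of products. -/
theorem Cls.B1.hered {X : Cls} (hX : X.Ok) {P R A : Type} [Group P] [Group R] [Group A]
    (h : X.B1 P) (g : R →* P × A) (hA : X.E A) (hg : X.N g.ker) : X.B1 R := by
  intro S B _ _ f hB hf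
  let k : P × A →* A := MonoidHom.snd P A
  let G : S →* P × (A × B) := ((MonoidHom.fst P A).comp (g.comp ((MonoidHom.fst R B).comp f))).prod
    ((k.comp (g.comp ((MonoidHom.fst R B).comp f))).prod ((MonoidHom.snd R B).comp f))
  refine h S (A × B) G (hX.E_prod hA hB) ?_
  have h1 : ∀ x, G x = 1 → g (f x).1 = 1 ∧ (f x).2 = 1 := by
    intro x hx
    have e1 : (g (f x).1).1 = 1 := congrArg (fun z : P × (A × B) => z.1) hx
    have e2 : (g (f x).1).2 = 1 := congrArg (fun z : P × (A × B) => z.2.1) hx
    have e3 : (f x).2 = 1 := congrArg (fun z : P × (A × B) => z.2.2) hx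
    exact ⟨Prod.ext e1 e2, e3⟩
  let u : G.ker →* g.ker := ((MonoidHom.fst R B).comp (f.comp G.ker.subtype)).codRestrict g.ker
    fun x => (h1 x x.2).1
  refine hX.N_ext u hg ?_
  refine hX.N_inj ((G.ker.subtype.comp u.ker.subtype).codRestrict f.ker fun x => ?_) ?_ hf
  · have e1 : (f ((x : G.ker) : S)).1 = 1 := congrArg Subtype.val x.2
    exact Prod.ext e1 (h1 _ (x : G.ker).2).2
  · intro x y hxy
    exact Subtype.ext (Subtype.ext (congrArg (fun z : f.ker => (z : S)) hxy))

theorem Cls.B1.of_injective {X : Cls} (hX : X.Ok) {P R : Type} [Group P] [Group R]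
    (h : X.B1 P) (i : R →* P) (hi : Function.Injective i) : X.B1 R := by
  refine h.hered hX (i.prod (1 : R →* Unit)) (hX.E_triv inferInstance) (hX.N_triv ?_)
  refine ⟨fun x y => Subtype.ext (hi ?_)⟩
  have e1 : i x = 1 := congrArg Prod.fst x.2
  have e2 : i y = 1 := congrArg Prod.fst y.2
  rw [e1, e2]

theorem Cls.B1.base {X : Cls} (hX : X.Ok) {P : Type} [Group P] (h : X.B1 P) : X.B P := by
  refine h P Unit ((MonoidHom.id P).prod (1 : P →* Unit)) (hX.E_triv inferInstance) (hX.N_triv ?_)
  refine ⟨fun x y => Subtype.ext ?_⟩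
  have e1 : (x : P) = 1 := congrArg Prod.fst x.2
  have e2 : (y : P) = 1 := congrArg Prod.fst y.2
  rw [e1, e2]

/-- Every finite subset is contained in a subgroup which acts on a tree such that the vertex
stabilisers are small base groups of level one. -/
def T2B (P : Type) [Group P] : Prop :=
  ∀ s : Finset P, ∃ (K : Subgroup P) (t : BTree K), (s : Set P) ⊆ K ∧
    ∀ v : t.V, XP.B1 (MulAction.stabilizer K v)

/-- Extensions of subgroups of products. -/
theorem T2B.hered {P R A : Type} [Group P] [Group R] [Group A] (h : T2B P) (g : R →* P × A)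
    (hA : LPZ A) (hg : PolyZ g.ker) : T2B R := by
  classical
  intro s
  obtain ⟨K, t, hsK, hK⟩ := h (s.image fun x => (g x).1)
  let f : R →* P := (MonoidHom.fst P A).comp g
  let j : K.comap f →* K := (f.comp (K.comap f).subtype).codRestrict K fun x => x.2
  refine ⟨K.comap f, t.res j, fun x hx => hsK (by
    rw [Finset.coe_image]
    exact ⟨x, hx, rfl⟩), fun v => ?_⟩
  obtain ⟨S, hS⟩ : ∃ S : Subgroup (K.comap f), S = MulAction.stabilizer (K.comap f) v := ⟨_, rfl⟩
  rw [← hS]
  have hS' : ∀ x : S, j x ∈ MulAction.stabilizer K (show t.V from v) := by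
    rw [hS]
    exact fun x => x.2
  let i : S →* MulAction.stabilizer K (show t.V from v) := (j.comp S.subtype).codRestrict _ hS'
  let m : S →* A := (MonoidHom.snd P A).comp (g.comp ((K.comap f).subtype.comp S.subtype))
  refine (hK v).hered xp_ok (i.prod m) hA ?_
  refine xp_ok.N_inj ((((K.comap f).subtype.comp S.subtype).comp (i.prod m).ker.subtype).codRestrict
    g.ker fun x => ?_) ?_ hg
  · have e1 : i x = 1 := congrArg Prod.fst x.2
    have e2 : m x = 1 := congrArg Prod.snd x.2
    have e3 : j x = 1 := congrArg Subtype.val e1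
    exact Prod.ext (congrArg Subtype.val e3) e2
  · intro x y hxy
    exact Subtype.ext (Subtype.ext (Subtype.ext (congrArg (fun z : g.ker => (z : R)) hxy)))

/-- The kernels are locally perfect. -/
theorem T2B.lps {P : Type} [Group P] (h : T2B P) : T6.StLPS P := by
  refine T6.StLPS.of_local fun s => ?_
  obtain ⟨K, t, hsK, hK⟩ := h s
  refine ⟨K, hsK, T6.StLPS.of_treeRegCoh t.V t.T t.tree
    (fun v => (PB.of_rcs ((hK v).base xp_ok)).2) fun u v _ m => ?_⟩
  have h1 : XP.B1 (MulAction.stabilizer K (u, v)) := by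
    refine (hK u).of_injective xp_ok ((MulAction.stabilizer K (u, v)).subtype.codRestrict
      (MulAction.stabilizer K u) fun γ => congrArg Prod.fst (γ.2 : (γ : K) • (u, v) = (u, v))) ?_
    intro x y hxy
    exact Subtype.ext (congrArg (fun z : MulAction.stabilizer K u => (z : K)) hxy)
  exact regCoh_of_rc ((h1.base xp_ok) m).1

theorem T2B.cl {P : Type} [Group P] (h : T2B P) : XP.Cl 1 P fun _ => True := by
  classical
  choose K t hsK hK using h
  refine Cls.Cl.colim 1 P _ (fun s => K s) (fun s => (K s).subtype)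
    (fun s a => if ha : a ∈ K s then ⟨a, ha⟩ else 1) (fun s => ?_) fun s => ?_
  · have h1 : ∀ a ∈ s, a ∈ K s := fun a ha => hsK s ha
    refine ⟨fun a ha => ?_, fun a ha b hb hab => ?_⟩
    · rw [dif_pos (h1 a ha)]
      rfl
    · rw [dif_pos (h1 a ha), dif_pos (h1 b hb), dif_pos (h1 _ hab)]
      rfl
  · refine Cls.Cl.tree 1 (K s) _ (t s).all (fun v => ?_) ?_
    · refine Cls.Cl.base 1 _ _ Empty (fun i => i.elim) fun E _ _ => ?_
      exact (hK s v).of_injective xp_ok E.subtype Subtype.val_injective
    · refine Cls.Cl.base 1 (K s) _ Unit (fun _ => t s) fun E hE hfix => ?_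
      obtain ⟨v, hv⟩ := hfix ()
      exact (hK s v).of_injective xp_ok (E.subtype.codRestrict (MulAction.stabilizer (K s) v)
        fun x => hv x x.2) fun x y hxy => Subtype.ext
          (congrArg (fun z : MulAction.stabilizer (K s) v => (z : K s)) hxy)

/-- Groups in `T2B` are base groups. -/
theorem T2B.pb {P : Type} [Group P] (h : T2B P) : PB P := ⟨cl_good xp_ok h.cl, h.lps⟩

theorem T2B.b1 {P : Type} [Group P] (h : T2B P) : XT.B1 P := fun _ _ _ _ g hA hN =>
  (h.hered g hA hN).pb

end Pool.Agent.Lib.MP_551055_al.RI
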