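import Mathlib
import Pool.Agent.Lib.MP_551055_al.Trim.LS.Stmts
import Pool.Agent.Lib.MP_551055_al.Trim.RI.HNN
import Pool.Agent.Lib.MP_551055_al.Trim.RI.LiftNil
import Pool.Agent.Lib.MP_551055_al.Trim.RI.Stmts

/-!
# Module M4
-/

set_option autoImplicit false

namespace Pool.Agent.Lib.MP_551055_al
end Pool.Agent.Lib.MP_551055_al

namespace Pool.Agent.Lib.MP_551055_al.LS
end Pool.Agent.Lib.MP_551055_al.LS

namespace Pool.Agent.Lib.MP_551055_al.RI

open Pool.Agent.Lib.MP_551055_al

open Pool.Agent.Lib.MP_551055_al.LS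

universe u

/-- The HNN extension of `D` with the stable letter `t ↦ g` is a lift. -/
theorem liftData_hnn {G : Type u} [Group G] (D : Subgroup G) (g : G) :
    LiftData (lf D g) D (lD D g) g HNNExtension.t where
  map _ hx := lf_mem D g hx
  surj _ hy := lf_surj D g hy
  inj _ hx h := lf_inj D g hx h
  ft := lf_t D g
  conj _ hx h := lf_conj D g hx h

/-- Every pair `(D, g)` has a lift to a group which acts on a tree such that the stabilisers of the
vertices are conjugate to subgroups of `D'`. -/
theorem hnn_lift (G : Type u) [Group G] (D : Subgroup G) (g : G) :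
    ∃ (H : Type u) (_ : Group H) (f : H →* G) (D' : Subgroup H) (t : H), LiftData f D D' g t ∧
      ∃ (V : Type u) (_ : MulAction H V) (T : SimpleGraph V), TreeAct H V T ∧
        ∀ v : V, ∃ h : H, ∀ x : H, x • v = v → h⁻¹ * x * h ∈ D' := by
  refine ⟨LH D g, inferInstance, lf D g, lD D g, HNNExtension.t, liftData_hnn D g,
    hV (lA D g) (lB D g) (lE D g), inferInstance, hT (lA D g) (lB D g) (lE D g),
    hT_treeAct _ _ _, fun v => ?_⟩
  induction v using QuotientGroup.induction_on with
  | H k => exact ⟨k, fun x hx => (mem_stab_hV x k).1 hx⟩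

/-- Module M4. -/
theorem stHNN : StHNN := fun G _ D g => hnn_lift G D g

end Pool.Agent.Lib.MP_551055_al.RI
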