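import Mathlib
import Pool.Agent.Lib.MP_551055_al.Trim.RI.HNN
import Pool.Agent.Lib.MP_551055_al.Trim.RI.Stmts

/-!
# The stabilisers of the Bass-Serre tree of an HNN extension
-/

set_option autoImplicit false

namespace Pool.Agent.Lib.MP_551055_al
end Pool.Agent.Lib.MP_551055_al

namespace Pool.Agent.Lib.MP_551055_al.RI

open Pool.Agent.Lib.MP_551055_al

open HNNExtension

variable {D : Type} [Group D] {A B : Subgroup D} {φ : A ≃* B}

/-- The vertex stabilisers embed into the base group. -/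
theorem exists_stab_hV (v : hV A B φ) :
    ∃ i : MulAction.stabilizer (HNNExtension D A B φ) v →* D, Function.Injective i := by
  induction v using QuotientGroup.induction_on with
  | H k =>
    have h1 : ∀ x : MulAction.stabilizer (HNNExtension D A B φ) (k : hV A B φ),
        ((MulAut.conj k⁻¹).toMonoidHom.comp (Subgroup.subtype _)) x ∈ hB A B φ := by
      intro x
      have h2 := (mem_stab_hV (x : HNNExtension D A B φ) k).1 x.2
      change k⁻¹ * (x : HNNExtension D A B φ) * k⁻¹⁻¹ ∈ _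
      rwa [inv_inv]
    refine ⟨(MonoidHom.ofInjective (of_injective (G := D) (A := A) (B := B) φ)).symm.toMonoidHom.comp
      (((MulAut.conj k⁻¹).toMonoidHom.comp (Subgroup.subtype _)).codRestrict (hB A B φ) h1), ?_⟩
    refine (MonoidHom.ofInjective (of_injective (G := D) (A := A) (B := B) φ)).symm.injective.comp ?_
    intro x y hxy
    have h3 : (MulAut.conj k⁻¹) (x : HNNExtension D A B φ) = (MulAut.conj k⁻¹) y :=
      congrArg Subtype.val hxy
    exact Subtype.ext ((MulAut.conj k⁻¹).injective h3)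

/-- The edge stabilisers. -/
theorem exists_stab_hT {u v : hV A B φ} (h : (hT A B φ).Adj u v) :
    ∃ (e : ℤˣ) (k : HNNExtension D A B φ), ∀ x : HNNExtension D A B φ, x • u = u → x • v = v →
      ∃ g ∈ toSubgroup A B e, k⁻¹ * x * k = of g := by
  obtain ⟨k, e, rfl, rfl⟩ := h
  refine ⟨-e, k, fun x h1 h2 => ?_⟩
  obtain ⟨g, hg⟩ := (mem_stab_hV x k).1 h1
  have h3 := (mem_stab_hV x _).1 h2
  refine ⟨g, ?_, hg.symm⟩
  by_contra hn
  have h4 : (k * t ^ (e : ℤ))⁻¹ * x * (k * t ^ (e : ℤ)) =
      (t ^ ((-e : ℤˣ) : ℤ) * of g * t ^ (e : ℤ) : HNNExtension D A B φ) := by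
    rw [hg, Units.val_neg, zpow_neg]
    group
  let w : NormalWord.ReducedWord D A B :=
    { head := 1
      toList := [(-e, g), (e, 1)]
      chain := by
        rw [List.isChain_cons_cons]
        exact ⟨fun h5 => absurd h5 hn, List.isChain_singleton _⟩ }
  have h5 : w.prod φ = (k * t ^ (e : ℤ))⁻¹ * x * (k * t ^ (e : ℤ)) := by
    rw [h4]
    simp [w, NormalWord.ReducedWord.prod]
  have h6 := ReducedWord.toList_eq_nil_of_mem_of_range φ w (by rw [h5]; exact h3)
  exact absurd h6 (by simp [w])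

/-- A homomorphism which is injective on the first associated subgroup is injective on the edge
stabilisers. -/
theorem hnn_edge_inj {Q : Type} [Group Q] (f : HNNExtension D A B φ →* Q)
    (hf : ∀ x ∈ A, f (of x) = 1 → x = 1) {u v : hV A B φ} (h : (hT A B φ).Adj u v)
    {x : HNNExtension D A B φ} (hu : x • u = u) (hv : x • v = v) (hx : f x = 1) : x = 1 := by
  have hB : ∀ x ∈ B, f (of x) = 1 → x = 1 := by
    intro x hx h1
    have h2 : of (φ.symm ⟨x, hx⟩ : D) = (t⁻¹ * of x * t : HNNExtension D A B φ) := by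
      have h4 := t_mul_of (G := D) (A := A) (B := B) (φ := φ) (φ.symm ⟨x, hx⟩)
      rw [MulEquiv.apply_symm_apply] at h4
      have h5 : (t * of (φ.symm ⟨x, hx⟩ : D) : HNNExtension D A B φ) = of x * t := h4
      rw [mul_assoc, ← h5, inv_mul_cancel_left]
    have h5 : (φ.symm ⟨x, hx⟩ : D) = 1 := by
      refine hf _ (φ.symm ⟨x, hx⟩).2 ?_
      rw [h2, map_mul, map_mul, h1, mul_one, ← map_mul, inv_mul_cancel, map_one]
    have h6 : φ.symm ⟨x, hx⟩ = 1 := Subtype.ext h5
    have h7 : (⟨x, hx⟩ : B) = 1 := by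
      rw [← φ.apply_symm_apply ⟨x, hx⟩, h6, map_one]
    exact congrArg Subtype.val h7
  obtain ⟨e, k, h1⟩ := exists_stab_hT h
  obtain ⟨g, hg, h2⟩ := h1 x hu hv
  have h3 : f (of g) = 1 := by
    rw [← h2, map_mul, map_mul, hx, mul_one, ← map_mul, inv_mul_cancel, map_one]
  have h4 : g = 1 := by
    rcases Int.units_eq_one_or e with rfl | rfl
    · exact hf g hg h3
    · exact hB g hg h3
  rw [h4, map_one] at h2
  have h5 : x = k * (k⁻¹ * x * k) * k⁻¹ := by group
  rw [h5, h2, mul_one, mul_inv_cancel]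

end Pool.Agent.Lib.MP_551055_al.RI
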