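import Mathlib
import Pool.Agent.Lib.MP_551055_al.Trim.LO.Base
import Pool.Agent.Lib.MP_551055_al.Trim.LS.Final
import Pool.Agent.Lib.MP_551055_al.Trim.LS.PStmts
import Pool.Agent.Lib.MP_551055_al.Trim.LS.Stmts
import Pool.Agent.Lib.MP_551055_al.Trim.LS.Stmts3
import Pool.Agent.Lib.MP_551055_al.Trim.MT.K1
import Pool.Agent.Lib.MP_551055_al.Trim.MT.RCU
import Pool.Agent.Lib.MP_551055_al.Trim.RI.Basic
import Pool.Agent.Lib.MP_551055_al.Trim.RI.FinalH
import Pool.Agent.Lib.MP_551055_al.Trim.RI.HNN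
import Pool.Agent.Lib.MP_551055_al.Trim.RI.HNN2
import Pool.Agent.Lib.MP_551055_al.Trim.RI.LiftNil
import Pool.Agent.Lib.MP_551055_al.Trim.RI.Main
import Pool.Agent.Lib.MP_551055_al.Trim.RI.Prod
import Pool.Agent.Lib.MP_551055_al.Trim.RI.Rel
import Pool.Agent.Lib.MP_551055_al.Trim.RI.Stmts
import Pool.Agent.Lib.MP_551055_al.Trim.T4.FinalT
import Pool.Agent.Lib.MP_551055_al.Trim.VNDefs

/-!
# Relative inheritance: the class of pairs, final form

The kernel condition of a lift concerns only the subgroups in the family, and the condition on the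
long segments is imposed on each long segment separately.
-/

set_option autoImplicit false

namespace Pool.Agent.Lib.MP_551055_al
end Pool.Agent.Lib.MP_551055_al

namespace Pool.Agent.Lib.MP_551055_al.LS
end Pool.Agent.Lib.MP_551055_al.LS

namespace Pool.Agent.Lib.MP_551055_al.LO
end Pool.Agent.Lib.MP_551055_al.LO

namespace Pool.Agent.Lib.MP_551055_al.T4
end Pool.Agent.Lib.MP_551055_al.T4

namespace Pool.Agent.Lib.MP_551055_al.RI

open Pool.Agent.Lib.MP_551055_al

open Pool.Agent.Lib.MP_551055_al.LS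

open Pool.Agent.Lib.MP_551055_al.LO

open Pool.Agent.Lib.MP_551055_al.T4

/-- `E` fixes a translate of the segment `[u, v]`. -/
def BTree.FixT {G : Type} [Group G] (t : BTree G) (u v : t.V) (E : Subgroup G) : Prop :=
  ∃ g : G, ∀ e ∈ E, e • g • u = g • u ∧ e • g • v = g • v

/-- The pairs. Level `0`: the base groups are in `E`. Level `1`: the base groups are in `B1`.
Level `2`: the base groups are in `B`. Level `3`: the groups in the family may be good groups. -/
inductive Cls.K (X : Cls) : ℕ → ∀ (G : Type) [Group G], (Subgroup G → Prop) → Prop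
  | base (l : ℕ) (G : Type) [Group G] (F : Subgroup G → Prop) (I : Type) [Finite I]
      (u : I → BTree G) : (∀ E : Subgroup G, F E → (∀ i, (u i).FixV E) → X.Bs l E) → X.K l G F
  | good (G : Type) [Group G] (F : Subgroup G → Prop) :
      (∀ H : Subgroup G, F H → ∀ n : ℕ, VN.ProjStFree (H × ZN n)) → X.K 3 G F
  | tree (l : ℕ) (G : Type) [Group G] (F : Subgroup G → Prop) (t : BTree G)
      (S : t.V → t.V → Prop) : Bar t.T S →
      (∀ v : t.V, X.K l (MulAction.stabilizer G v)
        fun E => F (E.map (MulAction.stabilizer G v).subtype)) →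
      (∀ u v : t.V, S u v → u ≠ v → X.K (min l 2) G (fun E => F E ∧ t.FixT u v E)) → X.K l G F
  | colim (l : ℕ) (G : Type) [Group G] (F : Subgroup G → Prop) (H : Finset G → Type)
      [∀ s, Group (H s)] (f : ∀ s, H s →* G) (i : ∀ s, G → H s) :
      (∀ s, (∀ a ∈ s, f s (i s a) = a) ∧ ∀ a ∈ s, ∀ b ∈ s, a * b ∈ s →
        i s a * i s b = i s (a * b)) →
      (∀ s, X.K l (H s) fun E => F (E.map (f s))) → X.K l G F
  | lift (l : ℕ) (G : Type) [Group G] (F : Subgroup G → Prop) (H : Type) [Group H] (f : H →* G)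
      (F' : Subgroup H → Prop) (J : Type) [Finite J] (τ : J → BTree H) : (3 ≤ l → IsEmpty J) →
      (∀ v (E : Subgroup H), E ≤ stabV τ v → F' E → X.KerOK l f E) →
      (∀ E, F' E → F (E.map f)) → X.K l G F → X.K l H F'
  | prod (l : ℕ) (G A : Type) [Group G] [Group A] (F : Subgroup G → Prop) (F' : Subgroup A → Prop) :
      l ≤ 1 → X.K l G F → X.K 0 A F' →
      X.K l (G × A) fun E => F (E.map (MonoidHom.fst G A)) ∧ F' (E.map (MonoidHom.snd G A))
  | mono (l : ℕ) (G : Type) [Group G] (F : Subgroup G → Prop) : X.K l G F → X.K (l + 1) G F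

section

variable {X : Cls} (hX : X.Ok)

/-- Composition with a lift. -/
theorem Cls.LStar.lift' (hX : X.Ok) {l : ℕ} {G : Type} [Group G] {F : Subgroup G → Prop}
    (h : X.LStar l G F) {K : Type} [Group K] (i : K →* G) {J₀ : Type} [Finite J₀]
    (τ₀ : J₀ → BTree K) (h0 : 3 ≤ l → IsEmpty J₀) {F' : Subgroup K → Prop}
    (hi : ∀ v (E : Subgroup K), E ≤ stabV τ₀ v → F' E → X.KerOK l i E)
    (hF : ∀ E, F' E → F (E.map i)) : X.LStar l K F' := by
  rintro H _ f ⟨J, hJ, τ, h1, hτ⟩ n
  let σ : J ⊕ J₀ → BTree H := Sum.elim τ fun j => (τ₀ j).res f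
  refine h H (i.comp f) ⟨J ⊕ J₀, inferInstance, σ, fun hl => ?_, fun v E hE => ?_⟩ n
  · have := h0 hl
    have := h1 hl
    infer_instance
  · obtain ⟨h2, h3⟩ := hτ (fun j => v (Sum.inl j)) E fun x hx j => hE hx (Sum.inl j)
    have h4 : E.map f ≤ stabV τ₀ fun j => v (Sum.inr j) := by
      rintro _ ⟨x, hx, rfl⟩ j
      exact hE hx (Sum.inr j)
    refine ⟨h2.kerOK hX (hi _ _ h4 h3) fun x => ⟨x, x.2, rfl⟩, ?_⟩
    rw [← Subgroup.map_map]
    exact hF _ h3

/-- Pairs whose family consists of good groups. -/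
theorem lStar_of_good' {G : Type} [Group G] (F : Subgroup G → Prop)
    (h : ∀ H : Subgroup G, F H → ∀ n : ℕ, VN.ProjStFree (H × ZN n)) : X.LStar 3 G F := by
  rintro H _ f ⟨J, hJ, τ, h0, hτ⟩ n
  have := h0 le_rfl
  obtain ⟨h1, h3⟩ := hτ (fun j => isEmptyElim j) ⊤ fun x _ j => isEmptyElim j
  have h2 : Function.Injective f := by
    rw [injective_iff_map_eq_one]
    intro x hx
    exact congrArg Subtype.val ((injective_iff_map_eq_one _).1
      (show Function.Injective (f.comp (⊤ : Subgroup H).subtype) from h1) ⟨x, Subgroup.mem_top x⟩ hx)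
  rw [← MonoidHom.range_eq_map] at h3
  exact projStFree_congr (MulEquiv.prodCongr (MonoidHom.ofInjective h2).symm (MulEquiv.refl (ZN n)))
    (h f.range h3 n)

/-- Trees. -/
theorem relTree' (hX : X.Ok) (l : ℕ) (G : Type) [Group G] (F : Subgroup G → Prop) (t : BTree G)
    (S : t.V → t.V → Prop) (hS : Bar t.T S)
    (h1 : ∀ v : t.V, X.LStar l (MulAction.stabilizer G v)
      fun E => F (E.map (MulAction.stabilizer G v).subtype))
    (h2 : ∀ u v : t.V, S u v → u ≠ v → X.LStar (min l 2) G (fun E => F E ∧ t.FixT u v E)) :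
    X.LStar l G F := by
  intro H _ f hf n
  let tH : BTree H := t.res f
  -- vertices
  have hv : ∀ v : tH.V, ∀ m, VN.ProjStFree (MulAction.stabilizer H v × ZN m) := by
    intro v m
    let φ : MulAction.stabilizer H v →* MulAction.stabilizer G (show t.V from v) :=
      (f.comp (MulAction.stabilizer H v).subtype).codRestrict _ fun x => x.2
    exact h1 v _ φ (hf.restrict (MulAction.stabilizer H v).subtype Subtype.val_injective φ
      (MulAction.stabilizer G (show t.V from v)).subtype (fun E hE => hE) fun x => rfl) m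
  have he : ∀ u v : tH.V, ∀ m, VN.ProjStFree (MulAction.stabilizer H (u, v) × ZN m) := by
    intro u v m
    have h3 : ∀ x : MulAction.stabilizer H (u, v),
        f x ∈ MulAction.stabilizer G (show t.V from u) := fun x =>
      congrArg Prod.fst (MulAction.mem_stabilizer_iff.1 x.2)
    let φ : MulAction.stabilizer H (u, v) →* MulAction.stabilizer G (show t.V from u) :=
      (f.comp (MulAction.stabilizer H (u, v)).subtype).codRestrict _ h3
    exact h1 u _ φ (hf.restrict (MulAction.stabilizer H (u, v)).subtype Subtype.val_injective φ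
      (MulAction.stabilizer G (show t.V from u)).subtype (fun E hE => hE) fun x => rfl) m
  refine stFinalH n H tH.V tH.T tH.tree (fun v => hv v n) (fun u v _ => he u v (n + 1)) S hS
    fun u v huv hne => Or.inr (Or.inr fun g _ => ?_)
  obtain ⟨Q, _, p, D', s, hL, V0, _, T0, hT0, hst⟩ := stHNN H (MulAction.stabilizer H (u, v)) g
  refine ⟨Q, inferInstance, p, D', s, hL, ?_⟩
  refine h2 u v huv hne Q (f.comp p) ?_ n
  obtain ⟨J, hJ, τ, h0, hτ⟩ := hf
  let τ0 : BTree Q := ⟨V0, inferInstance, T0, hT0⟩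
  refine ⟨Option J, inferInstance, fun o => o.elim τ0 fun j => (τ j).res p, fun hl => ?_,
    fun w E hE => ?_⟩
  · omega
  obtain ⟨h, hh⟩ := hst (w none)
  have hD : ∀ x ∈ E, h⁻¹ * x * h ∈ D' := fun x hx => hh x (hE hx none)
  have h3 : E.map p ≤ stabV τ fun j => w (some j) := by
    rintro _ ⟨x, hx, rfl⟩ j
    exact hE hx (some j)
  obtain ⟨h4, h5⟩ := hτ _ (E.map p) h3
  have hinj : ∀ x ∈ E, p x = 1 → x = 1 := by
    intro x hx h7
    have h8 : p (h⁻¹ * x * h) = 1 := by
      rw [map_mul, map_mul, h7, mul_one, ← map_mul, inv_mul_cancel, map_one]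
    have h9 := hL.inj _ (hD x hx) h8
    have h10 : x = h * (h⁻¹ * x * h) * h⁻¹ := by group
    rw [h10, h9, mul_one, mul_inv_cancel]
  refine ⟨?_, ?_, ?_⟩
  · let e : E →* E.map p := (p.comp E.subtype).codRestrict (E.map p) fun x => ⟨x, x.2, rfl⟩
    have he' : Function.Injective e := by
      rw [injective_iff_map_eq_one]
      intro x hx
      exact Subtype.ext (hinj x x.2 (congrArg Subtype.val hx))
    exact (h4.comp e he').mono hX (Nat.min_le_left l 2)
  · rw [← Subgroup.map_map]
    exact h5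
  · obtain ⟨u', hu'⟩ : ∃ u' : t.V, u' = u := ⟨_, rfl⟩
    obtain ⟨v', hv'⟩ : ∃ v' : t.V, v' = v := ⟨_, rfl⟩
    change t.FixT u v _
    rw [← hu', ← hv']
    refine ⟨f (p h), ?_⟩
    rintro _ ⟨x, hx, rfl⟩
    have h6 : p (h⁻¹ * x * h) ∈ MulAction.stabilizer H (u, v) := hL.map _ (hD x hx)
    have h7 : f (p (h⁻¹ * x * h)) • u' = u' := by
      rw [hu']
      exact congrArg Prod.fst (MulAction.mem_stabilizer_iff.1 h6)
    have h8 : f (p (h⁻¹ * x * h)) • v' = v' := by
      rw [hv']
      exact congrArg Prod.snd (MulAction.mem_stabilizer_iff.1 h6)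
    have h9 : f (p x) * f (p h) = f (p h) * f (p (h⁻¹ * x * h)) := by
      rw [← map_mul, ← map_mul, ← map_mul, ← map_mul]
      congr 2
      group
    change f (p x) • f (p h) • u' = _ ∧ f (p x) • f (p h) • v' = _
    rw [smul_smul, smul_smul, h9, mul_smul, mul_smul, h7, h8]
    exact ⟨rfl, rfl⟩

theorem BTree.fixT_res {G : Type} [Group G] (t : BTree G) {K : Type} [Group K] (f : K →* G)
    (hf : Function.Surjective f) (u v : t.V) (E : Subgroup K) :
    (t.res f).FixT u v E ↔ t.FixT u v (E.map f) := by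
  constructor
  · rintro ⟨g, hg⟩
    refine ⟨f g, ?_⟩
    rintro _ ⟨x, hx, rfl⟩
    exact hg x hx
  · rintro ⟨g, hg⟩
    obtain ⟨k, rfl⟩ := hf g
    exact ⟨k, fun x hx => hg (f x) ⟨x, hx, rfl⟩⟩

theorem motP_tree' (hX : X.Ok) {l m : ℕ} (hm : m ≤ 1) (G : Type) [Group G]
    (F : Subgroup G → Prop) (t : BTree G) (S : t.V → t.V → Prop) (hS : Bar t.T S)
    (h1 : ∀ v : t.V, X.MotP l m (MulAction.stabilizer G v)
      fun E => F (E.map (MulAction.stabilizer G v).subtype))
    (h2 : ∀ u v : t.V, S u v → u ≠ v → X.MotP l m G fun E => F E ∧ t.FixT u v E) :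
    X.MotP l m G F := by
  intro A _ F' hA
  have key : ∀ v : t.V, X.LStar m (MulAction.stabilizer (G × A)
      (show (t.res (MonoidHom.fst G A)).V from v))
      fun E => FP F F' (E.map (MulAction.stabilizer (G × A)
        (show (t.res (MonoidHom.fst G A)).V from v)).subtype) := by
    intro v
    obtain ⟨K, hK⟩ : ∃ K : Subgroup (G × A), K = MulAction.stabilizer (G × A)
      (show (t.res (MonoidHom.fst G A)).V from v) := ⟨_, rfl⟩
    rw [← hK]
    have hK' : ∀ x : K, (x : G × A).1 ∈ MulAction.stabilizer G v := by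
      rw [hK]
      exact fun x => x.2
    let i : K →* MulAction.stabilizer G v × A :=
      (((MonoidHom.fst G A).comp K.subtype).codRestrict _ hK').prod
        ((MonoidHom.snd G A).comp K.subtype)
    refine (h1 v A F' hA).pull hX i ?_ ?_
    · intro x y hxy
      have h3 : (x : G × A).1 = (y : G × A).1 :=
        congrArg (fun z : MulAction.stabilizer G v × A => (z.1 : G)) hxy
      have h4 : (x : G × A).2 = (y : G × A).2 :=
        congrArg (fun z : MulAction.stabilizer G v × A => z.2) hxy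
      exact Subtype.ext (Prod.ext h3 h4)
    · rintro E ⟨h3, h4⟩
      rw [Subgroup.map_map] at h3 h4
      refine ⟨?_, ?_⟩
      · change F (((E.map i).map _).map _)
        rw [Subgroup.map_map, Subgroup.map_map]
        exact h3
      · rw [Subgroup.map_map]
        exact h4
  refine relTree' hX m (G × A) (FP F F') (t.res (MonoidHom.fst G A)) S hS key fun u v huv hne => ?_
  rw [Nat.min_eq_left (hm.trans (Nat.le_succ 1))]
  refine (h2 u v huv hne A F' hA).mono hX ?_
  rintro E ⟨⟨h3, h4⟩, h5⟩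
  exact ⟨⟨h3, (t.fixT_res _ (fun g => ⟨(g, 1), rfl⟩) u v E).1 h5⟩, h4⟩

include hX in
theorem motP_lift' {l m : ℕ} (hm : m ≤ 1) {G : Type} [Group G] {F : Subgroup G → Prop} {H : Type}
    [Group H] (i : H →* G) {F' : Subgroup H → Prop} {J : Type} [Finite J] (τ : J → BTree H)
    (hi : ∀ v (E : Subgroup H), E ≤ stabV τ v → F' E → X.KerOK m i E)
    (hF : ∀ E, F' E → F (E.map i)) (h : X.MotP l m G F) : X.MotP l m H F' := by
  intro A _ F'' hA
  refine (h A F'' hA).lift' hX (i.prodMap (MonoidHom.id A))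
    (fun j => (τ j).res (MonoidHom.fst H A)) (fun h3 => by omega) (fun v S hS hFS => ?_) ?_
  · have hS' : S.map (MonoidHom.fst H A) ≤ stabV τ v := by
      rintro _ ⟨x, hx, rfl⟩
      exact hS hx
    rcases hi v _ hS' hFS.1 with h1 | ⟨h1, P, _, p, hP, hk⟩
    · refine Or.inl fun x hx hx' => ?_
      have h2 : i x.1 = 1 := congrArg (fun z : G × A => z.1) hx'
      have h3 : x.2 = 1 := congrArg (fun z : G × A => z.2) hx'
      exact Prod.ext (h1 _ ⟨x, hx, rfl⟩ h2) h3
    · let q : S →* S.map (MonoidHom.fst H A) := ((MonoidHom.fst H A).comp S.subtype).codRestrict _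
        fun x => ⟨x, x.2, rfl⟩
      refine Or.inr ⟨h1, P, inferInstance, p.comp q, hP, ?_⟩
      refine hX.N_inj ((q.comp (Subgroup.subtype _)).codRestrict _ ?_) ?_ hk
      · rintro ⟨x, hx⟩
        have h2 : ((i.prodMap (MonoidHom.id A)) x, p (q x)) = (1 : (G × A) × P) := hx
        have h3 : i (x : H × A).1 = 1 := congrArg (fun z : (G × A) × P => z.1.1) h2
        have h4 : p (q x) = 1 := congrArg (fun z : (G × A) × P => z.2) h2
        exact Prod.ext h3 h4
      · rintro ⟨x, hx⟩ ⟨y, hy⟩ hxy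
        have h2 : ((i.prodMap (MonoidHom.id A)) x, p (q x)) = (1 : (G × A) × P) := hx
        have h3 : ((i.prodMap (MonoidHom.id A)) y, p (q y)) = (1 : (G × A) × P) := hy
        have h4 : (x : H × A).2 = 1 := congrArg (fun z : (G × A) × P => z.1.2) h2
        have h5 : (y : H × A).2 = 1 := congrArg (fun z : (G × A) × P => z.1.2) h3
        have h6 : q x = q y := congrArg Subtype.val hxy
        have h7 : (x : H × A).1 = (y : H × A).1 := congrArg Subtype.val h6
        exact Subtype.ext (Subtype.ext (Prod.ext h7 (h4.trans h5.symm)))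
  · rintro E ⟨h3, h4⟩
    have h5 := hF _ h3
    rw [Subgroup.map_map] at h5
    refine ⟨?_, ?_⟩
    · rw [Subgroup.map_map]
      exact h5
    · rw [Subgroup.map_map]
      exact h4

include hX in
/-- The class of pairs. -/
theorem k_mot {l : ℕ} {G : Type} [Group G] {F : Subgroup G → Prop} (h : X.K l G F) :
    X.Mot l G F := by
  have hB := riRelBase hX
  have hC := stRelColim X
  induction h with
  | base l G F I u h =>
    obtain _ | _ | _ | l := l
    · exact ⟨motP_base (by omega) (rl_snd_zero hX) G F I u h,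
        motP_base le_rfl (rl_snd_one hX) G F I u h⟩
    · exact motP_base (by omega) (rl_snd_b1 hX) G F I u h
    · exact hB 2 G F I u h
    · exact hB 3 G F I u h
  | good G F h => exact lStar_of_good' F h
  | tree l G F t S hS _ _ ih1 ih2 =>
    obtain _ | _ | _ | l := l
    · exact ⟨motP_tree' hX (by omega) G F t S hS (fun v => (ih1 v).1)
        fun u v huv hne => (ih2 u v huv hne).1, motP_tree' hX le_rfl G F t S hS
          (fun v => (ih1 v).2) fun u v huv hne => (ih2 u v huv hne).2⟩
    · exact motP_tree' hX le_rfl G F t S hS ih1 ih2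
    · exact relTree' hX 2 G F t S hS ih1 ih2
    · refine relTree' hX 3 G F t S hS ih1 fun u v huv hne => ?_
      have h := ih2 u v huv hne
      rw [Nat.min_eq_right (by omega)] at h ⊢
      exact h
  | colim l G F H f i hi _ ih =>
    obtain _ | _ | _ | l := l
    · exact ⟨motP_colim hX hC G F H f i hi fun s => (ih s).1,
        motP_colim hX hC G F H f i hi fun s => (ih s).2⟩
    · exact motP_colim hX hC G F H f i hi ih
    · exact hC 2 G F fun s => ⟨H s, inferInstance, f s, i s, (hi s).1, (hi s).2, ih s⟩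
    · exact hC 3 G F fun s => ⟨H s, inferInstance, f s, i s, (hi s).1, (hi s).2, ih s⟩
  | lift l G F H f F' J τ h0 hf hF _ ih =>
    obtain _ | _ | _ | l := l
    · exact ⟨motP_lift' hX (by omega) f τ (fun v E h h' => kerOK_level (by omega) (hf v E h h'))
        hF ih.1, motP_lift' hX le_rfl f τ (fun v E h h' => kerOK_level le_rfl (hf v E h h')) hF ih.2⟩
    · exact motP_lift' hX le_rfl f τ hf hF ih
    · exact Cls.LStar.lift' hX ih f τ h0 hf hF
    · refine Cls.LStar.lift' hX (l := 3) ih f τ (fun _ => h0 (by omega)) (fun v E h h' => ?_) hF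
      rcases hf v E h h' with h | ⟨h, _⟩
      · exact Or.inl h
      · omega
  | prod l G A F F' hl _ _ ihG ihA =>
    obtain _ | _ | l := l
    · exact ⟨motP_prod hX ihG.1 ihA.1, motP_prod hX ihG.2 ihA.2⟩
    · exact motP_prod hX ihG ihA.1
    · omega
  | mono l G F _ ih =>
    obtain _ | _ | _ | l := l
    · exact fun A _ F' hA => (ih.1 A F' hA).level hX (Nat.zero_le 1)
    · exact (motP_lStar hX hB ih).level hX (Nat.le_succ 1)
    · exact Cls.LStar.level hX (by omega) ih
    · exact ih

include hX in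
/-- Groups in the class are good. -/
theorem k_good {l : ℕ} {G : Type} [Group G] (h : X.K l G fun _ => True) (n : ℕ) :
    VN.ProjStFree (G × ZN n) :=
  (mot_lStar hX (riRelBase hX) (k_mot hX h)).good hX n

end

end Pool.Agent.Lib.MP_551055_al.RI
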